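import Pool.Agent.P.MP_878f14_gt.HT.Q.KH

/-! The direct limit along a natural self-map turns weak fillings into fillings. -/

namespace Pool.Agent.P.MP_878f14_gt.HT.Q.SK

variable {S : SK}

/-- the relation defining the direct limit -/
def ColimRel (k : S.Op) (p : ℕ) : Setoid (ℕ × S.X p) where
  r u v := ∃ a b, u.1 + a = v.1 + b ∧ (k.κ p)^[a] u.2 = (k.κ p)^[b] v.2
  iseqv :=
    { refl := fun _ => ⟨0, 0, rfl, rfl⟩
      symm := fun ⟨a, b, h, h'⟩ => ⟨b, a, h.symm, h'.symm⟩
      trans := fun {u v w} ⟨a, b, h, h'⟩ ⟨a', b', g, g'⟩ => ⟨a' + a, b + b', by omega, by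
        rw [Function.iterate_add_apply, h', ← Function.iterate_add_apply, add_comm a' b,
          Function.iterate_add_apply, g', ← Function.iterate_add_apply]⟩ }

theorem Colim_iter_z (k : S.Op) (p j : ℕ) : (k.κ p)^[j] (S.z p) = S.z p :=
  Function.iterate_fixed (k.κz p) j

/-- the faces in the direct limit -/
def ColimD (k : S.Op) (p a : ℕ) : Quotient (ColimRel k (p + 1)) → Quotient (ColimRel k p) :=
  Quotient.map (fun u => (u.1, S.d a u.2)) fun _ _ ⟨i, j, h, h'⟩ =>
    ⟨i, j, h, by rw [← k.d_iter, ← k.d_iter, h']⟩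

/-- the direct limit as a reduced semi-simplicial set -/
def ColimSK (k : S.Op) : SK where
  X p := Quotient (ColimRel k p)
  d a := ColimD k _ a
  dd x a b hab hb := by
    induction x using Quotient.inductionOn with
    | h u => exact congrArg (fun y => Quotient.mk (ColimRel k _) (u.1, y)) (S.dd u.2 hab hb)
  z p := Quotient.mk _ (0, S.z p)
  dz p a := congrArg (fun y => Quotient.mk (ColimRel k _) (0, y)) (S.dz p a)
  uniq x := by
    induction x using Quotient.inductionOn with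
    | h u => exact Quotient.sound ⟨0, u.1, by simp, by rw [S.uniq (_^[0] _), S.uniq (_^[u.1] _)]⟩

/-- the direct limit -/
theorem exists_colim (k : S.Op) : ∃ (T : SK) (ι : ∀ p, ℕ → S.X p → T.X p),
    (∀ p m a (x : S.X (p + 1)), T.d a (ι _ m x) = ι p m (S.d a x)) ∧
    (∀ p m, ι p m (S.z p) = T.z p) ∧
    (∀ p m x, ι p (m + 1) (k.κ p x) = ι p m x) ∧
    (∀ p y, ∃ m x, ι p m x = y) ∧
    ∀ p m x x', ι p m x = ι p m x' → ∃ j, (k.κ p)^[j] x = (k.κ p)^[j] x' := by
  refine ⟨ColimSK k, fun p m x => Quotient.mk (ColimRel k p) (m, x), fun _ _ _ _ => rfl,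
    fun p m => Quotient.sound ⟨0, m, by simp, ?_⟩,
    fun p m x => Quotient.sound ⟨0, 1, rfl, rfl⟩, fun p y => ?_, fun p m x x' h => ?_⟩
  · rw [Colim_iter_z, Colim_iter_z]
  · induction y using Quotient.inductionOn with
    | h u => exact ⟨u.1, u.2, rfl⟩
  · obtain ⟨a, b, h, h'⟩ := Quotient.exact h
    obtain rfl : a = b := by simpa using h
    exact ⟨a, h'⟩

/-- finitely many eventually true statements hold at a common stage -/
theorem Colim_bd (P : ℕ → ℕ → Prop) (hP : ∀ a j, P a j → P a (j + 1)) (N : ℕ)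
    (h : ∀ a ≤ N, ∃ j, P a j) : ∃ j, ∀ a ≤ N, P a j := by
  have hm : ∀ a j j', j ≤ j' → P a j → P a j' := fun a j j' hj hj0 => by
    induction j', hj using Nat.le_induction with
    | base => exact hj0
    | succ n _ ih => exact hP a n ih
  induction N with
  | zero =>
    obtain ⟨j, hj⟩ := h 0 le_rfl
    exact ⟨j, fun a ha => by obtain rfl : a = 0 := by omega
                             exact hj⟩
  | succ N ih =>
    obtain ⟨j, hj⟩ := ih fun a ha => h a (by omega)
    obtain ⟨j', hj'⟩ := h (N + 1) le_rfl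
    refine ⟨max j j', fun a ha => ?_⟩
    rcases Nat.lt_or_ge N a with h1 | h1
    · obtain rfl : a = N + 1 := by omega
      exact hm _ _ _ (le_max_right _ _) hj'
    · exact hm _ _ _ (le_max_left _ _) (hj a h1)

theorem Colim_step (k : S.Op) {p j : ℕ} {x y : S.X p} (h : (k.κ p)^[j] x = (k.κ p)^[j] y) :
    (k.κ p)^[j + 1] x = (k.κ p)^[j + 1] y := by
  rw [Function.iterate_succ_apply', Function.iterate_succ_apply', h]

theorem wfill_of (k : S.Op) (hK : ∀ p, WKan k p) (hD : ∀ p, S.Deg p) (hE : S.Edge) (c : ℕ)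
    (hC : ∀ p, 1 ≤ p → p < c → S.Coc p) : ∀ p < c, WFill k p := by
  classical
  obtain ⟨T, ι, hd, hz, hκ, hs, hi⟩ := exists_colim k
  have hit : ∀ p m j x, ι p (m + j) ((k.κ p)^[j] x) = ι p m x := fun p m j x => by
    induction j with
    | zero => rfl
    | succ j ih => rw [Function.iterate_succ_apply', ← add_assoc, hκ, ih]
  -- a common stage for finitely many elements
  have hst : ∀ p (s : ℕ → T.X p) (N : ℕ), ∃ (m : ℕ) (x : ℕ → S.X p), ∀ a ≤ N, ι p m (x a) = s a := by
    intro p s N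
    obtain ⟨m, hm⟩ := Colim_bd (fun a m => ∃ x, ι p m x = s a)
      (fun a j ⟨x, hx⟩ => ⟨k.κ p x, (hκ p j x).trans hx⟩) N fun a _ => hs p (s a)
    refine ⟨m, fun a => if h : a ≤ N then (hm a h).choose else S.z p, fun a ha => ?_⟩
    simp only [dif_pos ha]
    exact (hm a ha).choose_spec
  -- a common stage for finitely many equations
  have heq : ∀ p m (A : ℕ → Prop) (x y : ℕ → S.X p) (N : ℕ),
      (∀ a ≤ N, A a → ι p m (x a) = ι p m (y a)) →
        ∃ j, ∀ a ≤ N, A a → (k.κ p)^[j] (x a) = (k.κ p)^[j] (y a) := by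
    intro p m A x y N h
    refine Colim_bd (fun a j => A a → (k.κ p)^[j] (x a) = (k.κ p)^[j] (y a))
      (fun a j h ha => Colim_step k (h ha)) N fun a ha => ?_
    by_cases hA : A a
    · obtain ⟨j, hj⟩ := hi p m _ _ (h a ha hA)
      exact ⟨j, fun _ => hj⟩
    · exact ⟨0, fun h => absurd h hA⟩
  have tK : ∀ p, T.Kan p := by
    intro p i hi2 s hcp
    obtain ⟨m, x, hx⟩ := hst _ s (p + 2)
    obtain ⟨j, hj⟩ := Colim_bd (fun b j => ∀ a ≤ b, (a ≠ i ∧ b + 1 ≠ i) →
        (k.κ p)^[j] (S.d a (x (b + 1))) = (k.κ p)^[j] (S.d b (x a)))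
      (fun b j h a ha hA => Colim_step k (h a ha hA)) (p + 1) fun b hb =>
        heq p m (fun a => a ≠ i ∧ b + 1 ≠ i) (fun a => S.d a (x (b + 1)))
          (fun a => S.d b (x a)) b fun a ha hA => by
            rw [← hd, ← hd, hx _ (by omega), hx _ (by omega)]
            exact hcp a b ha hb hA.1 hA.2
    obtain ⟨w, hw⟩ := hK p i hi2 (fun a => (k.κ _)^[j] (x a)) fun a b hab hb ha hb' => by
      rw [k.d_iter, k.d_iter]
      exact hj b hb a hab ⟨ha, hb'⟩
    refine ⟨ι _ (m + j + 1) w, fun a ha hai => ?_⟩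
    rw [hd, hw a ha hai, hκ, hit, hx a ha]
  have tD : ∀ p, T.Deg p := by
    intro p y hy i hi1
    obtain ⟨m, x, rfl⟩ := hs _ y
    obtain ⟨j, hj⟩ := heq p m (fun _ => True) (fun a => S.d a x) (fun _ => S.z p) (p + 1)
      fun a ha _ => by rw [← hd, hy a ha, hz]
    obtain ⟨w, hw⟩ := hD p ((k.κ _)^[j] x) (fun a ha => by
      rw [k.d_iter, hj a ha trivial, Colim_iter_z]) i hi1
    refine ⟨ι _ (m + j) w, fun a ha => ?_⟩
    rw [hd, hw a ha]
    split_ifs
    · exact hit _ _ _ _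
    · exact hz _ _
  have tE : T.Edge := by
    intro G _ f hf e
    obtain ⟨m, x, rfl⟩ := hs _ e
    refine hE G (fun x => f (ι 1 m x)) (fun w => ?_) x
    rw [← hd 1, ← hd 1, ← hd 1]
    exact hf _
  have tC : ∀ p, 1 ≤ p → p < c → T.Coc p := by
    intro p h1 h2 A _ f hf σ τ hστ
    obtain ⟨m, x, hx⟩ := hst _ (fun a => if a = 0 then σ else τ) 1
    have h0 : ι _ m (x 0) = σ := by simpa using hx 0 (by omega)
    have h1' : ι _ m (x 1) = τ := by simpa using hx 1 le_rfl
    obtain ⟨j, hj⟩ := heq p m (fun _ => True) (fun a => S.d a (x 0)) (fun a => S.d a (x 1)) (p + 1)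
      fun a ha _ => by rw [← hd, ← hd, h0, h1', hστ a ha]
    have := hC p h1 h2 A (fun x => f (ι _ (m + j) x)) (fun w => by
      simpa only [hd] using hf (ι _ (m + j) w)) ((k.κ _)^[j] (x 0)) ((k.κ _)^[j] (x 1))
      fun a ha => by rw [k.d_iter, k.d_iter, hj a ha trivial]
    simpa only [hit, h0, h1'] using this
  intro p hp s hcp
  obtain ⟨w, hw⟩ := fill_of tK tD tE c tC p hp (fun a => ι _ 0 (s a)) fun a b hab hb _ _ => by
    rw [hd, hd, hcp a b hab hb trivial trivial]
  obtain ⟨m, x, rfl⟩ := hs _ w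
  obtain ⟨j, hj⟩ := heq (p + 1) m (fun _ => True) (fun a => S.d a x)
    (fun a => (k.κ _)^[m] (s a)) (p + 2) fun a ha _ => by
      rw [← hd, hw a ha, ← hit _ 0 m, zero_add]
  refine ⟨j + m, (k.κ _)^[j] x, fun a ha => ?_⟩
  rw [k.d_iter, hj a ha trivial, Function.iterate_add_apply]

end Pool.Agent.P.MP_878f14_gt.HT.Q.SK
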