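import Pool.Agent.P.MP_878f14_gt.HT.Q.Raw

/-! Concordance near a set. -/

namespace Pool.Agent.P.MP_878f14_gt.HT.Q

open Filter Topology Function
open scoped ContDiff

noncomputable section

variable {n : ℕ} {V V' : Type} [NormedAddCommGroup V] [NormedSpace ℝ V] [NormedAddCommGroup V']
  [NormedSpace ℝ V']

/-- `H` is a concordance from `F` to `G` over the point `x` -/
def CcAt (H : Rw n (V × ℝ)) (F G : Rw n V) (x : V) : Prop :=
  (∀ s, IsAt id H (x, s)) ∧ (∀ s ≤ 0, H (x, s) = pb Prod.fst F (x, s)) ∧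
    ∀ s, 1 ≤ s → H (x, s) = pb Prod.fst G (x, s)

/-- concordant near `M` -/
def Conc (M : Set V) (F G : Rw n V) : Prop := ∃ H : Rw n (V × ℝ), ∀ᶠ x in 𝓝ˢ M, CcAt H F G x

variable {M : Set V} {F G K : Rw n V}

theorem conc_sm_cont {W W' : Type} [NormedAddCommGroup W] [NormedSpace ℝ W]
    [NormedAddCommGroup W'] [NormedSpace ℝ W'] {f : W → W'} {w : W} (h : Sm f w) :
    ContinuousAt f w := (Filter.Eventually.self_of_nhds h).continuousAt

theorem conc_sm_fst {W W' : Type} [NormedAddCommGroup W] [NormedSpace ℝ W]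
    [NormedAddCommGroup W'] [NormedSpace ℝ W'] {f : W → W'} {w : W} (h : Sm f w) (s : ℝ) :
    Sm (fun p : W × ℝ => f p.1) (w, s) :=
  ((continuousAt_fst (p := (w, s))).eventually h).mono fun _ hp => hp.comp _ contDiffAt_fst

theorem conc_isAt_rep {H : Rw n (V × ℝ)} {σ : ℝ → ℝ} (hσ : ContDiff ℝ ∞ σ) {x : V} {s : ℝ}
    (h : IsAt id H (x, σ s)) : IsAt id (pb (fun p : V × ℝ => (p.1, σ p.2)) H) (x, s) :=
  IsAt.pb (ι := id) (ι' := id) IsInducing.id continuous_id (fun p : V × ℝ => (p.1, σ p.2))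
    (sm_of (contDiff_fst.prodMk (hσ.comp contDiff_snd)) _) (.of_forall fun _ => rfl) h

omit [NormedSpace ℝ V] in
theorem conc_pb_rep {H : Rw n (V × ℝ)} {σ : ℝ → ℝ} (hσ : Continuous σ) {x : V} {s : ℝ}
    (h : H (x, σ s) = pb Prod.fst F (x, σ s)) :
    pb (fun p : V × ℝ => (p.1, σ p.2)) H (x, s) = pb Prod.fst F (x, s) := by
  have e : pb (fun p : V × ℝ => (p.1, σ p.2)) H (x, s) =
      pb (fun p : V × ℝ => (p.1, σ p.2)) (pb Prod.fst F) (x, s) := pb_congr h
  have c : ContinuousAt (fun p : V × ℝ => (p.1, σ p.2)) (x, s) :=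
    (continuous_fst.prodMk (hσ.comp continuous_snd)).continuousAt
  rw [e, pb_pb c]
  rfl

theorem Conc.symm (h : Conc M F G) : Conc M G F := by
  obtain ⟨H, hH⟩ := h
  have hσ : ContDiff ℝ ∞ fun s : ℝ => 1 - s := contDiff_const.sub contDiff_id
  refine ⟨Q.pb (fun p : V × ℝ => (p.1, 1 - p.2)) H, hH.mono fun x hx => ⟨fun s => ?_, fun s hs => ?_,
    fun s hs => ?_⟩⟩
  · exact conc_isAt_rep hσ (hx.1 _)
  · exact conc_pb_rep hσ.continuous (hx.2.2 _ (by linarith))
  · exact conc_pb_rep hσ.continuous (hx.2.1 _ (by linarith))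

theorem Conc.trans (h : Conc M F G) (h' : Conc M G K) : Conc M F K := by
  classical
  obtain ⟨H, hH⟩ := h
  obtain ⟨H', hH'⟩ := h'
  have h1 : ContDiff ℝ ∞ fun s : ℝ => 3 * s := contDiff_const.mul contDiff_id
  have h2 : ContDiff ℝ ∞ fun s : ℝ => 3 * s - 2 := h1.sub contDiff_const
  refine ⟨fun p => if p.2 ≤ 1 / 2 then Q.pb (fun p : V × ℝ => (p.1, 3 * p.2)) H p
    else Q.pb (fun p : V × ℝ => (p.1, 3 * p.2 - 2)) H' p, ?_⟩
  rw [eventually_nhdsSet_iff_forall] at hH hH' ⊢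
  intro x₀ hx₀
  filter_upwards [((hH x₀ hx₀).and (hH' x₀ hx₀)).eventually_nhds] with x hx
  obtain ⟨hx1, hx2⟩ := hx.self_of_nhds
  refine ⟨fun s => ?_, fun s hs => ?_, fun s hs => ?_⟩
  · rcases lt_or_ge s (2 / 3) with hs | hs
    · refine (conc_isAt_rep h1 (hx1.1 (3 * s))).congr ?_
      have e1 : ∀ᶠ p : V × ℝ in 𝓝 (x, s), p.2 < 2 / 3 :=
        (continuousAt_snd (p := (x, s))).eventually (gt_mem_nhds hs)
      filter_upwards [e1, (continuousAt_fst (p := (x, s))).eventually hx] with p hp hq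
      obtain ⟨y, r⟩ := p
      by_cases hr : r ≤ 1 / 2
      · simp only [hr, if_true]
      · simp only [hr, if_false]
        have hr' : 1 / 2 < r := not_le.1 hr
        have hp' : r < 2 / 3 := hp
        exact (conc_pb_rep h2.continuous (hq.2.2.1 _ (by linarith))).trans
          (conc_pb_rep h1.continuous (hq.1.2.2 _ (by linarith))).symm
    · refine (conc_isAt_rep h2 (hx2.1 (3 * s - 2))).congr ?_
      have e1 : ∀ᶠ p : V × ℝ in 𝓝 (x, s), 1 / 2 < p.2 :=
        (continuousAt_snd (p := (x, s))).eventually (lt_mem_nhds (by linarith : (1 / 2 : ℝ) < s))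
      filter_upwards [e1] with p hp
      simp only [not_le.2 hp, if_false]
  · have hs' : s ≤ 1 / 2 := by linarith
    simp only [hs', if_true]
    exact conc_pb_rep h1.continuous (hx1.2.1 _ (by linarith))
  · have hs' : ¬ s ≤ 1 / 2 := not_le.2 (by linarith)
    simp only [hs', if_false]
    exact conc_pb_rep h2.continuous (hx2.2.2 _ (by linarith))

theorem Conc.congr {F' G' : Rw n V} (h : Conc M F G) (hF : ∀ᶠ x in 𝓝ˢ M, F' x = F x)
    (hG : ∀ᶠ x in 𝓝ˢ M, G' x = G x) : Conc M F' G' := by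
  obtain ⟨H, hH⟩ := h
  refine ⟨H, ?_⟩
  filter_upwards [hH, hF, hG] with x hx h1 h2
  exact ⟨hx.1, fun s hs => (hx.2.1 s hs).trans (pb_congr h1.symm),
    fun s hs => (hx.2.2 s hs).trans (pb_congr h2.symm)⟩

omit [NormedSpace ℝ V] [NormedSpace ℝ V'] in
theorem conc_pb_end {H : Rw n (V × ℝ)} {m : V' → V} {x : V'} {s : ℝ} (hm : ContinuousAt m x)
    (h : H (m x, s) = pb Prod.fst F (m x, s)) :
    pb (fun p : V' × ℝ => (m p.1, p.2)) H (x, s) = pb Prod.fst (pb m F) (x, s) := by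
  have e : pb (fun p : V' × ℝ => (m p.1, p.2)) H (x, s) =
      pb (fun p : V' × ℝ => (m p.1, p.2)) (pb Prod.fst F) (x, s) := pb_congr h
  have c : ContinuousAt (fun p : V' × ℝ => (m p.1, p.2)) (x, s) :=
    (ContinuousAt.comp (g := m) (f := Prod.fst) (x := (x, s)) hm continuousAt_fst).prodMk
      continuousAt_snd
  rw [e, pb_pb c, pb_pb continuousAt_fst]
  rfl

omit [NormedSpace ℝ V] [NormedSpace ℝ V'] in
theorem conc_pl_end {H : Rw n (V × ℝ)} {m : V' → V} {L : V' → Fin n → Fin n → ℝ} {x : V'} {s : ℝ}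
    (hm : ContinuousAt m x) (hL : ContinuousAt L x) (h : H (m x, s) = pb Prod.fst F (m x, s)) :
    pl (fun p : V' × ℝ => (m p.1, p.2)) (lin fun p : V' × ℝ => L p.1) H (x, s) =
      pb Prod.fst (pl m (lin L) F) (x, s) := by
  have e : pl (fun p : V' × ℝ => (m p.1, p.2)) (lin fun p : V' × ℝ => L p.1) H (x, s) =
      pl (fun p : V' × ℝ => (m p.1, p.2)) (lin fun p : V' × ℝ => L p.1) (pb Prod.fst F) (x, s) :=
    pl_congr h
  have c : ContinuousAt (fun p : V' × ℝ => (m p.1, p.2)) (x, s) :=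
    (ContinuousAt.comp (g := m) (f := Prod.fst) (x := (x, s)) hm continuousAt_fst).prodMk
      continuousAt_snd
  have c' : ContinuousAt (fun p : V' × ℝ => L p.1) (x, s) :=
    ContinuousAt.comp (g := L) (f := Prod.fst) (x := (x, s)) hL continuousAt_fst
  rw [e, pb, pb, pl_pl (tn_lin c c'), pl_pl (tn_snd continuousAt_fst)]
  rfl

theorem conc_sm_prod {m : V' → V} {x : V'} (hm : Sm m x) (s : ℝ) :
    Sm (fun p : V' × ℝ => (m p.1, p.2)) (x, s) :=
  (conc_sm_fst hm s).mono fun _ hp => hp.prodMk contDiffAt_snd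

/-- pull-back by a smooth map -/
theorem Conc.pb (h : Conc M F G) {M' : Set V'} {m : V' → V} (hm : ∀ x ∈ M', Sm m x)
    (hM : ∀ x ∈ M', m x ∈ M) : Conc M' (pb m F) (pb m G) := by
  obtain ⟨H, hH⟩ := h
  refine ⟨Q.pb (fun p : V' × ℝ => (m p.1, p.2)) H, ?_⟩
  rw [eventually_nhdsSet_iff_forall] at hH ⊢
  intro x₀ hx₀
  filter_upwards [(hm x₀ hx₀).eventually_nhds,
    (conc_sm_cont (hm x₀ hx₀)).eventually (hH _ (hM x₀ hx₀))] with x h1 h2
  refine ⟨fun s => ?_, fun s hs => conc_pb_end (conc_sm_cont h1) (h2.2.1 s hs),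
    fun s hs => conc_pb_end (conc_sm_cont h1) (h2.2.2 s hs)⟩
  exact IsAt.pb (ι := id) (ι' := id) IsInducing.id continuous_id
    (fun p : V' × ℝ => (m p.1, p.2)) (conc_sm_prod h1 s) (.of_forall fun _ => rfl) (h2.1 s)

/-- pull-back by a smooth fibrewise linear bundle map -/
theorem Conc.pl_lin (h : Conc M F G) {M' : Set V'} {m : V' → V} {L : V' → Fin n → Fin n → ℝ}
    (hm : ∀ x ∈ M', Sm m x) (hL : ∀ x ∈ M', Sm L x) (hd : ∀ x ∈ M', (Matrix.of (L x)).det ≠ 0)
    (hM : ∀ x ∈ M', m x ∈ M) : Conc M' (pl m (lin L) F) (pl m (lin L) G) := by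
  obtain ⟨H, hH⟩ := h
  refine ⟨pl (fun p : V' × ℝ => (m p.1, p.2)) (lin fun p : V' × ℝ => L p.1) H, ?_⟩
  rw [eventually_nhdsSet_iff_forall] at hH ⊢
  intro x₀ hx₀
  have cd : Continuous fun A : Fin n → Fin n → ℝ => (Matrix.of A).det :=
    Continuous.matrix_det (A := fun A : Fin n → Fin n → ℝ => Matrix.of A) continuous_id
  have e : ∀ᶠ x in 𝓝 x₀, (Matrix.of (L x)).det ≠ 0 :=
    (cd.continuousAt.comp (conc_sm_cont (hL x₀ hx₀))).eventually_ne (hd x₀ hx₀)
  filter_upwards [(hm x₀ hx₀).eventually_nhds, (hL x₀ hx₀).eventually_nhds, e,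
    (conc_sm_cont (hm x₀ hx₀)).eventually (hH _ (hM x₀ hx₀))] with x h1 h1' h3 h2
  refine ⟨fun s => ?_, fun s hs => conc_pl_end (conc_sm_cont h1) (conc_sm_cont h1') (h2.2.1 s hs),
    fun s hs => conc_pl_end (conc_sm_cont h1) (conc_sm_cont h1') (h2.2.2 s hs)⟩
  exact IsAt.pl_lin (conc_sm_prod h1 s) (conc_sm_fst h1' s) h3 (h2.1 s)

/-- the straight line homotopy between two smooth maps -/
theorem conc_segment {M' : Set V'} {a b : V' → V} (ha : ∀ x ∈ M', Sm a x) (hb : ∀ x ∈ M', Sm b x)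
    (hF : ∀ x ∈ M', ∀ y ∈ segment ℝ (a x) (b x), IsAt id F y) : Conc M' (pb a F) (pb b F) := by
  have hτ : ContDiff ℝ ∞ fun s : ℝ => Real.smoothTransition (3 * s - 1) :=
    Real.smoothTransition.contDiff.comp ((contDiff_const.mul contDiff_id).sub contDiff_const)
  refine ⟨pb (fun p : V' × ℝ => a p.1 + Real.smoothTransition (3 * p.2 - 1) • (b p.1 - a p.1)) F, ?_⟩
  rw [eventually_nhdsSet_iff_forall]
  intro x₀ hx₀
  have tube : ∀ᶠ x in 𝓝 x₀, ∀ θ ∈ Set.Icc (0 : ℝ) 1, IsAt id F (a x + θ • (b x - a x)) := by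
    refine IsCompact.eventually_forall_of_forall_eventually
      (P := fun x θ => IsAt id F (a x + θ • (b x - a x))) isCompact_Icc fun θ hθ => ?_
    have ca := conc_sm_cont (conc_sm_fst (ha x₀ hx₀) θ)
    have cb := conc_sm_cont (conc_sm_fst (hb x₀ hx₀) θ)
    have c : ContinuousAt (fun p : V' × ℝ => a p.1 + p.2 • (b p.1 - a p.1)) (x₀, θ) :=
      ca.add (continuousAt_snd.smul (cb.sub ca))
    have hy : IsAt id F (a x₀ + θ • (b x₀ - a x₀)) :=
      hF x₀ hx₀ _ (by rw [segment_eq_image']; exact ⟨θ, hθ, rfl⟩)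
    exact c.eventually (hy.eventually continuous_id)
  filter_upwards [(ha x₀ hx₀).eventually_nhds, (hb x₀ hx₀).eventually_nhds, tube] with x h1 h2 h3
  refine ⟨fun s => ?_, fun s hs => ?_, fun s hs => ?_⟩
  · refine IsAt.pb (ι := id) (ι' := id) IsInducing.id continuous_id
      (fun p : V' × ℝ => a p.1 + Real.smoothTransition (3 * p.2 - 1) • (b p.1 - a p.1)) ?_
      (.of_forall fun _ => rfl)
      (h3 _ ⟨Real.smoothTransition.nonneg _, Real.smoothTransition.le_one _⟩)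
    filter_upwards [conc_sm_fst h1 s, conc_sm_fst h2 s] with p hp hq
    exact hp.add (((hτ.comp contDiff_snd).contDiffAt).smul (hq.sub hp))
  · rw [pb_pb continuousAt_fst]
    refine pb_congr_map ?_
    have e1 : ∀ᶠ p : V' × ℝ in 𝓝 (x, s), p.2 < 1 / 3 :=
      (continuousAt_snd (p := (x, s))).eventually (gt_mem_nhds (by linarith : s < 1 / 3))
    filter_upwards [e1] with p hp
    rw [Real.smoothTransition.zero_of_nonpos (by linarith), zero_smul, add_zero]
    rfl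
  · rw [pb_pb continuousAt_fst]
    refine pb_congr_map ?_
    have e1 : ∀ᶠ p : V' × ℝ in 𝓝 (x, s), 2 / 3 < p.2 :=
      (continuousAt_snd (p := (x, s))).eventually (lt_mem_nhds (by linarith : (2 / 3 : ℝ) < s))
    filter_upwards [e1] with p hp
    rw [Real.smoothTransition.one_of_one_le (by linarith), one_smul, add_sub_cancel]
    rfl

end

end Pool.Agent.P.MP_878f14_gt.HT.Q
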