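import Pool.Agent.P.MP_878f14_gt.HT.Q.Kan

/-! Cones over a finite labelled complex. -/

namespace Pool.Agent.P.MP_878f14_gt.HT.Q.SK

variable {S : SK}

theorem exists_cone (k : S.Op) (c : ℕ) (hF : ∀ p < c, WFill k p) (A : ℕ → Type)
    [∀ j, Finite (A j)] (e : ∀ j, ℕ → A (j + 1) → A j)
    (he : ∀ j (f : A (j + 2)) a b, a ≤ b → b ≤ j + 1 →
      e j a (e (j + 1) (b + 1) f) = e j b (e (j + 1) a f))
    (σ : ∀ j, A j → S.X j) (hσ : ∀ j (f : A (j + 1)), ∀ a ≤ j + 1, S.d a (σ _ f) = σ j (e j a f)) :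
    ∃ (m : ℕ) (γ : ∀ j, A j → S.X (j + 1)),
      (∀ j ≤ c, ∀ f, S.d 0 (γ j f) = (k.κ j)^[m] (σ j f)) ∧
      ∀ j, j + 1 ≤ c → ∀ f, ∀ l ≤ j + 1, S.d (l + 1) (γ (j + 1) f) = γ j (e j l f) := by
  induction c with
  | zero =>
    refine ⟨0, fun j _ => S.z (j + 1), fun j hj f => ?_, fun j hj => by omega⟩
    obtain rfl : j = 0 := by omega
    exact (S.uniq _).trans (S.uniq _).symm
  | succ c ih =>
    obtain ⟨m, γ, h0, h1⟩ := ih fun p hp => hF p (by omega)
    have key : ∀ f : A (c + 1), ∃ (r : ℕ) (w : S.X (c + 2)),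
        S.d 0 w = (k.κ _)^[r] ((k.κ _)^[m] (σ _ f)) ∧
          ∀ l ≤ c + 1, S.d (l + 1) w = (k.κ _)^[r] (γ c (e c l f)) := by
      intro f
      obtain ⟨r, w, hw⟩ := hF c (by omega)
        (fun a => Nat.casesOn a ((k.κ _)^[m] (σ _ f)) fun l => γ c (e c l f)) (by
          intro a b hab hb _ _
          cases a with
          | zero =>
            change S.d 0 (γ c (e c b f)) = S.d b ((k.κ _)^[m] (σ _ f))
            rw [h0 c le_rfl, k.d_iter, hσ c f b hb]
          | succ a =>
            obtain ⟨b, rfl⟩ : ∃ b', b = b' + 1 := ⟨b - 1, by omega⟩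
            change S.d (a + 1) (γ c (e c (b + 1) f)) = S.d (b + 1) (γ c (e c a f))
            cases c with
            | zero => exact (S.uniq _).trans (S.uniq _).symm
            | succ c =>
              rw [h1 c le_rfl _ a (by omega), h1 c le_rfl _ b (by omega),
                he c f a b (by omega) (by omega)])
      exact ⟨r, w, hw 0 (by omega), fun l hl => hw (l + 1) (by omega)⟩
    choose r w hw0 hw1 using key
    obtain ⟨M, hM⟩ := (Set.finite_range r).bddAbove
    have hr : ∀ f, r f ≤ M := fun f => hM ⟨f, rfl⟩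
    refine ⟨M + m, Function.update (fun j f => (k.κ _)^[M] (γ j f)) (c + 1)
      (fun f => (k.κ _)^[M - r f] (w f)), fun j hj f => ?_, fun j hj f l hl => ?_⟩
    · rcases hj.eq_or_lt with rfl | hj
      · rw [Function.update_self, k.d_iter, hw0, ← Function.iterate_add_apply _ (M - r f),
          Nat.sub_add_cancel (hr f), ← Function.iterate_add_apply]
      · rw [Function.update_of_ne hj.ne, k.d_iter, h0 j (by omega), ← Function.iterate_add_apply]
    · rcases hj.eq_or_lt with hj | hj
      · obtain rfl : j = c := by omega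
        rw [Function.update_self, Function.update_of_ne (by omega), k.d_iter, hw1 f l hl,
          ← Function.iterate_add_apply, Nat.sub_add_cancel (hr f)]
      · rw [Function.update_of_ne hj.ne, Function.update_of_ne (by omega), k.d_iter,
          h1 j (by omega) f l hl]

end Pool.Agent.P.MP_878f14_gt.HT.Q.SK
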