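import Mathlib

/-! Partitions of unity of small order near a compact set of small Hausdorff dimension. -/

namespace Pool.Agent.P.MP_878f14_gt.HT.Q

open Filter Topology Function
open scoped ContDiff

variable {N c : ℕ} {M : Set (Fin N → ℝ)}

/-- the projection to the coordinates in `T` -/
noncomputable def coverPr (T : Finset (Fin N)) : (Fin N → ℝ) →L[ℝ] (T → ℝ) :=
  ContinuousLinearMap.pi fun i : T => ContinuousLinearMap.proj i.1

theorem cover_pr_apply (T : Finset (Fin N)) (x : Fin N → ℝ) (i : T) : coverPr T x i = x i.1 := rfl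

theorem cover_pr_open (T : Finset (Fin N)) : IsOpenMap (coverPr T) := by
  classical
  refine (coverPr T).isOpenMap fun y => ⟨fun i => if h : i ∈ T then y ⟨i, h⟩ else 0, ?_⟩
  funext i
  simp [cover_pr_apply, i.2]

theorem cover_good (hM : IsCompact M) (hd : dimH M < ((c + 1 : ℕ) : ENNReal))
    (T : Finset (Fin N)) (hT : T.card = c + 1) (b : Fin N → ℝ) :
    IsOpen {a : Fin N → ℝ | coverPr T (a + b) ∉ coverPr T '' M} ∧
      Dense {a : Fin N → ℝ | coverPr T (a + b) ∉ coverPr T '' M} := by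
  have hc : IsClosed (coverPr T '' M) := (hM.image (coverPr T).continuous).isClosed
  have hdn : Dense (coverPr T '' M)ᶜ := by
    apply dense_compl_of_dimH_lt_finrank
    refine lt_of_le_of_lt ((coverPr T).lipschitz.dimH_image_le M) ?_
    simpa [hT] using hd
  have ho : IsOpenMap fun a : Fin N → ℝ => coverPr T (a + b) :=
    (cover_pr_open T).comp (isOpenMap_add_right b)
  exact ⟨hc.isOpen_compl.preimage
    ((coverPr T).continuous.comp (continuous_id.add continuous_const)), hdn.preimage ho⟩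

/-- a shift of the grid such that no point of `M` has more than `c` coordinates on the grid -/
theorem exists_shift (hM : IsCompact M) (hd : dimH M < ((c + 1 : ℕ) : ENNReal)) {δ : ℝ}
    (hδ : 0 < δ) : ∃ a : Fin N → ℝ, ∀ x ∈ M, ∀ T : Finset (Fin N),
      (∀ i ∈ T, ∃ k : ℤ, x i - a i = k * δ) → T.card ≤ c := by
  classical
  have _h := hδ
  let W : {T : Finset (Fin N) // T.card = c + 1} × (Fin N → ℤ) → Set (Fin N → ℝ) := fun p =>
    {a | coverPr p.1.1 (a + fun i => (p.2 i : ℝ) * δ) ∉ coverPr p.1.1 '' M}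
  have hW : Dense (⋂ p, W p) :=
    dense_iInter_of_isOpen (fun p => (cover_good hM hd p.1.1 p.1.2 _).1)
      (fun p => (cover_good hM hd p.1.1 p.1.2 _).2)
  obtain ⟨a, ha⟩ := hW.nonempty
  refine ⟨a, fun x hx T hT => ?_⟩
  by_contra hlt
  obtain ⟨T1, h1, h2⟩ := Finset.exists_subset_card_eq (s := T) (n := c + 1) (by omega)
  have hk : ∀ i : Fin N, ∃ k : ℤ, i ∈ T → x i - a i = k * δ := fun i => by
    by_cases hi : i ∈ T
    · obtain ⟨k, hk⟩ := hT i hi
      exact ⟨k, fun _ => hk⟩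
    · exact ⟨0, fun h => absurd h hi⟩
  choose k hk using hk
  refine Set.mem_iInter.1 ha (⟨T1, h2⟩, k) ⟨x, hx, ?_⟩
  funext i
  have := hk i.1 (h1 i.2)
  simp only [cover_pr_apply, Pi.add_apply]
  linarith

/-- a continuous function that vanishes exactly on the grid -/
noncomputable def coverG (δ t : ℝ) : ℝ := |Real.sin (Real.pi * (t / δ))|

theorem cover_g_cont (δ : ℝ) : Continuous (coverG δ) := by
  unfold coverG; fun_prop

theorem cover_g_zero {δ : ℝ} (hδ : 0 < δ) (t : ℝ) : coverG δ t = 0 ↔ ∃ k : ℤ, t = k * δ := by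
  unfold coverG
  rw [abs_eq_zero, Real.sin_eq_zero_iff]
  refine exists_congr fun k => ?_
  rw [mul_comm, mul_right_inj' Real.pi_ne_zero, eq_div_iff hδ.ne', eq_comm]

/-- the open pieces -/
def coverU (δ : ℝ) (a : Fin N → ℝ) (T : Finset (Fin N)) (k : Fin N → ℤ) : Set (Fin N → ℝ) :=
  {x | (∀ i j, i ∈ T → j ∉ T → coverG δ (x i - a i) < coverG δ (x j - a j)) ∧
    (∀ i, i ∈ T → |x i - a i - k i * δ| < δ / 2) ∧
    ∀ j, j ∉ T → k j * δ < x j - a j ∧ x j - a j < (k j + 1) * δ}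

theorem cover_imp_open {X : Type} [TopologicalSpace X] (p : Prop) {q : X → Prop}
    (h : IsOpen {x | q x}) : IsOpen {x | p → q x} := by
  by_cases hp : p
  · simpa [hp] using h
  · simp [hp]

theorem cover_all_open {X ι : Type} [TopologicalSpace X] [Finite ι] {q : ι → X → Prop}
    (h : ∀ i, IsOpen {x | q i x}) : IsOpen {x | ∀ i, q i x} := by
  rw [Set.ofPred_forall]
  exact isOpen_iInter_of_finite h

theorem cover_u_open (δ : ℝ) (a : Fin N → ℝ) (T : Finset (Fin N)) (k : Fin N → ℤ) :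
    IsOpen (coverU δ a T k) := by
  have hg := cover_g_cont δ
  refine IsOpen.and ?_ (IsOpen.and ?_ ?_)
  · refine cover_all_open fun i => cover_all_open fun j =>
      cover_imp_open _ (cover_imp_open _ (isOpen_lt ?_ ?_))
    · exact hg.comp (by fun_prop)
    · exact hg.comp (by fun_prop)
  · exact cover_all_open fun i => cover_imp_open _ (isOpen_lt (by fun_prop) (by fun_prop))
  · exact cover_all_open fun i => cover_imp_open _
      (IsOpen.and (isOpen_lt (by fun_prop) (by fun_prop)) (isOpen_lt (by fun_prop) (by fun_prop)))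

theorem cover_int_eq {δ : ℝ} (hδ : 0 < δ) {k l : ℤ} (h1 : (k : ℝ) * δ < (l + 1) * δ)
    (h2 : (l : ℝ) * δ < (k + 1) * δ) : k = l := by
  have a1 : (k : ℝ) < l + 1 := lt_of_mul_lt_mul_right h1 hδ.le
  have a2 : (l : ℝ) < k + 1 := lt_of_mul_lt_mul_right h2 hδ.le
  have b1 : k < l + 1 := by exact_mod_cast a1
  have b2 : l < k + 1 := by exact_mod_cast a2
  omega

theorem cover_u_eq {δ : ℝ} (hδ : 0 < δ) (a : Fin N → ℝ) {T T1 : Finset (Fin N)}
    {k k1 : Fin N → ℤ} (hc : T.card = T1.card) {x : Fin N → ℝ} (h : x ∈ coverU δ a T k)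
    (h1 : x ∈ coverU δ a T1 k1) : T = T1 ∧ k = k1 := by
  classical
  have hT : T = T1 := by
    by_contra hne
    have n1 : ¬ T ⊆ T1 := fun hs => hne (Finset.eq_of_subset_of_card_le hs hc.ge)
    have n2 : ¬ T1 ⊆ T := fun hs => hne (Finset.eq_of_subset_of_card_le hs hc.le).symm
    obtain ⟨i, hi, hi1⟩ := Finset.not_subset.1 n1
    obtain ⟨j, hj, hj1⟩ := Finset.not_subset.1 n2
    exact lt_asymm (h.1 i j hi hj1) (h1.1 j i hj hi1)
  subst hT
  refine ⟨rfl, funext fun i => ?_⟩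
  by_cases hi : i ∈ T
  · have e1 := abs_lt.1 (h.2.1 i hi)
    have e2 := abs_lt.1 (h1.2.1 i hi)
    exact cover_int_eq hδ (by linarith [e1.1, e2.2]) (by linarith [e1.2, e2.1])
  · have e1 := h.2.2 i hi
    have e2 := h1.2.2 i hi
    exact cover_int_eq hδ (by linarith [e1.1, e2.2]) (by linarith [e1.2, e2.1])

/-- an open cover by small sets in `c + 1` colours, disjoint in each colour -/
theorem exists_colours (hM : IsCompact M) (hd : dimH M < ((c + 1 : ℕ) : ENNReal)) {δ : ℝ}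
    (hδ : 0 < δ) : ∃ (I : Type) (U : I → Set (Fin N → ℝ)) (v : I → Fin N → ℝ) (col : I → ℕ),
      (∀ i, IsOpen (U i)) ∧ M ⊆ ⋃ i, U i ∧ (∀ i, U i ⊆ Metric.ball (v i) δ) ∧ (∀ i, col i ≤ c) ∧
        ∀ i j x, col i = col j → x ∈ U i → x ∈ U j → i = j := by
  classical
  obtain ⟨a, ha⟩ := exists_shift hM hd hδ
  refine ⟨{T : Finset (Fin N) // T.card ≤ c} × (Fin N → ℤ), fun p => coverU δ a p.1.1 p.2,
    fun p i => a i + p.2 i * δ, fun p => p.1.1.card, fun p => cover_u_open _ _ _ _, ?_, ?_,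
    fun p => p.1.2, ?_⟩
  · intro x hx
    let T : Finset (Fin N) := Finset.univ.filter fun i => ∃ k : ℤ, x i - a i = k * δ
    have hT : ∀ i, i ∈ T ↔ ∃ k : ℤ, x i - a i = k * δ := fun i => by simp [T]
    refine Set.mem_iUnion.2 ⟨(⟨T, ha x hx T fun i hi => (hT i).1 hi⟩,
      fun i => ⌊(x i - a i) / δ⌋), ?_, ?_, ?_⟩
    · intro i j hi hj
      rw [(cover_g_zero hδ _).2 ((hT i).1 hi)]
      refine lt_of_le_of_ne (abs_nonneg _) fun h => hj ((hT j).2 ?_)
      exact (cover_g_zero hδ _).1 h.symm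
    · intro i hi
      obtain ⟨k, hk⟩ := (hT i).1 hi
      simp only [hk, mul_div_cancel_right₀ _ hδ.ne', Int.floor_intCast, sub_self, abs_zero]
      linarith
    · intro j hj
      have h1 := Int.floor_le ((x j - a j) / δ)
      have h2 := Int.lt_floor_add_one ((x j - a j) / δ)
      rw [le_div_iff₀ hδ] at h1
      rw [div_lt_iff₀ hδ] at h2
      exact ⟨lt_of_le_of_ne h1 fun h => hj ((hT j).2 ⟨_, h.symm⟩), h2⟩
  · intro p x hx
    rw [Metric.mem_ball, dist_pi_lt_iff hδ]
    intro i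
    rw [Real.dist_eq, abs_lt]
    by_cases hi : i ∈ p.1.1
    · have e := abs_lt.1 (hx.2.1 i hi)
      constructor <;> linarith [e.1, e.2]
    · have e := hx.2.2 i hi
      constructor <;> linarith [e.1, e.2]
  · intro p q x hc h1 h2
    obtain ⟨e1, e2⟩ := cover_u_eq hδ a hc h1 h2
    exact Prod.ext (Subtype.ext e1) e2

theorem exists_partition (hM : IsCompact M) (hd : dimH M < ((c + 1 : ℕ) : ENNReal)) {δ : ℝ}
    (hδ : 0 < δ) : ∃ (L : ℕ) (ρ : (Fin N → ℝ) → Fin L → ℝ) (v : Fin L → Fin N → ℝ),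
      ContDiff ℝ ∞ ρ ∧ (∀ᶠ x in 𝓝ˢ M, ρ x ∈ stdSimplex ℝ (Fin L)) ∧
      (∀ β, tsupport (fun x => ρ x β) ⊆ Metric.ball (v β) δ) ∧
      ∀ x, ∀ T : Finset (Fin L), (∀ β ∈ T, x ∈ tsupport fun x => ρ x β) → T.card ≤ c + 1 := by
  classical
  obtain ⟨I, U, v, col, ho, hcov, hb, hc, hdj⟩ := exists_colours hM hd hδ
  obtain ⟨t, ht⟩ := hM.elim_finite_subcover U ho hcov
  let e : Fin t.card → I := fun β => (t.equivFin.symm β).1
  have he : Injective e := Subtype.val_injective.comp t.equivFin.symm.injective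
  have hcov1 : M ⊆ ⋃ β, U (e β) := fun x hx => by
    obtain ⟨i, hi, hxi⟩ := Set.mem_iUnion₂.1 (ht hx)
    exact Set.mem_iUnion.2 ⟨t.equivFin ⟨i, hi⟩, by simpa [e] using hxi⟩
  obtain ⟨r, hr, hK⟩ := hM.exists_cthickening_subset_open
    (isOpen_iUnion fun β => ho (e β)) hcov1
  obtain ⟨f, hf⟩ := SmoothPartitionOfUnity.exists_isSubordinate (modelWithCornersSelf ℝ (Fin N → ℝ))
    (Metric.isClosed_cthickening (δ := r) (E := M)) (fun β => U (e β)) (fun β => ho _) hK
  refine ⟨t.card, fun x β => f β x, fun β => v (e β), ?_, ?_, fun β => (hf β).trans (hb _), ?_⟩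
  · exact contDiff_pi.2 fun β => (f β).contMDiff.contDiff
  · have h1 : Metric.thickening r M ∈ 𝓝ˢ M :=
      Metric.isOpen_thickening.mem_nhdsSet.2 (Metric.self_subset_thickening hr M)
    filter_upwards [h1] with x hx
    refine ⟨fun β => f.nonneg β x, ?_⟩
    rw [← finsum_eq_sum_of_fintype]
    exact f.sum_eq_one (Metric.thickening_subset_cthickening r M hx)
  · intro x T hT
    rw [← Finset.card_range (c + 1)]
    refine Finset.card_le_card_of_injOn (fun β => col (e β)) (fun β _ => ?_) ?_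
    · simpa using Nat.lt_succ_of_le (hc _)
    · intro β hβ γ hγ h
      exact he (hdj _ _ x h (hf β (hT β hβ)) (hf γ (hT γ hγ)))

end Pool.Agent.P.MP_878f14_gt.HT.Q
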