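import Mathlib

/-! Framed Haefliger structures on a subset `S` of a normed space: germs along `S × 0` of smooth
foliations of `S × ℝ ^ n` transverse to the fibres; null-homotopies; the suspension of the linear
action of the rotation group. -/

namespace Pool.Agent.P.MP_878f14_gt.HT.Q

open Filter Topology
open scoped ContDiff

noncomputable section

variable {V : Type} [NormedAddCommGroup V] [NormedSpace ℝ V] {n : ℕ}

/-- at every point `(t, 0)` of the zero section of `S × ℝ ^ n`, a germ of a relation between two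
points of the bundle -/
abbrev Fam (n : ℕ) (S : Set V) : Type :=
  ∀ t : S, Germ (𝓝 (((t, 0), (t, 0)) : (S × (Fin n → ℝ)) × (S × (Fin n → ℝ)))) Prop

/-- near every point of the zero section, `F` is the germ of the relation of lying in the same
fibre of a smooth map `φ` to `ℝ ^ n` that is a local diffeomorphism along the fibres of the bundle -/
def IsStr {S : Set V} (F : Fam n S) : Prop :=
  ∀ t₀ : S, ∃ φ : V × (Fin n → ℝ) → Fin n → ℝ,
    (∀ᶠ y in 𝓝 (t₀.1, (0 : Fin n → ℝ)), ContDiffAt ℝ ∞ φ y) ∧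
      Function.Bijective (fderiv ℝ (fun x => φ (t₀.1, x)) 0) ∧
        ∀ᶠ t in 𝓝 t₀, F t = ↑fun ab : (S × (Fin n → ℝ)) × (S × (Fin n → ℝ)) =>
          φ (ab.1.1.1, ab.1.2) = φ (ab.2.1.1, ab.2.2)

/-- the germs along the zero section of a relation on the bundle -/
def ofRel {S : Set V} (R : S × (Fin n → ℝ) → S × (Fin n → ℝ) → Prop) : Fam n S :=
  fun _ => ↑fun ab : (S × (Fin n → ℝ)) × (S × (Fin n → ℝ)) => R ab.1 ab.2

/-- the trivial structure, with the slices `S × {v}` as leaves -/
def triv (n : ℕ) (S : Set V) : Fam n S := ofRel fun a b => a.2 = b.2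

/-- the inclusion of the bundle over `S` as the bundle over `S × {c}` -/
def lev {S : Set V} (c : Set.Icc (0 : ℝ) 1) (y : S × (Fin n → ℝ)) :
    (S ×ˢ Set.Icc (0 : ℝ) 1 : Set (V × ℝ)) × (Fin n → ℝ) := (⟨(y.1.1, c.1), y.1.2, c.2⟩, y.2)

omit [NormedSpace ℝ V] in
theorem continuous_lev {S : Set V} (c : Set.Icc (0 : ℝ) 1) : Continuous (lev (n := n) (S := S) c) :=
  (((continuous_subtype_val.comp continuous_fst).prodMk continuous_const).subtype_mk _).prodMk
    continuous_snd

/-- restriction to `S × {c}` -/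
def level {S : Set V} (c : Set.Icc (0 : ℝ) 1)
    (G : Fam n (S ×ˢ Set.Icc (0 : ℝ) 1 : Set (V × ℝ))) : Fam n S := fun t =>
  (G ⟨(t.1, c.1), t.2, c.2⟩).compTendsto (Prod.map (lev c) (lev c))
    (((continuous_lev c).prodMap (continuous_lev c)).tendsto ((t, 0), (t, 0)))

/-- some structure on `S × [0, 1]` is trivial over `S × 0` and equal to `F` over `S × 1` -/
def NullHtp {S : Set V} (F : Fam n S) : Prop :=
  ∃ G : Fam n (S ×ˢ Set.Icc (0 : ℝ) 1 : Set (V × ℝ)),
    IsStr G ∧ level 0 G = triv n S ∧ level 1 G = F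

/-- the rotation group as a set of matrices -/
def SO (q : ℕ) : Set (Fin q → Fin q → ℝ) :=
  {g | Matrix.of g ∈ Matrix.specialOrthogonalGroup (Fin q) ℝ}

/-- the suspension of the linear action, with leaves `{(g, g v)}` -/
def susp (q : ℕ) : Fam q (SO q) :=
  ofRel fun a b => ∃ v, a.2 = (Matrix.of a.1.1).mulVec v ∧ b.2 = (Matrix.of b.1.1).mulVec v

end

end Pool.Agent.P.MP_878f14_gt.HT.Q
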