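import Pool.Agent.P.MP_878f14_gt.HT.Q.Two
import Pool.Agent.P.MP_878f14_gt.HT.Q.Conc

/-! Clutching. -/

namespace Pool.Agent.P.MP_878f14_gt.HT.Q

open Filter Topology Function Matrix
open scoped ContDiff

noncomputable section

/-- the suspension of left multiplication -/
def gH : Rw 5 H4 := kr (lin fun u => mm (Lm u))

theorem delta_sm_cont {W W' : Type} [NormedAddCommGroup W] [NormedSpace ℝ W]
    [NormedAddCommGroup W'] [NormedSpace ℝ W'] {f : W → W'} {w : W} (h : Sm f w) :
    ContinuousAt f w := (Filter.Eventually.self_of_nhds h).continuousAt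

theorem delta_isAt_gH {u : H4} (hu : u ≠ 0) : IsAt id gH u :=
  isAt_kr_lin (sm_of contDiff_Lm u) (by simpa using det_Lm_ne hu)

theorem delta_ne_of_ns {u : H4} (hu : 0 < ns u) : u ≠ 0 := fun h => by
  rw [ns_eq_zero.2 h] at hu
  exact lt_irrefl _ hu

/-- a null-concordance on a shell extends the suspension over the origin -/
theorem exists_B (h : Conc {u : H4 | 1 ≤ ns u ∧ ns u ≤ 4} hor gH) :
    ∃ B : Rw 5 H4, (∀ u, IsAt id B u) ∧ ∀ u, 3 ≤ ns u → B u = gH u := by
  classical
  obtain ⟨H, hH⟩ := h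
  have hH' : ∀ u : H4, 1 ≤ ns u → ns u ≤ 4 → CcAt H hor gH u := fun u h1 h2 =>
    hH.self_of_nhdsSet u ⟨h1, h2⟩
  have hns : Continuous ns := contDiff_ns.continuous
  let m : H4 → H4 × ℝ := fun u => (u, ns u - 2)
  have hm : ContDiff ℝ ∞ m := contDiff_id.prodMk (contDiff_ns.sub contDiff_const)
  have hmc : ∀ u, ContinuousAt m u := fun u => hm.continuous.continuousAt
  have ha : ∀ u : H4, 1 ≤ ns u → ns u ≤ 2 → pb m H u = hor u := by
    intro u h1 h2
    have e : H (m u) = pb Prod.fst (hor : Rw 5 H4) (m u) :=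
      (hH' u h1 (by linarith)).2.1 _ (by linarith)
    rw [pb_congr e, pb_pb (hmc u)]
    exact pb_hor (continuousAt_fst.comp (hmc u))
  have hb : ∀ u : H4, 3 ≤ ns u → ns u ≤ 4 → pb m H u = gH u := by
    intro u h1 h2
    have e : H (m u) = pb Prod.fst gH (m u) :=
      (hH' u (by linarith) h2).2.2 _ (by linarith)
    rw [pb_congr e, pb_pb (hmc u)]
    exact pb_id (F := gH) (x := u) inf_le_left
  have hc : ∀ u : H4, 1 ≤ ns u → ns u ≤ 4 → IsAt id (pb m H) u := fun u h1 h2 =>
    IsAt.pb (ι := id) (ι' := id) IsInducing.id continuous_id m (sm_of hm _)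
      (.of_forall fun _ => rfl) ((hH' u h1 h2).1 _)
  let B : Rw 5 H4 := fun u =>
    if ns u < 3 / 2 then hor u else if ns u < 7 / 2 then pb m H u else gH u
  have e1 : ∀ u : H4, ns u ≤ 2 → B u = hor u := by
    intro u hu
    by_cases h1 : ns u < 3 / 2
    · simp only [B, if_pos h1]
    · have h2 : ns u < 7 / 2 := by linarith
      simp only [B, if_neg h1, if_pos h2]
      exact ha u (by linarith) hu
  have e3 : ∀ u : H4, 3 ≤ ns u → B u = gH u := by
    intro u hu
    have h1 : ¬ ns u < 3 / 2 := by linarith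
    by_cases h2 : ns u < 7 / 2
    · simp only [B, if_neg h1, if_pos h2]
      exact hb u hu (by linarith)
    · simp only [B, if_neg h1, if_neg h2]
  have e2 : ∀ u : H4, 1 ≤ ns u → ns u ≤ 4 → B u = pb m H u := by
    intro u h1 h4
    by_cases h2 : ns u ≤ 2
    · rw [e1 u h2, ha u h1 h2]
    · by_cases h3 : 3 ≤ ns u
      · rw [e3 u h3, hb u h3 h4]
      · have h5 : ¬ ns u < 3 / 2 := by linarith
        have h6 : ns u < 7 / 2 := by linarith
        simp only [B, if_neg h5, if_pos h6]
  refine ⟨B, fun u => ?_, e3⟩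
  by_cases h1 : ns u < 2
  · refine (isAt_hor id u).congr ?_
    filter_upwards [(isOpen_lt hns continuous_const).mem_nhds h1] with x hx
    exact e1 x (le_of_lt hx)
  · by_cases h2 : ns u < 4
    · refine (hc u (by linarith) h2.le).congr ?_
      have h3 : (1 : ℝ) < ns u := by linarith
      filter_upwards [(isOpen_lt hns continuous_const).mem_nhds h2,
        (isOpen_lt continuous_const hns).mem_nhds h3] with x hx hx'
      exact e2 x (le_of_lt hx') (le_of_lt hx)
    · have h3 : (3 : ℝ) < ns u := by linarith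
      refine (delta_isAt_gH (delta_ne_of_ns (by linarith))).congr ?_
      filter_upwards [(isOpen_lt continuous_const hns).mem_nhds h3] with x hx
      exact e3 x (le_of_lt hx)

open Classical in
def del (B : Rw 5 H4) : Rw 5 B5 := fun b =>
  if a2 b < 4 * a1 b then pl uu (lin L1) B b else kr (lin L2) b

variable {B : Rw 5 H4}

theorem delta_rho_pos {b : B5} (h : 0 < a1 b + a2 b) : 0 < rho b := by
  simp only [a1, a2] at h
  linarith

theorem delta_del_eq (hB' : ∀ u, 3 ≤ ns u → B u = gH u) {b : B5} (h : 3 * a1 b < a2 b) :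
    del B b = kr (lin L2) b := by
  by_cases hc : a2 b < 4 * a1 b
  · have h1 : 0 < a1 b := by linarith
    have h2 := a2_nonneg b
    have hr : 0 < rho b := delta_rho_pos (by linarith)
    have h3 : 3 ≤ ns (uu b) := by
      rw [ns_uu h1.ne', le_div_iff₀ h1]
      exact h.le
    have ht : Tn uu (lin L1) b := tn_lin (delta_sm_cont (sm_uu h1)) (delta_sm_cont (sm_L1 hr))
    simp only [del, if_pos hc]
    rw [pl_congr (hB' _ h3), gH, pl_kr ht]
    refine kr_congr ?_
    have hev : ∀ᶠ y : B5 × E 5 in 𝓝 (b, 0), 0 < a1 y.1 :=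
      (isOpen_lt continuous_const (continuous_a1.comp continuous_fst)).mem_nhds h1
    filter_upwards [hev] with y hy
    simp only [Function.comp, bun, lin, of_mm]
    rw [Matrix.mulVec_mulVec, Lm_L1 hy.ne']
  · simp only [del, if_neg hc]

theorem isAt_del (hB : ∀ u, IsAt id B u) (hB' : ∀ u, 3 ≤ ns u → B u = gH u) {z : H4 × H4}
    (hz : z ≠ 0) {g : M5} (hg : (Matrix.of g).det ≠ 0) : IsAt id (del B) (pp z g) := by
  have hr : 0 < rho (pp z g) := rho_pp_pos hz g
  have h1 := a1_nonneg (pp z g)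
  have h2 := a2_nonneg (pp z g)
  by_cases hc : a2 (pp z g) < 4 * a1 (pp z g)
  · have h3 : 0 < a1 (pp z g) := by linarith
    have hz1 : z.1 ≠ 0 := delta_ne_of_ns (by rwa [a1_pp] at h3)
    have hd : (Matrix.of (L1 (pp z g))).det ≠ 0 := by
      rw [L1_pp hz, of_mm, Matrix.det_mul]
      exact mul_ne_zero (det_Lm_ne hz1) hg
    refine (IsAt.pl_lin (sm_uu h3) (sm_L1 hr) hd (hB _)).congr ?_
    filter_upwards [(isOpen_lt continuous_a2 (continuous_const.mul continuous_a1)).mem_nhds hc]
      with x hx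
    have hx' : a2 x < 4 * a1 x := hx
    simp only [del, if_pos hx']
  · have hs : 0 < a1 (pp z g) + a2 (pp z g) := by
      simp only [a1, a2]
      linarith
    have h3 : 3 * a1 (pp z g) < a2 (pp z g) := by
      rcases h1.eq_or_lt with h4 | h4
      · rw [← h4] at hs ⊢
        linarith
      · linarith
    have hz2 : z.2 ≠ 0 := delta_ne_of_ns (by rw [← a2_pp z g]; linarith)
    have hd : (Matrix.of (L2 (pp z g))).det ≠ 0 := by
      rw [L2_pp hz, of_mm, Matrix.det_mul]
      exact mul_ne_zero (det_Lm_ne hz2) hg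
    refine (isAt_kr_lin (sm_L2 hr) hd).congr ?_
    filter_upwards [(isOpen_lt (continuous_const.mul continuous_a1) continuous_a2).mem_nhds h3]
      with x hx
    exact delta_del_eq hB' hx

theorem delta_isOpen : IsOpen {g : M5 | ff g ≠ 0 ∧ (Matrix.of g).det ≠ 0} := by
  have hd : Continuous fun g : M5 => (Matrix.of g).det :=
    Continuous.matrix_det (A := fun g : M5 => Matrix.of g) continuous_id
  exact (isOpen_ne_fun contDiff_ff.continuous continuous_const).inter
    (isOpen_ne_fun hd continuous_const)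

theorem delta_cancel (A : Mx) {g : M5} (hg : (Matrix.of g).det ≠ 0) (v : E 5) :
    (A * Matrix.of g).mulVec ((Matrix.of (minv g)).mulVec v) = (A * Matrix.of (mm 1)).mulVec v := by
  rw [Matrix.mulVec_mulVec, minv, of_mm, of_mm, Matrix.mul_assoc,
    Matrix.mul_nonsing_inv _ (isUnit_iff_ne_zero.2 hg)]

theorem delta_contDiff_m1 : ContDiff ℝ ∞ fun z : H4 × H4 => pp z (mm 1) := by
  have h := contDiff_pp.comp
    ((contDiff_id (E := H4 × H4)).prodMk (contDiff_const (c := mm 1)))
  exact h

theorem del_equiv {g : M5} (hz : ff g ≠ 0) (hg : (Matrix.of g).det ≠ 0) :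
    pl pg (lin minv) (del B) g = pb (fun g => pp (ff g) (mm 1)) (del B) g := by
  have ht : Tn pg (lin minv) g :=
    tn_lin contDiff_pg.continuous.continuousAt (delta_sm_cont (sm_minv hg))
  have hm : ContinuousAt (fun g => pp (ff g) (mm 1)) g :=
    (delta_contDiff_m1.continuous.comp contDiff_ff.continuous).continuousAt
  have hev : ∀ᶠ y : M5 × E 5 in 𝓝 (g, 0), ff y.1 ≠ 0 ∧ (Matrix.of y.1).det ≠ 0 :=
    (delta_isOpen.preimage continuous_fst).mem_nhds ⟨hz, hg⟩
  by_cases hc : ns (ff g).2 < 4 * ns (ff g).1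
  · have e1 : del B (pg g) = pl uu (lin L1) B (pg g) := by
      have : a2 (pg g) < 4 * a1 (pg g) := by rwa [pg, a1_pp, a2_pp]
      simp only [del, if_pos this]
    have e2 : del B (pp (ff g) (mm 1)) = pl uu (lin L1) B (pp (ff g) (mm 1)) := by
      have : a2 (pp (ff g) (mm 1)) < 4 * a1 (pp (ff g) (mm 1)) := by rwa [a1_pp, a2_pp]
      simp only [del, if_pos this]
    rw [pl_congr e1, pl_pl ht, pb_congr (m := fun g => pp (ff g) (mm 1)) e2, pb,
      pl_pl (tn_snd hm)]
    refine pl_congr_map (.of_forall fun _ => rfl) ?_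
    filter_upwards [hev] with y hy
    simp only [Function.comp, bun, pg]
    rw [lin, lin, lin]
    simp only
    rw [L1_pp hy.1, L1_pp hy.1, of_mm, of_mm (Lm _ * _), delta_cancel _ hy.2]
  · have e1 : del B (pg g) = kr (lin L2) (pg g) := by
      have : ¬ a2 (pg g) < 4 * a1 (pg g) := by rwa [pg, a1_pp, a2_pp]
      simp only [del, if_neg this]
    have e2 : del B (pp (ff g) (mm 1)) = kr (lin L2) (pp (ff g) (mm 1)) := by
      have : ¬ a2 (pp (ff g) (mm 1)) < 4 * a1 (pp (ff g) (mm 1)) := by rwa [a1_pp, a2_pp]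
      simp only [del, if_neg this]
    rw [pl_congr e1, pl_kr ht, pb_congr (m := fun g => pp (ff g) (mm 1)) e2, pb_kr hm]
    refine kr_congr ?_
    filter_upwards [hev] with y hy
    simp only [Function.comp, bun, pg]
    rw [lin, lin, lin]
    simp only
    rw [L2_pp hy.1, L2_pp hy.1, of_mm, of_mm (Lm _ * _), delta_cancel _ hy.2]

end

end Pool.Agent.P.MP_878f14_gt.HT.Q
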