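import Pool.Agent.P.MP_878f14_gt.HT.Q.Raw

/-! A structure on a compact set extends to a neighbourhood. -/

namespace Pool.Agent.P.MP_878f14_gt.HT.Q

open Filter Topology Function
open scoped ContDiff

noncomputable section

variable {n : ℕ} {V : Type} [NormedAddCommGroup V] [NormedSpace ℝ V]

/-- a chart at `v` -/
def Ct (φ : V × E n → E n) (v : V) : Prop :=
  Sm φ (v, 0) ∧ Bijective (fderiv ℝ (fun x => φ (v, x)) 0)

theorem ext_bij {φ : V × E n → E n} {v : V} (h : Ct φ v) :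
    ∀ᶠ y : V × E n in 𝓝 (v, 0), Bijective (fderiv ℝ (fun x => φ (y.1, x)) y.2) := by
  have h1 : ∀ᶠ y : V × E n in 𝓝 (v, 0), fderiv ℝ (fun x => φ (y.1, x)) y.2 =
      (fderiv ℝ φ y).comp (ContinuousLinearMap.inr ℝ V (E n)) := h.1.mono fun y hy =>
    ((hy.differentiableAt (by simp)).hasFDerivAt.comp y.2 (hasFDerivAt_prodMk_right y.1 y.2)).fderiv
  have h2 : ContinuousAt (fun y => (fderiv ℝ φ y).comp (ContinuousLinearMap.inr ℝ V (E n)))
      (v, 0) := (h.1.self_of_nhds.continuousAt_fderiv (by simp)).clm_comp continuousAt_const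
  have h3 := h2.eventually (ContinuousLinearMap.isOpen_injective.mem_nhds
    (by simpa only [Set.mem_ofPred_eq, ← h1.self_of_nhds] using h.2.1))
  filter_upwards [h1, h3] with y a b
  rw [a]
  exact ⟨b, LinearMap.injective_iff_surjective.1 b⟩

theorem Ct.eventually {φ : V × E n → E n} {v : V} (h : Ct φ v) : ∀ᶠ v' in 𝓝 v, Ct φ v' :=
  ((Continuous.prodMk_left (0 : E n)).tendsto v).eventually (h.1.eventually_nhds.and (ext_bij h))

theorem ext_der {φ : V × E n → E n} {v : V} {x : E n} (h : ContDiffAt ℝ ∞ φ (v, x))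
    (b : Bijective (fderiv ℝ (fun x => φ (v, x)) x)) : ContDiffAt ℝ ∞ (fun x => φ (v, x)) x ∧
      ∃ L : E n ≃L[ℝ] E n, HasFDerivAt (fun x => φ (v, x)) (L : E n →L[ℝ] E n) x := by
  have h1 : ContDiffAt ℝ ∞ (fun x => φ (v, x)) x := h.comp x (contDiffAt_const.prodMk contDiffAt_id)
  exact ⟨h1, ContinuousLinearEquiv.ofBijective _ (LinearMap.ker_eq_bot.2 b.1)
    (LinearMap.range_eq_top.2 b.2), (h1.differentiableAt (by simp)).hasFDerivAt⟩

theorem ext_loc {φ : V × E n → E n} {v : V} (h : Ct φ v) :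
    ∃ g : OpenPartialHomeomorph (E n) (E n), (∀ x, g x = φ (v, x)) ∧ 0 ∈ g.source ∧
      Sm g.symm (g 0) := by
  obtain ⟨h1, L, h2⟩ := ext_der h.1.self_of_nhds h.2
  have h3 := h1.mem_toOpenPartialHomeomorph_source h2 (by simp)
  refine ⟨h1.toOpenPartialHomeomorph _ h2 (by simp), fun _ => rfl, h3, ?_⟩
  generalize hg : h1.toOpenPartialHomeomorph _ h2 (by simp) = g at h3
  have h4 : (g : E n → E n) = fun x => φ (v, x) := hg ▸ rfl
  filter_upwards [(g.tendsto_symm h3).eventually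
    (((Continuous.prodMk_right v).tendsto 0).eventually (h.1.and (ext_bij h))),
    g.open_target.mem_nhds (g.map_source h3)] with y a b
  obtain ⟨c, L', d⟩ := ext_der a.1 a.2
  exact g.contDiffAt_symm b (h4 ▸ d) (h4 ▸ c)

/-- a chart can be normalised along one fibre -/
theorem Ct.normalise {φ ψ : V × E n → E n} {v : V} (hφ : Ct φ v) (hψ : Ct ψ v) :
    ∃ χ : V × E n → E n, Ct χ v ∧ kr χ v = kr ψ v ∧ ∀ᶠ x in 𝓝 (0 : E n), χ (v, x) = φ (v, x) := by
  obtain ⟨g, a1, a2, a3⟩ := ext_loc hψ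
  obtain ⟨g', b1, b2, -⟩ := ext_loc hφ
  have c1 : Tendsto ψ (𝓝 (v, 0)) (𝓝 (g 0)) := a1 0 ▸ hψ.1.self_of_nhds.continuousAt
  have c2 := (g.tendsto_symm a2).comp c1
  have c3 : ∀ᶠ x in 𝓝 (0 : E n), φ (v, g.symm (ψ (v, x))) = φ (v, x) := by
    filter_upwards [g.open_source.mem_nhds a2] with x hx
    rw [← a1, g.left_inv hx]
  refine ⟨fun y => φ (v, g.symm (ψ y)), ⟨?_, ?_⟩, rel_eq_iff.2 ?_, c3⟩
  · filter_upwards [hψ.1, c1.eventually a3,
      c2.eventually (((Continuous.prodMk_right v).tendsto 0).eventually hφ.1)] with y d1 d2 d3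
    exact d3.comp y (contDiffAt_const.prodMk (d2.comp y d1))
  · rw [EventuallyEq.fderiv_eq c3]
    exact hφ.2
  · have c4 := (c1.eventually (g.open_target.mem_nhds (g.map_source a2))).and
      (c2.eventually (g'.open_source.mem_nhds b2))
    filter_upwards [c4.prod_nhds c4] with ab d
    exact ⟨fun e => g.symm.injOn d.1.1 d.2.1 (g'.injOn d.1.2 d.2.2
      ((b1 _).trans (e.trans (b1 _).symm))), fun e => congrArg (fun z => φ (v, g.symm z)) e⟩

/-- two charts of the same structure on `X` that agree along one fibre agree -/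
theorem Ct.unique {X : Type} [TopologicalSpace X] {ι : X → V} (hι : Continuous ι)
    {φ ψ : V × E n → E n} {t : X} (hψ : Ct ψ (ι t))
    (e : kr (fun y => φ (ι y.1, y.2)) t = kr (fun y => ψ (ι y.1, y.2)) t)
    (h : ∀ᶠ x in 𝓝 (0 : E n), φ (ι t, x) = ψ (ι t, x)) :
    ∀ᶠ y : X × E n in 𝓝 (t, 0), φ (ι y.1, y.2) = ψ (ι y.1, y.2) := by
  obtain ⟨g, a1, a2, -⟩ := ext_loc hψ
  have c1 : Tendsto (fun y : X × E n => ψ (ι y.1, y.2)) (𝓝 (t, 0)) (𝓝 (g 0)) :=
    a1 0 ▸ hψ.1.self_of_nhds.continuousAt.tendsto.comp ((hι.prodMap continuous_id).tendsto (t, 0))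
  have c2 := (g.tendsto_symm a2).comp c1
  have c3 : Tendsto (fun y : X × E n => (y, (t, g.symm (ψ (ι y.1, y.2))))) (𝓝 (t, 0)) (nb n t) :=
    tendsto_id.prodMk_nhds (tendsto_const_nhds.prodMk_nhds c2)
  filter_upwards [c3.eventually (rel_eq_iff.1 e), c2.eventually h,
    c1.eventually (g.open_target.mem_nhds (g.map_source a2))] with y d1 d2 d3
  have d4 : ψ (ι y.1, y.2) = ψ (ι t, g.symm (ψ (ι y.1, y.2))) := by
    rw [← a1, g.right_inv d3]
  exact (d1.2 d4).trans (d2.trans d4.symm)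

end

end Pool.Agent.P.MP_878f14_gt.HT.Q
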