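import Pool.Agent.P.MP_878f14_gt.HT.Q.Ext

/-! A structure on a compact set extends to a neighbourhood. -/

namespace Pool.Agent.P.MP_878f14_gt.HT.Q

open Filter Topology Function
open scoped ContDiff

noncomputable section

variable {n : ℕ} {V : Type} [NormedAddCommGroup V] [NormedSpace ℝ V] [FiniteDimensional ℝ V]
  {S : Set V} {F : Rw n S}

/-- `G` extends `F` at `t` -/
def Ex (F : Rw n S) (G : Rw n V) (t : S) : Prop := IsAt id G t.1 ∧ F t = pb Subtype.val G t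

/-- two germs along compact sets that agree on the intersection come from one map -/
theorem ext2_glue {Y β : Type} [TopologicalSpace Y] [T2Space Y] {A B : Set Y} (hA : IsCompact A)
    (hB : IsCompact B) (f g : Y → β) (h : ∀ y ∈ A, y ∈ B → f =ᶠ[𝓝 y] g) :
    ∃ k : Y → β, (∀ y ∈ A, k =ᶠ[𝓝 y] f) ∧ ∀ y ∈ B, k =ᶠ[𝓝 y] g := by
  classical
  have hO : IsOpen {y | f =ᶠ[𝓝 y] g} := isOpen_setOfPred_eventually_nhds
  obtain ⟨U, U', h1, h2, h3, h4, h5⟩ := SeparatedNhds.of_isCompact_isCompact hA (hB.diff hO)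
    (Set.disjoint_left.2 fun y a b => b.2 (h y a b.1))
  refine ⟨fun y => if y ∈ U then f y else g y, fun y hy => ?_, fun y hy => ?_⟩
  · filter_upwards [h1.mem_nhds (h3 hy)] with z hz using if_pos hz
  · by_cases c : f =ᶠ[𝓝 y] g
    · filter_upwards [c] with z hz
      rw [hz, ite_self]
    · filter_upwards [h2.mem_nhds (h4 ⟨hy, c⟩)] with z hz
      exact if_neg fun d => Set.disjoint_left.1 h5 d hz

/-- induction over small compact pieces -/
theorem ext2_ind {Y : Type} [TopologicalSpace Y] [RegularSpace Y] {C : Set Y} (hC : IsCompact C)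
    (Q R : Set Y → Prop) (h0 : Q ∅) (hl : ∀ y ∈ C, ∃ N ∈ 𝓝 y, ∀ K ⊆ N ∩ C, R K)
    (hs : ∀ A K, IsCompact A → IsCompact K → A ⊆ C → K ⊆ C → Q A → R K → Q (A ∪ K)) : Q C := by
  classical
  have h1 : ∀ y, ∃ D, y ∈ C → D ∈ 𝓝 y ∧ IsClosed D ∧ R (D ∩ C) := fun y => by
    by_cases hy : y ∈ C
    · obtain ⟨N, a1, a2⟩ := hl y hy
      obtain ⟨D, b1, b2, b3⟩ := exists_mem_nhds_isClosed_subset a1
      exact ⟨D, fun _ => ⟨b1, b2, a2 _ (Set.inter_subset_inter_left _ b3)⟩⟩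
    · exact ⟨∅, fun a => (hy a).elim⟩
  choose D hD using h1
  obtain ⟨s, s1, s2⟩ := hC.elim_nhds_subcover D fun y hy => (hD y hy).1
  have key : ∀ s : Finset Y, (∀ y ∈ s, y ∈ C) →
      IsCompact (⋃ y ∈ s, D y ∩ C) ∧ Q (⋃ y ∈ s, D y ∩ C) := fun s => by
    induction s using Finset.induction_on with
    | empty => simpa using h0
    | insert y s _ ih =>
      intro h
      have a := ih fun z hz => h z (Finset.mem_insert_of_mem hz)
      have b := hD y (h y (Finset.mem_insert_self y s))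
      have c := hC.inter_left b.2.1
      rw [Finset.set_biUnion_insert, Set.union_comm]
      exact ⟨a.1.union c, hs _ _ a.1 c (Set.iUnion₂_subset fun _ _ => Set.inter_subset_right)
        Set.inter_subset_right a.2 b.2.2⟩
  have e : (⋃ y ∈ s, D y ∩ C) = C := by
    rw [← Set.iUnion₂_inter]
    exact Set.inter_eq_right.2 s2
  exact e ▸ (key s s1).2

omit [NormedSpace ℝ V] [FiniteDimensional ℝ V] in
theorem ext2_fib (v : V) : Tendsto (fun x : E n => (v, x)) (𝓝 0) (𝓝 (v, 0)) :=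
  (continuous_const.prodMk continuous_id).tendsto 0

omit [NormedSpace ℝ V] [FiniteDimensional ℝ V] in
theorem ext2_fibS (t : S) : Tendsto (fun x : E n => (t, x)) (𝓝 0) (𝓝 (t, 0)) :=
  (continuous_const.prodMk continuous_id).tendsto 0

omit [NormedSpace ℝ V] [FiniteDimensional ℝ V] in
theorem ext2_inc (t : S) :
    Tendsto (fun y : S × E n => (y.1.1, y.2)) (𝓝 (t, 0)) (𝓝 (t.1, 0)) :=
  ((continuous_subtype_val.comp continuous_fst).prodMk continuous_snd).tendsto (t, 0)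

omit [FiniteDimensional ℝ V] in
theorem ext2_ct {φ ψ : V × E n → E n} {v : V} (h : Ct φ v) (h1 : Sm ψ (v, 0))
    (e : ∀ᶠ x in 𝓝 (0 : E n), ψ (v, x) = φ (v, x)) : Ct ψ v :=
  ⟨h1, by rw [EventuallyEq.fderiv_eq e]; exact h.2⟩

omit [FiniteDimensional ℝ V] in
theorem ext2_sm {φ ψ : V × E n → E n} {y : V × E n} (h : Sm φ y) (e : ψ =ᶠ[𝓝 y] φ) : Sm ψ y := by
  filter_upwards [h, e.eventuallyEq_nhds] with z a b using a.congr_of_eventuallyEq b

omit [FiniteDimensional ℝ V] in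
theorem ext2_isAt {φ : V × E n → E n} {v : V} (h : Ct φ v) : IsAt id (kr φ) v :=
  ⟨φ, h.1, h.2, .of_forall fun _ => rfl⟩

omit [FiniteDimensional ℝ V] in
theorem Ex.ext2_congr {G G' : Rw n V} {t : S} (h : Ex F G t) (e : G' =ᶠ[𝓝 t.1] G) : Ex F G' t :=
  ⟨h.1.congr e, h.2.trans (pb_congr e.self_of_nhds).symm⟩

/-- `χ` is a chart of `G` at `v` that agrees with `φ` over `S` -/
def Ext2P (S : Set V) (G : Rw n V) (φ χ : V × E n → E n) (v : V) : Prop :=
  Ct χ v ∧ G v = kr χ v ∧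
    ∀ t : S, t.1 = v → ∀ᶠ y : S × E n in 𝓝 (t, 0), χ (y.1.1, y.2) = φ (y.1.1, y.2)

section

variable {G : Rw n V} {φ χ χ' : V × E n → E n}

omit [FiniteDimensional ℝ V] in
theorem Ext2P.congr {v : V} (h : Ext2P S G φ χ v) (e : χ' =ᶠ[𝓝 (v, 0)] χ) : Ext2P S G φ χ' v := by
  refine ⟨ext2_ct h.1 (ext2_sm h.1.1 e) ((ext2_fib v).eventually e),
    h.2.1.trans (kr_congr e).symm, fun t ht => ?_⟩
  subst ht
  filter_upwards [h.2.2 t rfl, (ext2_inc t).eventually e] with y a b using b.trans a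

omit [FiniteDimensional ℝ V] in
theorem Ext2P.fib {t : S} (h : Ext2P S G φ χ t.1) : ∀ᶠ x in 𝓝 (0 : E n), χ (t.1, x) = φ (t.1, x) :=
  (ext2_fibS t).eventually (h.2.2 t rfl)

omit [FiniteDimensional ℝ V] in
theorem Ext2P.uniq {t : S} (h : Ext2P S G φ χ t.1) (h' : Ext2P S G φ χ' t.1) :
    χ =ᶠ[𝓝 (t.1, 0)] χ' :=
  Ct.unique (ι := id) (φ := χ) continuous_id h'.1 (h.2.1.symm.trans h'.2.1)
    (by filter_upwards [h.fib, h'.fib] with x a b using a.trans b.symm)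

omit [FiniteDimensional ℝ V] in
theorem Ext2P.eventually {t : S} (h : Ext2P S G φ χ t.1) (hG : IsAt id G t.1) :
    ∀ᶠ v in 𝓝 t.1, Ext2P S G φ χ v := by
  have h1 : Tendsto (fun s : S => (s, (0 : E n))) (𝓝 t) (𝓝 (t, 0)) :=
    (continuous_id.prodMk continuous_const).tendsto t
  have h2 := h1.eventually (h.2.2 t rfl).eventually_nhds
  rw [nhds_subtype_eq_comap, eventually_comap] at h2
  exact h.1.eventually.and ((hG.eventually_eq (ext2_isAt h.1) h.2.1).and h2)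

omit [FiniteDimensional ℝ V] in
theorem ext2_loc {t : S} (hG : Ex F G t) (h : Ct φ t.1)
    (e : F t = kr (fun y => φ (y.1.1, y.2)) t) : ∃ χ, Ext2P S G φ χ t.1 := by
  obtain ⟨ψ, a1, a2, a3⟩ := hG.1
  obtain ⟨χ, b1, b2, b3⟩ := h.normalise (ψ := ψ) ⟨a1, a2⟩
  have c : G t.1 = kr χ t.1 := a3.self_of_nhds.trans b2.symm
  refine ⟨χ, b1, c, fun s hs => ?_⟩
  rw [Subtype.ext hs]
  refine Ct.unique continuous_subtype_val h ?_ b3
  rw [← e, hG.2, pb_congr c, pb_kr continuous_subtype_val.continuousAt]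

omit [FiniteDimensional ℝ V] in
theorem ext2_chart {C : Set S} (hC : IsCompact C) (hG : ∀ t ∈ C, Ex F G t)
    (hφ : ∀ t ∈ C, Ct φ t.1 ∧ F t = kr (fun y => φ (y.1.1, y.2)) t) :
    ∃ χ, ∀ t ∈ C, Ext2P S G φ χ t.1 := by
  refine ext2_ind hC (fun T => ∃ χ, ∀ t ∈ T, Ext2P S G φ χ t.1)
    (fun T => ∃ χ, ∀ t ∈ T, Ext2P S G φ χ t.1) ⟨φ, fun _ h => h.elim⟩ (fun t ht => ?_) ?_
  · obtain ⟨χ, h⟩ := ext2_loc (hG t ht) (hφ t ht).1 (hφ t ht).2
    exact ⟨_, continuous_subtype_val.continuousAt.eventually (h.eventually (hG t ht).1),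
      fun K hK => ⟨χ, fun s hs => (hK hs).1⟩⟩
  · rintro A K hA hK - - ⟨χ, h⟩ ⟨χ', h'⟩
    have c : Continuous fun t : S => (t.1, (0 : E n)) :=
      continuous_subtype_val.prodMk continuous_const
    obtain ⟨k, k1, k2⟩ := ext2_glue (hA.image c) (hK.image c) χ χ' (by
      rintro _ ⟨t, ht, rfl⟩ ⟨s, hs, e⟩
      have : s = t := Subtype.ext (congrArg Prod.fst e)
      exact (h t ht).uniq (h' t (this ▸ hs)))
    exact ⟨k, fun t ht => ht.elim (fun a => (h t a).congr (k1 _ ⟨t, a, rfl⟩))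
      fun a => (h' t a).congr (k2 _ ⟨t, a, rfl⟩)⟩

end

theorem ext_step (hF : ∀ t, IsAt Subtype.val F t) {A K : Set S} (hA : IsCompact A)
    (hK : IsCompact K) {G : Rw n V} (hG : ∀ t ∈ A, Ex F G t) {φ : V × E n → E n}
    (hφ : ∀ t ∈ K, Ct φ t.1 ∧ F t = kr (fun y => φ (y.1.1, y.2)) t) :
    ∃ G' : Rw n V, ∀ t ∈ A ∪ K, Ex F G' t := by
  have _ := hF
  obtain ⟨χ, hχ⟩ := ext2_chart (hA.inter hK) (fun t ht => hG t ht.1) fun t ht => hφ t ht.2
  have hO : IsOpen {v | ∀ᶠ v' in 𝓝 v, Ext2P S G φ χ v'} := isOpen_setOfPred_eventually_nhds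
  obtain ⟨f, f0, f1, -⟩ := exists_contMDiffMap_zero_one_nhds_of_isClosed (n := ⊤)
    (modelWithCornersSelf ℝ V) hO.isClosed_compl
    ((hA.inter hK).image continuous_subtype_val).isClosed (Set.disjoint_left.2 (by
      rintro _ a ⟨t, ht, rfl⟩
      exact a ((hχ t ht).eventually (hG t ht.1).1)))
  have fs : ContDiff ℝ ∞ f := f.contMDiff.contDiff
  rw [eventually_nhdsSet_iff_forall] at f0 f1
  let ψ : V × E n → E n := fun y => φ y + f y.1 • (χ y - φ y)
  have key : ∀ t ∈ K, Ex F (kr ψ) t := fun t ht => by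
    have a : Sm ψ (t.1, 0) ∧ ∀ᶠ y : S × E n in 𝓝 (t, 0), ψ (y.1.1, y.2) = φ (y.1.1, y.2) := by
      by_cases c : ∀ᶠ v' in 𝓝 t.1, Ext2P S G φ χ v'
      · have d := c.self_of_nhds
        constructor
        · filter_upwards [d.1.1, (hφ t ht).1.1] with y a b
          exact b.add ((fs.comp contDiff_fst).contDiffAt.smul (a.sub b))
        · filter_upwards [d.2.2 t rfl] with y a
          simp only [ψ, a, sub_self, smul_zero, add_zero]
      · have d : ψ =ᶠ[𝓝 (t.1, 0)] φ := by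
          filter_upwards [(continuous_fst.tendsto (t.1, (0 : E n))).eventually (f0 _ c)] with y a
          simp only [ψ, a, zero_smul, add_zero]
        exact ⟨ext2_sm (hφ t ht).1.1 d, (ext2_inc t).eventually d⟩
    refine ⟨ext2_isAt (ext2_ct (hφ t ht).1 a.1 ((ext2_fibS t).eventually a.2)), ?_⟩
    rw [(hφ t ht).2, pb_kr continuous_subtype_val.continuousAt]
    exact (kr_congr a.2).symm
  obtain ⟨G', g1, g2⟩ := ext2_glue (hA.image continuous_subtype_val)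
    (hK.image continuous_subtype_val) G (kr ψ) (by
      rintro _ ⟨t, ht, rfl⟩ ⟨s, hs, e⟩
      have ht' : t ∈ A ∩ K := ⟨ht, Subtype.ext e ▸ hs⟩
      filter_upwards [(hχ t ht').eventually (hG t ht).1, (f1 _ ⟨t, ht', rfl⟩).eventually_nhds]
        with v a b
      refine a.2.1.trans (kr_congr ?_)
      filter_upwards [(continuous_fst.tendsto (v, (0 : E n))).eventually b] with y c
      simp only [ψ, c, one_smul, add_sub_cancel])
  exact ⟨G', fun t ht => ht.elim (fun a => (hG t a).ext2_congr (g1 _ ⟨t, a, rfl⟩))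
    fun a => (key t a).ext2_congr (g2 _ ⟨t, a, rfl⟩)⟩

theorem exists_ext (hS : IsCompact S) (hF : ∀ t, IsAt Subtype.val F t) :
    ∃ G : Rw n V, ∀ t, Ex F G t := by
  have : CompactSpace S := isCompact_iff_compactSpace.1 hS
  obtain ⟨G, hG⟩ := ext2_ind (isCompact_univ (X := S)) (fun T => ∃ G : Rw n V, ∀ t ∈ T, Ex F G t)
    (fun K => ∃ φ : V × E n → E n, ∀ t ∈ K, Ct φ t.1 ∧ F t = kr (fun y => φ (y.1.1, y.2)) t)
    ⟨hor, fun _ h => h.elim⟩ (fun t _ => by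
      obtain ⟨φ, a1, a2, a3⟩ := hF t
      exact ⟨_, (continuous_subtype_val.continuousAt.eventually (Ct.eventually ⟨a1, a2⟩)).and a3,
        fun K hK => ⟨φ, fun s hs => (hK hs).1⟩⟩)
    (fun A K hA hK _ _ ⟨G, hG⟩ ⟨φ, hφ⟩ => ext_step hF hA hK hG hφ)
  exact ⟨G, fun t => hG t trivial⟩

end

end Pool.Agent.P.MP_878f14_gt.HT.Q
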