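import Pool.Agent.P.MP_878f14_gt.HT.Q.Conc
import Pool.Agent.P.MP_878f14_gt.HT.Q.Defs

/-! Germs and filters. -/

namespace Pool.Agent.P.MP_878f14_gt.HT.Q

open Filter Topology Function
open scoped ContDiff

noncomputable section

/-- the filter of a germ of a predicate -/
def gf {α : Type} {l : Filter α} (g : Germ l Prop) : Filter α :=
  g.liftOn (fun R => l ⊓ 𝓟 {a | R a}) fun R R' h => by
    ext U
    simp only [mem_inf_principal]
    exact eventually_congr (h.mono fun a ha => by simp only [Set.mem_setOf_eq, ha])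

theorem gf_coe {α : Type} {l : Filter α} (R : α → Prop) :
    gf (R : Germ l Prop) = l ⊓ 𝓟 {a | R a} := rfl

theorem gf_injective {α : Type} {l : Filter α} : Injective (gf : Germ l Prop → Filter α) := by
  intro g g'
  induction g using Germ.inductionOn with | h R => ?_
  induction g' using Germ.inductionOn with | h R' => ?_
  intro h
  rw [gf_coe, gf_coe] at h
  have h1 : {a | R' a} ∈ l ⊓ 𝓟 {a | R a} := h ▸ mem_inf_of_right (mem_principal_self _)
  have h2 : {a | R a} ∈ l ⊓ 𝓟 {a | R' a} := h ▸ mem_inf_of_right (mem_principal_self _)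
  rw [mem_inf_principal] at h1 h2
  refine Germ.coe_eq.2 ?_
  filter_upwards [h1, h2] with a a1 a2
  exact propext ⟨a1, a2⟩

theorem gf_compTendsto {α β : Type} {l : Filter α} {l' : Filter β} (g : Germ l Prop) (f : β → α)
    (hf : Tendsto f l' l) : gf (g.compTendsto f hf) = l' ⊓ comap f (gf g) := by
  induction g using Germ.inductionOn with | h R => ?_
  rw [Germ.coe_compTendsto, gf_coe, gf_coe, comap_inf, comap_principal, ← inf_assoc,
    inf_eq_left.2 hf.le_comap]
  rfl

variable {V : Type} [NormedAddCommGroup V] [NormedSpace ℝ V] {n : ℕ} {S : Set V}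

/-- a family of germs as a family of filters -/
def toR (F : Fam n S) : Rw n S := fun t => gf (F t)

omit [NormedSpace ℝ V] in
theorem toR_injective : Injective (toR : Fam n S → Rw n S) :=
  fun _ _ h => funext fun t => gf_injective (congrFun h t)

theorem isStr_iff {F : Fam n S} : IsStr F ↔ ∀ t, IsAt Subtype.val (toR F) t := by
  refine forall_congr' fun t => exists_congr fun φ => and_congr Iff.rfl (and_congr Iff.rfl ?_)
  refine eventually_congr (.of_forall fun s => ?_)
  exact gf_injective.eq_iff.symm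

theorem exists_toR {G : Rw n S} (h : ∀ t, IsAt Subtype.val G t) : ∃ F : Fam n S, toR F = G := by
  choose φ _ _ h3 using h
  exact ⟨fun t => ↑fun ab : (S × (Fin n → ℝ)) × (S × (Fin n → ℝ)) =>
    φ t (ab.1.1.1, ab.1.2) = φ t (ab.2.1.1, ab.2.2), funext fun t => (h3 t).self_of_nhds.symm⟩

omit [NormedSpace ℝ V] in
theorem toR_triv : toR (triv n S) = hor := rfl

omit [NormedSpace ℝ V] in
theorem Germ_toR_level (c : Set.Icc (0 : ℝ) 1) (G : Fam n (S ×ˢ Set.Icc (0 : ℝ) 1 : Set (V × ℝ)))
    (t : S) : toR (level c G) t =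
      pb (fun t : S => (⟨(t.1, c.1), t.2, c.2⟩ : (S ×ˢ Set.Icc (0 : ℝ) 1 : Set (V × ℝ))))
        (toR G) t :=
  gf_compTendsto _ _ _

/-- a concordance near `S` gives a null-homotopy -/
theorem nullHtp_of_conc {F : Fam n S} {G : Rw n V} (h : Conc S hor G)
    (e : ∀ t, toR F t = pb Subtype.val G t) : NullHtp F := by
  obtain ⟨H, hH⟩ := h
  have hc : ∀ x ∈ S, CcAt H hor G x := fun x hx => hH.self_of_nhdsSet x hx
  have hs : ∀ t : (S ×ˢ Set.Icc (0 : ℝ) 1 : Set (V × ℝ)),
      IsAt Subtype.val (pb Subtype.val H) t := fun t =>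
    IsAt.pb (ι := id) IsInducing.id continuous_subtype_val id (sm_of contDiff_id _)
      (.of_forall fun _ => rfl) ((hc t.1.1 t.2.1).1 t.1.2)
  obtain ⟨K, hK⟩ := exists_toR hs
  have hl : ∀ (c : Set.Icc (0 : ℝ) 1) (t : S) (L : Rw n V),
      H (t.1, c.1) = pb Prod.fst L (t.1, c.1) → toR (level c K) t = pb Subtype.val L t := by
    intro c t L hL
    have c1 : Continuous fun t : S => ((t.1, c.1) : V × ℝ) :=
      continuous_subtype_val.prodMk continuous_const
    rw [Germ_toR_level, hK, pb_pb (c1.subtype_mk _).continuousAt]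
    exact (pb_congr (m := fun t : S => ((t.1, c.1) : V × ℝ)) hL).trans (pb_pb c1.continuousAt _ _)
  refine ⟨K, isStr_iff.2 (hK ▸ hs), toR_injective (funext fun t => ?_),
    toR_injective (funext fun t => ?_)⟩
  · rw [hl 0 t hor ((hc t.1 t.2).2.1 _ le_rfl), toR_triv,
      pb_hor continuous_subtype_val.continuousAt]
  · rw [hl 1 t G ((hc t.1 t.2).2.2 _ le_rfl), e]

end

end Pool.Agent.P.MP_878f14_gt.HT.Q
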