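import Mathlib

/-! Pointed reduced semi-simplicial sets with faces indexed by natural numbers. -/

namespace Pool.Agent.P.MP_878f14_gt.HT.Q

/-- `X p` is the set of `p`-simplices, `z p` the trivial one -/
structure SK where
  X : ℕ → Type
  d : ∀ {p : ℕ}, ℕ → X (p + 1) → X p
  dd : ∀ {p : ℕ} (x : X (p + 2)) {a b : ℕ}, a ≤ b → b ≤ p + 1 → d a (d (b + 1) x) = d b (d a x)
  z : ∀ p, X p
  dz : ∀ p a, d a (z (p + 1)) = z p
  uniq : ∀ x : X 0, x = z 0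

namespace SK

variable (S : SK)

/-- the members of the family with index in `A` are compatible as faces of a simplex -/
def Cp {p : ℕ} (A : ℕ → Prop) (s : ℕ → S.X (p + 1)) : Prop :=
  ∀ a b, a ≤ b → b ≤ p + 1 → A a → A (b + 1) → S.d a (s (b + 1)) = S.d b (s a)

/-- a compatible boundary in any dimension -/
def Cq : ∀ p : ℕ, (ℕ → S.X p) → Prop
  | 0, _ => True
  | _ + 1, s => S.Cp (fun _ => True) s

def Kan (p : ℕ) : Prop :=
  ∀ i ≤ p + 2, ∀ s : ℕ → S.X (p + 1), S.Cp (· ≠ i) s →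
    ∃ w : S.X (p + 2), ∀ a ≤ p + 2, a ≠ i → S.d a w = s a

def Fill (p : ℕ) : Prop :=
  ∀ s : ℕ → S.X (p + 1), S.Cp (fun _ => True) s → ∃ w : S.X (p + 2), ∀ a ≤ p + 2, S.d a w = s a

/-- degeneracies of the simplices with trivial boundary -/
def Deg (p : ℕ) : Prop :=
  ∀ x : S.X (p + 1), (∀ a ≤ p + 1, S.d a x = S.z p) → ∀ i ≤ p + 1,
    ∃ w : S.X (p + 2), ∀ a ≤ p + 2, S.d a w = if a = i ∨ a = i + 1 then x else S.z (p + 1)

/-- trivial edge path group -/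
def Edge : Prop :=
  ∀ (G : Type) [Group G] (f : S.X 1 → G),
    (∀ w : S.X 2, f (S.d 1 w) = f (S.d 2 w) * f (S.d 0 w)) → ∀ e, f e = 1

/-- a cocycle takes the same value on simplices with the same boundary -/
def Coc (p : ℕ) : Prop :=
  ∀ (A : Type) [AddCommGroup A] (f : S.X (p + 1) → A),
    (∀ w : S.X (p + 2), ∑ a ∈ Finset.range (p + 3), (-1 : ℤ) ^ a • f (S.d a w) = 0) →
      ∀ σ τ, (∀ a ≤ p + 1, S.d a σ = S.d a τ) → f σ = f τ

/-- a homotopy in the dimensions up to `N`: prism simplices `h` and their diagonals `δ` -/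
structure Prism (N : ℕ) (h : ∀ p, ℕ → S.X p → S.X (p + 1)) (δ : ∀ p, ℕ → S.X p → S.X p) :
    Prop where
  zero : ∀ p ≤ N, ∀ x, δ p 0 x = x
  lo : ∀ p ≤ N, ∀ i ≤ p, ∀ x, S.d i (h p i x) = δ p i x
  hi : ∀ p ≤ N, ∀ i ≤ p, ∀ x, S.d (i + 1) (h p i x) = δ p (i + 1) x
  lt : ∀ p, p + 1 ≤ N → ∀ i ≤ p + 1, ∀ l < i, ∀ x,
    S.d l (h (p + 1) i x) = h p (i - 1) (S.d l x)
  gt : ∀ p, p + 1 ≤ N → ∀ i l, i + 1 < l → l ≤ p + 2 → ∀ x,
    S.d l (h (p + 1) i x) = h p i (S.d (l - 1) x)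
  diag : ∀ p, p + 1 ≤ N → ∀ i ≤ p + 2, ∀ l ≤ p + 1, ∀ x,
    S.d l (δ (p + 1) i x) = if l < i then δ p (i - 1) (S.d l x) else δ p i (S.d l x)
  hz : ∀ p ≤ N, ∀ i, h p i (S.z p) = S.z (p + 1)

/-- the faces of the `i`-th diagonal over the boundary `s` -/
def Diag {p : ℕ} (δ : ℕ → S.X p → S.X p) (s : ℕ → S.X p) (i : ℕ) (u : S.X (p + 1)) : Prop :=
  ∀ l ≤ p + 1, S.d l u = if l < i then δ (i - 1) (s l) else δ i (s l)

/-- the side faces of the `i`-th prism simplex over the boundary `s` -/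
def Side {p : ℕ} (h : ℕ → S.X p → S.X (p + 1)) (s : ℕ → S.X p) (i : ℕ) (w : S.X (p + 2)) : Prop :=
  ∀ l ≤ p + 2, (l < i → S.d l w = h (i - 1) (s l)) ∧ (i + 1 < l → S.d l w = h i (s (l - 1)))

/-- a natural self-map fixing the trivial simplices -/
structure Op where
  κ : ∀ p, S.X p → S.X p
  dκ : ∀ p a (x : S.X (p + 1)), S.d a (κ _ x) = κ p (S.d a x)
  κz : ∀ p, κ p (S.z p) = S.z p

variable {S}

def WKan (k : S.Op) (p : ℕ) : Prop :=
  ∀ i ≤ p + 2, ∀ s : ℕ → S.X (p + 1), S.Cp (· ≠ i) s →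
    ∃ w : S.X (p + 2), ∀ a ≤ p + 2, a ≠ i → S.d a w = k.κ _ (s a)

def WFill (k : S.Op) (p : ℕ) : Prop :=
  ∀ s : ℕ → S.X (p + 1), S.Cp (fun _ => True) s →
    ∃ (m : ℕ) (w : S.X (p + 2)), ∀ a ≤ p + 2, S.d a w = (k.κ _)^[m] (s a)

theorem Op.d_iter (k : S.Op) (p a m : ℕ) (x : S.X (p + 1)) :
    S.d a ((k.κ _)^[m] x) = (k.κ p)^[m] (S.d a x) := by
  induction m with
  | zero => rfl
  | succ m ih => rw [Function.iterate_succ_apply', Function.iterate_succ_apply', k.dκ, ih]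

theorem cq_d {p : ℕ} (x : S.X (p + 1)) : S.Cq p fun l => S.d l x := by
  cases p with
  | zero => trivial
  | succ p => exact fun a b hab hb _ _ => S.dd x hab hb

end SK

end Pool.Agent.P.MP_878f14_gt.HT.Q
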