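import Pool.Agent.P.MP_878f14_gt.HT.Q.Kap
import Pool.Agent.P.MP_878f14_gt.HT.Q.Kan

/-! The semi-simplicial set of structures satisfies the Kan condition up to collaring. -/

namespace Pool.Agent.P.MP_878f14_gt.HT.Q

open Filter Topology Function
open scoped ContDiff

noncomputable section

/-- the semi-simplicial set of structures -/
@[reducible] def SS (n : ℕ) : SK where
  X := St n
  d {p} a σ := σ.pi (cl p a).succAbove
  dd x _ _ hab hb := by rw [St.pi_pi, St.pi_pi, sa_cl hab hb]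
  z := St.z n
  dz _ _ := St.pi_z _
  uniq := St.uniq

/-- collaring -/
@[reducible] def KK (n : ℕ) : (SS n).Op where
  κ _ := St.kap
  dκ _ _ σ := St.pi_kap (Fin.succAbove_right_injective) σ
  κz _ := St.kap_z

variable {n p q : ℕ}

theorem glue_drop_mem {k : ℕ} {v : Fin (k + 1) → ℝ} (hv : v ∈ stdSimplex ℝ (Fin (k + 1)))
    {j : Fin (k + 1)} (h : v j = 0) : v ∘ j.succAbove ∈ stdSimplex ℝ (Fin k) := by
  refine ⟨fun i => hv.1 _, ?_⟩
  have := hv.2
  rw [Fin.sum_univ_succAbove _ j, h, zero_add] at this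
  exact this

theorem glue_ext0 {k : ℕ} {v : Fin (k + 1) → ℝ} {j : Fin (k + 1)} (h : v j = 0) :
    ext0 j.succAbove (v ∘ j.succAbove) = v := by
  funext i
  rcases Fin.eq_self_or_eq_succAbove j i with rfl | ⟨i', rfl⟩
  · rw [ext0_of_not_mem _ (by simp), h]
  · rw [ext0_apply Fin.succAbove_right_injective]; rfl

theorem glue_map {k : ℕ} {v : Fin (k + 2) → ℝ} (hv : v ∈ stdSimplex ℝ (Fin (k + 2)))
    {j : Fin (k + 2)} (h : v j = 0) :
    toS v = stdSimplex.map j.succAbove (toS (v ∘ j.succAbove)) := by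
  apply Subtype.ext
  rw [map_val, toS_val hv, toS_val (glue_drop_mem hv h), glue_ext0 h]

theorem glue_face {X : Type} [TopologicalSpace X] {u : X → Fin (p + 2) → ℝ} {t : X}
    (hu : ContinuousAt u t) (hm : ∀ᶠ x in 𝓝 t, u x ∈ stdSimplex ℝ (Fin (p + 2)))
    {k : Fin (p + 2)} (h0 : ∀ᶠ x in 𝓝 t, u x k = 0) (σ : St n (p + 1)) :
    pb (fun x => toS (u x)) σ.1 t =
      pb (fun x => toS (u x ∘ k.succAbove)) (σ.pi k.succAbove).1 t := by
  have hc : ContinuousAt (fun x => toS (u x ∘ k.succAbove)) t := by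
    refine continuousAt_toS (continuousAt_pi.2 fun i => (continuousAt_pi.1 hu) _) ?_
    filter_upwards [hm, h0] with x h1 h2 using glue_drop_mem h1 h2
  change _ = pb _ (pb (stdSimplex.map k.succAbove) σ.1) t
  rw [pb_pb hc]
  refine pb_congr_map ?_
  filter_upwards [hm, h0] with x h1 h2 using glue_map h1 h2

theorem glue_lt {A : ℕ → Prop} {s : ℕ → St n (p + 1)} (hs : (SS n).Cp A s)
    {X : Type} [TopologicalSpace X] {u : X → Fin (p + 3) → ℝ} {t : X}
    (hu : ContinuousAt u t) (hm : ∀ x, u x ∈ stdSimplex ℝ (Fin (p + 3)))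
    {j j' : Fin (p + 3)} (hlt : j < j') (hj : A j) (hj' : A j') (h0 : ∀ᶠ x in 𝓝 t, u x j = 0)
    (h0' : ∀ᶠ x in 𝓝 t, u x j' = 0) :
    pb (fun x => toS (u x ∘ j.succAbove)) (s j).1 t =
      pb (fun x => toS (u x ∘ j'.succAbove)) (s j').1 t := by
  obtain ⟨b, hb⟩ : ∃ b, j'.1 = b + 1 := ⟨j'.1 - 1, by have := Fin.lt_def.1 hlt; omega⟩
  have hab : j.1 ≤ b := by have := Fin.lt_def.1 hlt; omega
  have hb1 : b ≤ p + 1 := by have := j'.2; omega
  have key := hs j.1 b hab hb1 hj (hb ▸ hj')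
  have e1 : j'.succAbove (cl p j.1) = j := by
    rw [Fin.succAbove_of_castSucc_lt _ _ (by
      rw [Fin.lt_def, Fin.val_castSucc, cl_val (by omega)]; omega)]
    exact Fin.ext (by rw [Fin.val_castSucc, cl_val (by omega)])
  have e2 : j.succAbove (cl p b) = j' := by
    rw [Fin.succAbove_of_le_castSucc _ _ (by
      rw [Fin.le_def, Fin.val_castSucc, cl_val hb1]; omega)]
    exact Fin.ext (by rw [Fin.val_succ, cl_val hb1, hb])
  have e3 : j'.succAbove ∘ (cl p j.1).succAbove = j.succAbove ∘ (cl p b).succAbove := by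
    have := sa_cl (p := p) hab hb1
    rwa [← hb, cl_coe, cl_coe] at this
  have hc : ∀ i : Fin (p + 3), ContinuousAt (fun x => u x ∘ i.succAbove) t := fun i =>
    continuousAt_pi.2 fun l => (continuousAt_pi.1 hu) _
  rw [glue_face (u := fun x => u x ∘ j.succAbove) (k := cl p b) (hc j)
      (h0.mono fun x h => glue_drop_mem (hm x) h) (h0'.mono fun x h => by simpa [e2] using h),
    glue_face (u := fun x => u x ∘ j'.succAbove) (k := cl p j.1) (hc j')
      (h0'.mono fun x h => glue_drop_mem (hm x) h) (h0.mono fun x h => by simpa [e1] using h)]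
  have k2 : (s j').pi (cl p j.1).succAbove = (s j).pi (cl p b).succAbove := by
    rw [hb]; exact key
  rw [k2]
  simp only [Function.comp_assoc, e3]

/-- pull-back of a compatible family by a smooth map that lands locally in one of the faces -/
theorem glue {A : ℕ → Prop} {s : ℕ → St n (p + 1)} (hs : (SS n).Cp A s)
    (r : (Fin (q + 1) → ℝ) → Fin (p + 3) → ℝ) (hr : ∀ t : Sx q, Sm r t.1)
    (hm : ∀ t : Sx q, r t.1 ∈ stdSimplex ℝ (Fin (p + 3)))
    (hc : ∀ t : Sx q, ∃ j : Fin (p + 3), A j ∧ ∀ᶠ t' : Sx q in 𝓝 t, r t'.1 j = 0) :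
    ∃ w : St n q, ∀ (t : Sx q) (j : Fin (p + 3)), A j → (∀ᶠ t' : Sx q in 𝓝 t, r t'.1 j = 0) →
      w.1 t = pb (fun t' : Sx q => toS (r t'.1 ∘ j.succAbove)) (s j).1 t := by
  have hcont : ∀ t : Sx q, ContinuousAt (fun t' : Sx q => r t'.1) t := fun t =>
    ((hr t).self_of_nhds.continuousAt).comp continuous_subtype_val.continuousAt
  choose J hJ hJ0 using hc
  have hw : ∀ (t : Sx q) (j : Fin (p + 3)), A j → (∀ᶠ t' : Sx q in 𝓝 t, r t'.1 j = 0) →
      pb (fun t' : Sx q => toS (r t'.1 ∘ (J t).succAbove)) (s (J t)).1 t =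
        pb (fun t' : Sx q => toS (r t'.1 ∘ j.succAbove)) (s j).1 t := by
    intro t j hj h0
    rcases lt_trichotomy (J t) j with h | h | h
    · exact glue_lt hs (hcont t) hm h (hJ t) hj (hJ0 t) h0
    · rw [h]
    · exact (glue_lt hs (hcont t) hm h hj (hJ t) h0 (hJ0 t)).symm
  refine ⟨⟨fun t => pb (fun t' : Sx q => toS (r t'.1 ∘ (J t).succAbove)) (s (J t)).1 t,
    fun t => ?_⟩, hw⟩
  have h1 : IsAt Subtype.val
      (pb (fun t' : Sx q => toS (r t'.1 ∘ (J t).succAbove)) (s (J t)).1) t := by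
    refine IsAt.pb val_inducing continuous_subtype_val (fun v => r v ∘ (J t).succAbove) ?_ ?_
      ((s (J t)).2 _)
    · filter_upwards [hr t] with v hv
      exact contDiffAt_pi.2 fun i => contDiffAt_pi.1 hv _
    · filter_upwards [hJ0 t] with x hx using toS_val (glue_drop_mem (hm x) hx)
  refine h1.congr ?_
  filter_upwards [(hJ0 t).eventually_nhds] with x hx using hw x (J t) (hJ t) hx

end

end Pool.Agent.P.MP_878f14_gt.HT.Q
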