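import Pool.Agent.P.MP_878f14_gt.HT.Q.Glue

/-! Horns and degeneracies. -/

namespace Pool.Agent.P.MP_878f14_gt.HT.Q

open Filter Topology Function
open scoped ContDiff

noncomputable section

variable {n p : ℕ}

theorem horn_sq {k : ℕ} {v : Fin (k + 1) → ℝ} (hv : v ∈ stdSimplex ℝ (Fin (k + 1))) :
    (2 * ((k : ℝ) + 1))⁻¹ ≤ (∑ l, v l ^ 2) / 2 := by
  have h := sq_sum_le_card_mul_sum_sq (s := (Finset.univ : Finset (Fin (k + 1)))) (f := v)
  rw [hv.2, Finset.card_univ, Fintype.card_fin] at h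
  push_cast at h
  have k0 : (0 : ℝ) < (k : ℝ) + 1 := by positivity
  rw [inv_le_iff_one_le_mul₀ (by positivity)]
  linarith

/-- a smooth map of the simplex to the collar of the horn that fixes the horn -/
theorem exists_retr (i : Fin (p + 2)) : ∃ ρ : (Fin (p + 2) → ℝ) → Fin (p + 2) → ℝ,
    (∀ t : Sx (p + 1), Sm ρ t.1) ∧ (∀ t : Sx (p + 1), ρ t.1 ∈ stdSimplex ℝ (Fin (p + 2))) ∧
    (∀ t : Sx (p + 1), ∃ j, j ≠ i ∧ ρ t.1 j < (∑ l, ρ t.1 l ^ 2) / 2) ∧
    ∀ (t : Sx (p + 1)) (j : Fin (p + 2)), j ≠ i → t.1 j = 0 → ρ t.1 = t.1 := by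
  classical
  set D : ℝ := 2 * (((p + 1 : ℕ) : ℝ) + 1) with hD
  have D0 : 0 < D := by positivity
  let μ : (Fin (p + 2) → ℝ) → ℝ := fun t => D * ∏ j ∈ Finset.univ.erase i, D * t j
  have μ0 : ∀ t : Sx (p + 1), 0 ≤ μ t.1 := fun t =>
    mul_nonneg D0.le (Finset.prod_nonneg fun j _ => mul_nonneg D0.le (t.2.1 j))
  have cμ : ContDiff ℝ ∞ μ :=
    contDiff_const.mul (contDiff_prod fun j _ => contDiff_const.mul (contDiff_apply ℝ ℝ j))
  let ρ : (Fin (p + 2) → ℝ) → Fin (p + 2) → ℝ := fun t j =>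
    (t j + if j = i then μ t else 0) / (1 + μ t)
  have hmem : ∀ t : Sx (p + 1), ρ t.1 ∈ stdSimplex ℝ (Fin (p + 2)) := fun t => by
    have h0 := μ0 t
    refine ⟨fun j => div_nonneg (add_nonneg (t.2.1 j) (by split_ifs <;> linarith))
      (by linarith), ?_⟩
    simp only [ρ]
    rw [← Finset.sum_div, Finset.sum_add_distrib, t.2.2, Finset.sum_ite_eq' Finset.univ i,
      if_pos (Finset.mem_univ i), div_self (by linarith)]
  refine ⟨ρ, fun t => ?_, hmem, fun t => ?_, fun t j hj h0 => ?_⟩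
  · have h1 : ContDiff ℝ ∞ fun t => 1 + μ t := contDiff_const.add cμ
    filter_upwards [h1.continuous.continuousAt.eventually_ne
      (show 1 + μ t.1 ≠ 0 by linarith [μ0 t])] with v hv
    refine contDiffAt_pi.2 fun j => ContDiffAt.div ?_ h1.contDiffAt hv
    refine (contDiff_apply ℝ ℝ j).contDiffAt.add ?_
    split_ifs
    · exact cμ.contDiffAt
    · exact contDiffAt_const
  · have hs := horn_sq (hmem t)
    rw [← hD] at hs
    have h0 := μ0 t
    have e : ∀ j, j ≠ i → ρ t.1 j = t.1 j / (1 + μ t.1) := fun j hj => by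
      simp only [ρ, if_neg hj, add_zero]
    by_cases hc : ∃ j, j ≠ i ∧ t.1 j < D⁻¹
    · obtain ⟨j, hj, hlt⟩ := hc
      refine ⟨j, hj, lt_of_lt_of_le ?_ hs⟩
      rw [e j hj]
      exact (div_le_self (t.2.1 j) (by linarith)).trans_lt hlt
    · obtain ⟨j, hj⟩ := exists_ne i
      refine ⟨j, hj, lt_of_lt_of_le ?_ hs⟩
      have h1 : (1 : ℝ) ≤ ∏ l ∈ Finset.univ.erase i, D * t.1 l := by
        rw [← Finset.prod_const_one (s := Finset.univ.erase i)]
        refine Finset.prod_le_prod (fun _ _ => zero_le_one) fun l hl => ?_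
        have h2 : D⁻¹ ≤ t.1 l := not_lt.1 fun h => hc ⟨l, (Finset.mem_erase.1 hl).1, h⟩
        rw [← mul_inv_cancel₀ D0.ne']
        exact mul_le_mul_of_nonneg_left h2 D0.le
      have h2 : D ≤ μ t.1 := le_mul_of_one_le_right D0.le h1
      have h3 : t.1 j ≤ 1 := stdSimplex.le_one t j
      rw [e j hj, div_lt_iff₀ (by linarith), ← div_eq_inv_mul, lt_div_iff₀ D0]
      nlinarith
  · have h1 : μ t.1 = 0 := by
      simp only [μ]
      rw [Finset.prod_eq_zero (Finset.mem_erase.2 ⟨hj, Finset.mem_univ j⟩) (by rw [h0, mul_zero]),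
        mul_zero]
    funext l
    simp [ρ, h1]

theorem wkan (n p : ℕ) : SK.WKan (KK n) p := by
  intro i hi s hs
  obtain ⟨ρ, h1, h2, h3, h4⟩ := exists_retr (p := p + 1) (cl (p + 1) i)
  have hI : (cl (p + 1) i).1 = i := cl_val hi
  have hc : ∀ t : Sx (p + 2), ContinuousAt (fun t' : Sx (p + 2) => ρ t'.1) t := fun t =>
    (h1 t).self_of_nhds.continuousAt.comp continuous_subtype_val.continuousAt
  have hz : ∀ (t : Sx (p + 2)) (j : Fin (p + 3)), ρ t.1 j < (∑ l, ρ t.1 l ^ 2) / 2 →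
      ∀ᶠ t' : Sx (p + 2) in 𝓝 t, kv (ρ t'.1) j = 0 := fun t j h => by
    have c1 : ContinuousAt (fun t' : Sx (p + 2) => ρ t'.1 j) t := continuousAt_pi.1 (hc t) j
    have c2 : ContinuousAt (fun t' : Sx (p + 2) => (∑ l, ρ t'.1 l ^ 2) / 2) t :=
      (tendsto_finsetSum _ fun l _ => (continuousAt_pi.1 (hc t) l).pow 2).div_const 2
    filter_upwards [c1.eventually_lt c2 h] with t' ht using kv_eq_zero ht.le
  obtain ⟨w, hw⟩ := glue (q := p + 2) hs (fun v => kv (ρ v)) (fun t => by
      filter_upwards [h1 t, (h1 t).self_of_nhds.continuousAt.eventually (sm_kv (h2 t))]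
        with v a b using b.comp v a)
    (fun t => kv_mem (h2 t).2 (h2 t).1) (fun t => by
      obtain ⟨j, hj, hlt⟩ := h3 t
      exact ⟨j, fun e => hj (Fin.ext (e.trans hI.symm)), hz t j hlt⟩)
  refine ⟨w, fun a ha hai => Subtype.ext (funext fun t => ?_)⟩
  set J := cl (p + 1) a with hJ
  have hJa : J.1 = a := cl_val ha
  have hJI : J ≠ cl (p + 1) i := fun e => hai (by rw [← hJa, e, hI])
  have z0 : ∀ t : Sx (p + 1), (stdSimplex.map J.succAbove t).1 J = 0 := fun t => by
    rw [map_val]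
    exact ext0_of_not_mem _ (by simp)
  have fx : ∀ t : Sx (p + 1),
      ρ (stdSimplex.map J.succAbove t).1 = (stdSimplex.map J.succAbove t).1 := fun t =>
    h4 _ J hJI (z0 t)
  have k1 := hw (stdSimplex.map J.succAbove t) J (by rw [hJa]; exact hai) (hz _ J (by
    have := horn_sq (h2 (stdSimplex.map J.succAbove t))
    rw [fx, z0]
    rw [fx] at this
    exact lt_of_lt_of_le (by positivity) this))
  change pb (stdSimplex.map J.succAbove) w.1 t = pb kS (s a).1 t
  rw [pb_congr k1, pb_pb (stdSimplex.continuous_map _).continuousAt, hJa]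
  refine congrArg (fun m => pb m (s a).1 t) (funext fun u => ?_)
  have e : kv (ρ (stdSimplex.map J.succAbove u).1) ∘ J.succAbove = kv u.1 := by
    rw [fx, map_val, kv_ext0 Fin.succAbove_right_injective]
    exact funext fun l => ext0_apply Fin.succAbove_right_injective _ l
  simp only [comp_apply]
  rw [e]
  exact toS_coe (kS u)

theorem horn_sa {k : ℕ} (c : Fin (k + 1)) (x : Fin k) :
    (c.succAbove x).1 = if x.1 < c.1 then x.1 else x.1 + 1 := by
  rw [Fin.succAbove]
  simp only [Fin.lt_def, Fin.val_castSucc]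
  split_ifs <;> rfl

theorem horn_miss {q : ℕ} (x : St n (p + 1)) (hx : ∀ a ≤ p + 1, (SS n).d a x = St.z n p)
    (g : Fin (q + 1) → Fin (p + 2)) (c : Fin (p + 2)) (hg : ∀ l, g l ≠ c) :
    x.pi g = St.z n q := by
  choose g' hg' using fun l => Fin.exists_succAbove_eq (hg l)
  have h1 : x.pi c.succAbove = St.z n p := by
    have := hx c.1 (by omega)
    simp only [cl_coe] at this
    exact this
  rw [show g = c.succAbove ∘ g' from funext fun l => (hg' l).symm, ← St.pi_pi, h1, St.pi_z]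

theorem deg (n p : ℕ) : (SS n).Deg p := by
  intro x hx i hi
  let σ : Fin (p + 3) → Fin (p + 2) := fun k =>
    ⟨if k.1 ≤ i then k.1 else k.1 - 1, by have := k.2; split_ifs <;> omega⟩
  refine ⟨St.pi σ x, fun a ha => ?_⟩
  have ea : (cl (p + 1) a).1 = a := cl_val ha
  have ev : ∀ l : Fin (p + 2), (σ ((cl (p + 1) a).succAbove l)).1 =
      if (if l.1 < a then l.1 else l.1 + 1) ≤ i then (if l.1 < a then l.1 else l.1 + 1)
      else (if l.1 < a then l.1 else l.1 + 1) - 1 := fun l => by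
    simp only [σ, horn_sa, ea]
  change (St.pi σ x).pi (cl (p + 1) a).succAbove = _
  rw [St.pi_pi]
  split_ifs with h
  · rw [show σ ∘ (cl (p + 1) a).succAbove = id from funext fun l => Fin.ext (by
      rw [comp_apply, ev, id]
      split_ifs <;> omega)]
    exact St.pi_id x
  · refine horn_miss x hx _ ⟨if a < i then a else a - 1, by split_ifs <;> omega⟩ fun l e => ?_
    have := congrArg Fin.val e
    rw [comp_apply, ev] at this
    simp only at this
    split_ifs at this <;> omega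

end

end Pool.Agent.P.MP_878f14_gt.HT.Q
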