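import Pool.Agent.P.MP_878f14_gt.HT.Q.Quat

/-! Householder reflections and the two dimension counts. -/

namespace Pool.Agent.P.MP_878f14_gt.HT.Q

open Filter Topology Function Matrix
open scoped ContDiff

noncomputable section

/-- the reflection in the hyperplane orthogonal to `w` -/
def refl (w : Fin 5 → ℝ) : Mx := 1 - (2 / (w ⬝ᵥ w)) • vecMulVec w w

theorem House_refl_apply (w : Fin 5 → ℝ) (i j : Fin 5) :
    refl w i j = (1 : Mx) i j - 2 / (w ⬝ᵥ w) * (w i * w j) := by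
  simp [refl, vecMulVec_apply]

theorem House_refl_transpose (w : Fin 5 → ℝ) : (refl w)ᵀ = refl w := by
  ext i j
  rw [transpose_apply, House_refl_apply, House_refl_apply, mul_comm (w j) (w i), one_apply,
    one_apply]
  simp only [eq_comm]

theorem House_refl_mul_apply (w : Fin 5 → ℝ) (g : Mx) (j k : Fin 5) :
    (refl w * g) j k = g j k - 2 / (w ⬝ᵥ w) * (w j * ∑ l, w l * g l k) := by
  rw [refl, sub_mul, one_mul, smul_mul_assoc, Matrix.sub_apply, Matrix.smul_apply, mul_apply,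
    smul_eq_mul, Finset.mul_sum]
  simp only [vecMulVec_apply, mul_assoc, Finset.mul_sum]

theorem House_refl_refl {w : Fin 5 → ℝ} (hw : w ⬝ᵥ w ≠ 0) : refl w * refl w = 1 := by
  ext j k
  rw [House_refl_mul_apply]
  have h : ∑ l, w l * refl w l k = -w k := by
    simp only [House_refl_apply, mul_sub, Finset.sum_sub_distrib]
    have h1 : ∑ l, w l * (1 : Mx) l k = w k := by simp [one_apply]
    have h2 : ∑ l, w l * (2 / (w ⬝ᵥ w) * (w l * w k)) = 2 / (w ⬝ᵥ w) * (w ⬝ᵥ w) * w k := by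
      rw [mul_assoc, show (w ⬝ᵥ w) * w k = ∑ l, w l * w l * w k by
        rw [dotProduct, Finset.sum_mul], Finset.mul_sum]
      exact Finset.sum_congr rfl fun l _ => by ring
    rw [h1, h2, div_mul_cancel₀ _ hw]
    ring
  rw [h, House_refl_apply]
  ring

/-- row and column `k` vanish off the diagonal -/
def House_Fix (k : Fin 5) (g : Mx) : Prop := ∀ j, j ≠ k → g j k = 0 ∧ g k j = 0

theorem House_step {g : Mx} (hg : gᵀ * g = 1) (i : Fin 5) : ∃ (w : Fin 5 → ℝ) (g' : Mx),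
    w i = 1 ∧ (∀ j, j ≠ i → g j i = 0 → w j = 0) ∧ g'ᵀ * g' = 1 ∧ g = refl w * g' ∧
      House_Fix i g' ∧ ∀ k, k ≠ i → House_Fix k g → House_Fix k g' := by
  have hv : ∑ l, g l i * g l i = 1 := by
    have := congrFun (congrFun hg i) i
    simpa [mul_apply] using this
  obtain ⟨s, hs, hp⟩ : ∃ s : ℝ, s * s = 1 ∧ 0 ≤ s * g i i := by
    rcases le_total 0 (g i i) with h | h
    · exact ⟨1, by norm_num, by simpa using h⟩
    · exact ⟨-1, by norm_num, by simpa using h⟩
  obtain ⟨t, ht⟩ : ∃ t : ℝ, t = 1 + s * g i i := ⟨_, rfl⟩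
  have ht0 : t ≠ 0 := by rw [ht]; positivity
  obtain ⟨w, hw⟩ : ∃ w : Fin 5 → ℝ, ∀ j, w j = t⁻¹ * ((1 : Mx) j i + s * g j i) :=
    ⟨_, fun _ => rfl⟩
  have h1 : ∀ u : Fin 5 → ℝ, ∑ l, (1 : Mx) l i * u l = u i := fun u => by simp [one_apply]
  have hwv : ∑ l, w l * g l i = s := by
    have : ∑ l, w l * g l i = t⁻¹ * (∑ l, (1 : Mx) l i * g l i + s * ∑ l, g l i * g l i) := by
      rw [Finset.mul_sum, ← Finset.sum_add_distrib, Finset.mul_sum]
      exact Finset.sum_congr rfl fun l _ => by rw [hw]; ring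
    rw [this, h1 fun l => g l i, hv, inv_mul_eq_iff_eq_mul₀ ht0, ht]
    linear_combination (-g i i) * hs
  have hwi : w i = 1 := by rw [hw, one_apply_eq, ← ht, inv_mul_cancel₀ ht0]
  have hww : w ⬝ᵥ w = 2 / t := by
    have : w ⬝ᵥ w = t⁻¹ * (∑ l, (1 : Mx) l i * w l + s * ∑ l, w l * g l i) := by
      rw [dotProduct, Finset.mul_sum, ← Finset.sum_add_distrib, Finset.mul_sum]
      exact Finset.sum_congr rfl fun l _ => by nth_rewrite 1 [hw]; ring
    rw [this, h1, hwv, hwi, hs]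
    field_simp
    norm_num
  have hne : w ⬝ᵥ w ≠ 0 := by rw [hww]; exact div_ne_zero two_ne_zero ht0
  have hc : 2 / (w ⬝ᵥ w) = t := by rw [hww]; field_simp
  have ho : (refl w * g)ᵀ * (refl w * g) = 1 := by
    rw [transpose_mul, House_refl_transpose, mul_assoc, ← mul_assoc (refl w),
      House_refl_refl hne, one_mul, hg]
  have hcol : ∀ j, (refl w * g) j i = -s * (1 : Mx) j i := fun j => by
    rw [House_refl_mul_apply, hc, hwv, hw, ← mul_assoc, ← mul_assoc, mul_inv_cancel₀ ht0]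
    linear_combination (-g j i) * hs
  refine ⟨w, refl w * g, hwi, fun j hj h0 => ?_, ho, ?_, fun j hj => ⟨?_, ?_⟩, fun k hk hf j hj => ?_⟩
  · rw [hw, h0, one_apply_ne hj]; simp
  · rw [← mul_assoc, House_refl_refl hne, one_mul]
  · rw [hcol, one_apply_ne hj, mul_zero]
  · have := congrFun (congrFun ho i) j
    rw [mul_apply, one_apply_ne hj.symm] at this
    simp only [transpose_apply, hcol, mul_assoc] at this
    rw [← Finset.mul_sum, h1 fun l => (refl w * g) l j] at this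
    have hs0 : -s ≠ 0 := by
      intro h
      rw [neg_eq_zero] at h
      simp [h] at hs
    exact (mul_eq_zero.1 this).resolve_left hs0
  · have hwk : w k = 0 := by rw [hw, (hf i hk.symm).2, one_apply_ne hk]; simp
    have hsum : ∑ l, w l * g l k = 0 := Finset.sum_eq_zero fun l _ => by
      by_cases hl : l = k
      · rw [hl, hwk, zero_mul]
      · rw [(hf l hl).1, mul_zero]
    rw [House_refl_mul_apply, House_refl_mul_apply, hsum, hwk, (hf j hj).1, (hf j hj).2]
    simp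

theorem House_diag {g : Mx} (hg : gᵀ * g = 1) (h : ∀ j k, j ≠ k → g j k = 0) :
    ∃ s : Fin 5 → Bool, g = diagonal (fun i => if s i then (1 : ℝ) else -1) := by
  refine ⟨fun i => decide (g i i = 1), ?_⟩
  ext j k
  by_cases hjk : j = k
  · subst hjk
    have := congrFun (congrFun hg j) j
    rw [mul_apply, one_apply_eq, Finset.sum_eq_single j (fun l _ hl => by
      rw [h l j hl, mul_zero]) (by simp), transpose_apply] at this
    rw [diagonal_apply_eq]
    by_cases h1 : g j j = 1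
    · simp [h1]
    · simp only [h1, decide_false, Bool.false_eq_true, if_false]
      exact (mul_self_eq_one_iff.1 this).resolve_left h1
  · rw [h j k hjk, diagonal_apply_ne _ hjk]

/-- an orthogonal matrix is a product of four reflections and a diagonal matrix of signs -/
theorem householder {g : Mx} (hg : gᵀ * g = 1) : ∃ (a : Fin 4 → ℝ) (b : Fin 3 → ℝ) (c : Fin 2 → ℝ)
    (e : ℝ) (s : Fin 5 → Bool),
    g = refl ![1, a 0, a 1, a 2, a 3] * refl ![0, 1, b 0, b 1, b 2] * refl ![0, 0, 1, c 0, c 1] *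
      refl ![0, 0, 0, 1, e] * diagonal (fun i => if s i then (1 : ℝ) else -1) ∧
    ∀ i : Fin 4, g i.succ 0 = 0 → a i = 0 := by
  obtain ⟨w0, g1, a0, z0, o1, e0, f10, -⟩ := House_step hg 0
  obtain ⟨w1, g2, a1, z1, o2, e1, f21, p1⟩ := House_step o1 1
  have f20 := p1 0 (by decide) f10
  obtain ⟨w2, g3, a2, z2, o3, e2, f32, p2⟩ := House_step o2 2
  have f30 := p2 0 (by decide) f20
  have f31 := p2 1 (by decide) f21
  obtain ⟨w3, g4, a3, z3, o4, e3, f43, p3⟩ := House_step o3 3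
  have f40 := p3 0 (by decide) f30
  have f41 := p3 1 (by decide) f31
  have f42 := p3 2 (by decide) f32
  have hall : ∀ k : Fin 5, k ≠ 4 → House_Fix k g4 := fun k hk => by
    fin_cases k
    exacts [f40, f41, f42, f43, absurd rfl hk]
  obtain ⟨s, hs⟩ := House_diag o4 fun j k hjk => by
    by_cases hk : k = 4
    · exact (hall j (hk ▸ hjk) k (Ne.symm hjk)).2
    · exact (hall k hk j hjk).1
  have b0 : w0 = ![1, w0 1, w0 2, w0 3, w0 4] := by
    ext j; fin_cases j <;> simp [a0]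
  have b1 : w1 = ![0, 1, w1 2, w1 3, w1 4] := by
    have := z1 0 (by decide) (f10 1 (by decide)).2
    ext j; fin_cases j <;> simp [a1, this]
  have b2 : w2 = ![0, 0, 1, w2 3, w2 4] := by
    have h0 := z2 0 (by decide) (f20 2 (by decide)).2
    have h1 := z2 1 (by decide) (f21 2 (by decide)).2
    ext j; fin_cases j <;> simp [a2, h0, h1]
  have b3 : w3 = ![0, 0, 0, 1, w3 4] := by
    have h0 := z3 0 (by decide) (f30 3 (by decide)).2
    have h1 := z3 1 (by decide) (f31 3 (by decide)).2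
    have h2 := z3 2 (by decide) (f32 3 (by decide)).2
    ext j; fin_cases j <;> simp [a3, h0, h1, h2]
  refine ⟨![w0 1, w0 2, w0 3, w0 4], ![w1 2, w1 3, w1 4], ![w2 3, w2 4], w3 4, s, ?_, ?_⟩
  · rw [e0, e1, e2, e3, hs]
    nth_rewrite 1 [b0, b1, b2, b3]
    simp only [mul_assoc]
    rfl
  · intro i hi
    have := z0 i.succ (Fin.succ_ne_zero i) hi
    fin_cases i <;> simpa using this

theorem House_cd_mul {X : Type} [NormedAddCommGroup X] [NormedSpace ℝ X] {A B : X → Mx}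
    (hA : ContDiff ℝ ∞ fun x => mm (A x)) (hB : ContDiff ℝ ∞ fun x => mm (B x)) :
    ContDiff ℝ ∞ fun x => mm (A x * B x) := by
  rw [contDiff_pi] at hA hB ⊢
  intro i
  rw [contDiff_pi]
  intro j
  simp only [mm, mul_apply]
  exact ContDiff.sum fun l _ => (contDiff_pi.1 (hA i) l).mul (contDiff_pi.1 (hB l) j)

theorem House_cd_refl {X : Type} [NormedAddCommGroup X] [NormedSpace ℝ X] {w : X → Fin 5 → ℝ}
    (hw : ∀ j, ContDiff ℝ ∞ fun x => w x j) (i : Fin 5) (hi : ∀ x, w x i = 1) :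
    ContDiff ℝ ∞ fun x => mm (refl (w x)) := by
  rw [contDiff_pi]
  intro j
  rw [contDiff_pi]
  intro k
  simp only [mm, House_refl_apply]
  refine contDiff_const.sub ((contDiff_const.div ?_ fun x => ?_).mul ((hw j).mul (hw k)))
  · exact ContDiff.sum fun l _ => (hw l).mul (hw l)
  · have : w x i * w x i ≤ ∑ l, w x l * w x l :=
      Finset.single_le_sum (f := fun l => w x l * w x l) (fun l _ => mul_self_nonneg _)
        (Finset.mem_univ i)
    rw [hi, one_mul] at this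
    exact (lt_of_lt_of_le one_pos this).ne'

theorem House_dim {Y : Type} [NormedAddCommGroup Y] [NormedSpace ℝ Y] {S : Set Y}
    (F : (Fin 5 → Bool) → (Fin 7 → ℝ) → Y) (hF : ∀ s, ContDiff ℝ ∞ (F s))
    (hS : ∀ y ∈ S, ∃ s x, F s x = y) : dimH S < ((7 + 1 : ℕ) : ENNReal) := by
  have h1 : S ⊆ ⋃ s, Set.range (F s) := fun y hy => by
    obtain ⟨s, x, h⟩ := hS y hy
    exact Set.mem_iUnion.2 ⟨s, x, h⟩
  refine lt_of_le_of_lt (dimH_mono h1) (lt_of_le_of_lt (b := ((7 : ℕ) : ENNReal)) ?_ ?_)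
  · rw [dimH_iUnion]
    refine iSup_le fun s => ((hF s).of_le (by simp)).dimH_range_le.trans ?_
    simp
  · exact_mod_cast Nat.lt_succ_self 7

theorem House_orth {g : M5} (hg : g ∈ SO 5) : (Matrix.of g)ᵀ * Matrix.of g = (1 : Mx) := by
  have h := (Matrix.mem_specialOrthogonalGroup_iff.1 hg).1
  exact (Matrix.mem_orthogonalGroup_iff' _ _).1 h

theorem House_col {w : Fin 5 → ℝ} {g : Mx} {k : Fin 5} (hk : w k = 0)
    (hg : ∀ l, l ≠ k → g l k = 0) (j : Fin 5) : (refl w * g) j k = g j k := by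
  have hsum : ∑ l, w l * g l k = 0 := Finset.sum_eq_zero fun l _ => by
    by_cases hl : l = k
    · rw [hl, hk, zero_mul]
    · rw [hg l hl, mul_zero]
  rw [House_refl_mul_apply, hsum]
  simp

theorem House_col2 (A : Mx) {w w' : Fin 5 → ℝ} (d : Fin 5 → ℝ) {k : Fin 5} (hk : w k = 0)
    (hk' : w' k = 0) (j : Fin 5) :
    (A * refl w * refl w' * diagonal d : Mx) j k = (A * diagonal d : Mx) j k := by
  have h1 : ∀ l, (refl w' * diagonal d : Mx) l k = diagonal d l k :=
    House_col hk' fun l hl => diagonal_apply_ne _ hl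
  have h2 : ∀ l, (refl w * (refl w' * diagonal d) : Mx) l k = diagonal d l k := fun l => by
    rw [House_col hk (fun l hl => by rw [h1, diagonal_apply_ne _ hl]), h1]
  rw [mul_assoc, mul_assoc, mul_apply, mul_apply]
  simp only [h2]

theorem dimH_ff : dimH (ff '' SO 5) < ((7 + 1 : ℕ) : ENNReal) := by
  refine House_dim (fun s x => ff (mm (refl ![1, x 0, x 1, x 2, x 3] * refl ![0, 1, x 4, x 5, x 6] *
    diagonal (fun i => if s i then (1 : ℝ) else -1)))) (fun s => ?_) ?_
  · refine contDiff_ff.comp (House_cd_mul (House_cd_mul (House_cd_refl (fun j => ?_) 0 fun _ => rfl)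
      (House_cd_refl (fun j => ?_) 1 fun _ => rfl)) contDiff_const)
    all_goals fin_cases j <;> simp <;> fun_prop
  · rintro _ ⟨g, hg, rfl⟩
    obtain ⟨a, b, c, e, s, h, -⟩ := householder (House_orth hg)
    refine ⟨s, ![a 0, a 1, a 2, a 3, b 0, b 1, b 2], ?_⟩
    have h0 : ∀ j, g j 0 = (refl ![1, a 0, a 1, a 2, a 3] * refl ![0, 1, b 0, b 1, b 2] *
        diagonal (fun i => if s i then (1 : ℝ) else -1) : Mx) j 0 := fun j => by
      rw [← House_col2 _ (w := ![0, 0, 1, c 0, c 1]) (w' := ![0, 0, 0, 1, e]) _ rfl rfl, ← h]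
      rfl
    have h1 : ∀ j, g j 1 = (refl ![1, a 0, a 1, a 2, a 3] * refl ![0, 1, b 0, b 1, b 2] *
        diagonal (fun i => if s i then (1 : ℝ) else -1) : Mx) j 1 := fun j => by
      rw [← House_col2 _ (w := ![0, 0, 1, c 0, c 1]) (w' := ![0, 0, 0, 1, e]) _ rfl rfl, ← h]
      rfl
    simp only [ff, zc, h0, h1]
    rfl

theorem dimH_pg : dimH (pg '' SO 5) < ((7 + 1 : ℕ) : ENNReal) := by
  refine House_dim (fun s x => pg (mm (refl ![1, x 0, 0, 0, 0] * refl ![0, 1, x 1, x 2, x 3] *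
    refl ![0, 0, 1, x 4, x 5] * refl ![0, 0, 0, 1, x 6] *
    diagonal (fun i => if s i then (1 : ℝ) else -1)))) (fun s => ?_) ?_
  · refine contDiff_pg.comp (House_cd_mul (House_cd_mul (House_cd_mul (House_cd_mul
      (House_cd_refl (fun j => ?_) 0 fun _ => rfl) (House_cd_refl (fun j => ?_) 1 fun _ => rfl))
      (House_cd_refl (fun j => ?_) 2 fun _ => rfl)) (House_cd_refl (fun j => ?_) 3 fun _ => rfl))
      contDiff_const)
    all_goals fin_cases j <;> simp <;> fun_prop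
  · rintro _ ⟨g, hg, rfl⟩
    obtain ⟨h, hh, r, hr⟩ : ∃ h : H4, ns h = 1 ∧ ∃ r : ℝ, qm (zc 0 g) (qc h) = r • q1 := by
      by_cases hz : zc 0 g = 0
      · refine ⟨q1, by simp [ns, q1], 0, ?_⟩
        rw [hz]
        ext j; fin_cases j <;> simp [qm]
      · have hp : 0 < ns (zc 0 g) := lt_of_le_of_ne (ns_nonneg _) fun h => hz (ns_eq_zero.1 h.symm)
        refine ⟨(√(ns (zc 0 g)))⁻¹ • zc 0 g, ?_, (√(ns (zc 0 g)))⁻¹ * ns (zc 0 g), ?_⟩
        · rw [ns_smul, inv_pow, Real.sq_sqrt hp.le, inv_mul_cancel₀ hp.ne']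
        · have : qc ((√(ns (zc 0 g)))⁻¹ • zc 0 g) = (√(ns (zc 0 g)))⁻¹ • qc (zc 0 g) := by
            ext j; fin_cases j <;> simp [qc]
          rw [this, qm_smul, qm_qc, smul_smul]
    have ho : (Lm h * Matrix.of g)ᵀ * (Lm h * Matrix.of g) = (1 : Mx) := by
      rw [transpose_mul, mul_assoc, ← mul_assoc (Lm h)ᵀ, Lm_transpose, Lm_mul, qc_qm, hh, one_smul,
        Lm_q1, one_mul, House_orth hg]
    obtain ⟨a, b, c, e, s, h1, h2⟩ := householder ho
    have hz := (zc_Lm 0 h g).trans hr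
    have a1 : a 1 = 0 := h2 1 (by simpa [zc, qc, q1, mm] using congrFun hz 1)
    have a2 : a 2 = 0 := h2 2 (by simpa [zc, qc, q1, mm] using congrFun hz 2)
    have a3 : a 3 = 0 := h2 3 (by simpa [zc, qc, q1, mm] using congrFun hz 3)
    refine ⟨s, ![a 0, b 0, b 1, b 2, c 0, c 1, e], ?_⟩
    rw [← pg_Lm hh g, h1, a1, a2, a3]
    rfl

end

end Pool.Agent.P.MP_878f14_gt.HT.Q
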