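import Pool.Agent.P.MP_878f14_gt.HT.Q.Horn
import Pool.Agent.P.MP_878f14_gt.HT.Q.Colim
import Pool.Agent.P.MP_878f14_gt.HT.Q.Germ
import Pool.Agent.P.MP_878f14_gt.HT.D.Defs

/-! Transfer of the homological statement. -/

namespace Pool.Agent.P.MP_878f14_gt.HT.Q

open Filter Topology Function
open scoped ContDiff

noncomputable section

variable {n c : ℕ}

/-- the two models agree -/
theorem exists_equiv (n : ℕ) : ∃ e : ∀ p, D.Str n p ≃ St n p,
    ∀ p (j : Fin (p + 2)) (F : D.Str n (p + 1)), e p (D.face j F) = (e (p + 1) F).pi j.succAbove := by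
  let f : ∀ p, D.Str n p → St n p := fun p F =>
    ⟨toR (S := stdSimplex ℝ (Fin (p + 1))) F.1, isStr_iff.1 F.2⟩
  have hf : ∀ p, Bijective (f p) := fun p => by
    refine ⟨fun F F' h => Subtype.ext (toR_injective (congrArg Subtype.val h)), fun σ => ?_⟩
    obtain ⟨F, hF⟩ := exists_toR (S := stdSimplex ℝ (Fin (p + 1))) σ.2
    exact ⟨⟨F, isStr_iff.2 (hF ▸ σ.2)⟩, Subtype.ext hF⟩
  refine ⟨fun p => Equiv.ofBijective _ (hf p), fun p j F => Subtype.ext (funext fun t => ?_)⟩
  exact gf_compTendsto (F.1 (stdSimplex.map j.succAbove t)) (Prod.map (D.incl j) (D.incl j))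
    (((D.continuous_incl j).prodMap (D.continuous_incl j)).tendsto ((t, 0), (t, 0)))

theorem edge_of (h : D.Conn n c) : (SS n).Edge := by
  obtain ⟨e, he⟩ := exists_equiv n
  intro G _ f hf x
  have := h.2.1 G (fun y => f (e 1 y)) (fun w => by
    rw [he, he, he]
    exact hf (e 2 w)) ((e 1).symm x)
  rwa [Equiv.apply_symm_apply] at this

theorem coc_of (h : D.Conn n c) {p : ℕ} (hp : p < c) : (SS n).Coc p := by
  obtain ⟨e, he⟩ := exists_equiv n
  intro A _ f hf σ τ hστ
  have hd : ∀ q (j : Fin (q + 2)) (F : D.Str n (q + 1)),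
      e q (D.face j F) = (SS n).d j.1 (e (q + 1) F) := fun q j F => by
    rw [he]
    exact congrArg (fun i : Fin (q + 2) => (e (q + 1) F).pi i.succAbove) (cl_coe j).symm
  let L : FreeAbelianGroup (D.Str n (p + 1)) →+ A := FreeAbelianGroup.lift fun y => f (e _ y)
  have hL : ∀ w, L (D.bd w) = 0 := fun w => by
    have : L.comp D.bd = 0 := FreeAbelianGroup.lift_ext _ _ fun F => by
      have := hf (e _ F)
      rw [← Fin.sum_univ_eq_sum_range
        (fun a => (-1 : ℤ) ^ a • f ((SS n).d a (e _ F))) (p + 3)] at this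
      simp only [AddMonoidHom.comp_apply, D.bd, FreeAbelianGroup.lift_apply_of, map_sum,
        map_zsmul, L, hd, AddMonoidHom.zero_apply]
      exact this
    exact DFunLike.congr_fun this w
  obtain ⟨w, hw⟩ := h.2.2 p hp
    (.of ((e _).symm σ) - .of ((e _).symm τ)) (by
      rw [map_sub, sub_eq_zero]
      simp only [D.bd, FreeAbelianGroup.lift_apply_of]
      refine Finset.sum_congr rfl fun j _ => ?_
      have : D.face j ((e _).symm σ) = D.face j ((e _).symm τ) := (e p).injective (by
        rw [hd, hd, Equiv.apply_symm_apply, Equiv.apply_symm_apply]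
        exact hστ j.1 (by omega))
      rw [this])
  have := hL w
  rw [hw, map_sub, sub_eq_zero] at this
  simpa only [L, FreeAbelianGroup.lift_apply_of, Equiv.apply_symm_apply] using this

theorem wfill_st (h : D.Conn n c) : ∀ p < c, SK.WFill (KK n) p :=
  SK.wfill_of _ (wkan n) (deg n) (edge_of h) c fun _ _ hp => coc_of h hp

end

end Pool.Agent.P.MP_878f14_gt.HT.Q
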