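import Pool.Agent.P.MP_878f14_gt.HT.Q.NR

/-! The group structure. -/

namespace Pool.Agent.P.MP_878f14_gt.HT.Q

open Function

variable {P : Type} {o : P} {n : ℕ} {R : (ℕ → P) → Prop}

/-- the tuple with three given entries -/
def nr2_tri (o : P) (a b c : ℕ) (x y z : P) (i : ℕ) : P :=
  if i = a then x else if i = b then y else if i = c then z else o

/-- the product at the place `a` -/
noncomputable def nr2_mul (o : P) (R : (ℕ → P) → Prop) (a : ℕ) (x z : P) : P :=
  @Classical.epsilon P ⟨o⟩ fun y => R (nr2_tri o a (a + 1) (a + 2) x y z)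

/-- the array of two tuples with one more entry -/
def nr2_X (o : P) (m c : ℕ) (x y : ℕ → P) (u : P) (a b : ℕ) : P :=
  if b = m then x a else if a = m then x (b - 1) else if b = m + 1 then y a else
    if a = m + 1 then y (b - 1) else if a = c ∧ b = c + 1 then u else o

theorem nr2_iff (h : NR o n R) (hu : Uniq n R) {a : ℕ} (ha : a + 2 < n) {x y z : P} :
    R (nr2_tri o a (a + 1) (a + 2) x y z) ↔ y = nr2_mul o R a x z := by
  have h1 : R (nr2_tri o a (a + 1) (a + 2) x (nr2_mul o R a x z) z) := by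
    refine Classical.epsilon_spec (p := fun y => R (nr2_tri o a (a + 1) (a + 2) x y z)) ?_
    obtain ⟨y, hy⟩ := h.kan (nr2_tri o a (a + 1) (a + 2) x o z) (a + 1) (by omega)
    exact ⟨y, h.ext _ _ (fun i _ => by grind [nr2_tri]) hy⟩
  refine ⟨fun h2 => ?_, fun e => e ▸ h1⟩
  have := hu _ _ (a + 1) (by omega) h2 h1 fun i _ hi => by grind [nr2_tri]
  grind [nr2_tri]

theorem nr2_mul_o (h : NR o n R) (hu : Uniq n R) {a : ℕ} (ha : a + 2 < n) (x : P) :
    nr2_mul o R a x o = x :=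
  ((nr2_iff h hu ha).1 (h.ext _ _ (fun i _ => by grind [nr2_tri]) (h.deg x a (by omega)))).symm

theorem nr2_o_mul (h : NR o n R) (hu : Uniq n R) {a : ℕ} (ha : a + 2 < n) (x : P) :
    nr2_mul o R a o x = x :=
  ((nr2_iff h hu ha).1 (h.ext _ _ (fun i _ => by grind [nr2_tri]) (h.deg x (a + 1) ha))).symm

theorem nr2_inv (h : NR o n R) (hu : Uniq n R) {a : ℕ} (ha : a + 2 < n) (x : P) :
    ∃ z, nr2_mul o R a x z = o := by
  obtain ⟨z, hz⟩ := h.kan (nr2_tri o a (a + 1) (a + 2) x o o) (a + 2) ha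
  exact ⟨z, ((nr2_iff h hu ha).1 (h.ext _ _ (fun i _ => by grind [nr2_tri]) hz)).symm⟩

theorem nr2_assoc (h : NR o n R) (hu : Uniq n R) {a : ℕ} (ha : a + 2 < n) (p r u : P) :
    nr2_mul o R a (nr2_mul o R a p r) u = nr2_mul o R a p (nr2_mul o R a r u) := by
  have k := fun x z : P => (nr2_iff h hu ha (x := x) (z := z)).2 rfl
  refine ((nr2_iff h hu ha).1 (h.ext _ _ (fun j _ => ?_) (h.arr (fun i j =>
    if i = a then nr2_tri o (a + 1) (a + 2) (a + 3) p (nr2_mul o R a p r) r j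
    else if i = a + 1 then nr2_tri o (a + 2) (a + 3) (a + 3) (nr2_mul o R a p (nr2_mul o R a r u))
      (nr2_mul o R a r u) o j
    else if i = a + 2 ∧ j = a + 3 then u else o) (a + 2) (by omega) fun i _ hi => ?_))).symm
  · grind [nr2_tri, row]
  · by_cases h0 : i = a
    · exact h.ext _ _ (fun j _ => by grind [nr2_tri, row]) (k p r)
    by_cases h1 : i = a + 1
    · exact h.ext _ _ (fun j _ => by grind [nr2_tri, row]) (k p (nr2_mul o R a r u))
    by_cases h3 : i = a + 3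
    · exact h.ext _ _ (fun j _ => by grind [nr2_tri, row]) (k r u)
    · exact h.ext _ _ (fun j _ => by grind [nr2_tri, row]) (h.deg o 0 (by omega))

theorem nr2_shift (h : NR o n R) {p k c : ℕ}
    (hc : (c = k ∧ k < p ∧ p + 1 < n) ∨ (c = k + 1 ∧ p < k ∧ c < n)) {x y : ℕ → P} (u : P)
    (e : ∀ i, i ≠ k → i ≠ k + 1 → x i = y i) (h0 : R (nr2_tri o p (p + 1) c (x k) (y k) u))
    (h1 : R (nr2_tri o p (p + 1) c (x (k + 1)) (y (k + 1)) u)) : R x ↔ R y := by
  obtain ⟨m, hm⟩ : ∃ m, (c = k ∧ k < p ∧ p + 1 < n ∧ m = p + 1) ∨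
      (c = k + 1 ∧ p < k ∧ c < n ∧ m = p) := by
    rcases hc with hc | hc
    · exact ⟨_, Or.inl ⟨hc.1, hc.2.1, hc.2.2, rfl⟩⟩
    · exact ⟨_, Or.inr ⟨hc.1, hc.2.1, hc.2.2, rfl⟩⟩
  have em : x m = y m := e m (by omega) (by omega)
  have rx : ∀ j, row (nr2_X o m c x y u) m j = x j := fun j => by grind [row, nr2_X]
  have ry : ∀ j, row (nr2_X o m c x y u) (m + 1) j = y j := fun j => by grind [row, nr2_X]
  have key : ∀ i ≤ n, i ≠ m → i ≠ m + 1 → R (row (nr2_X o m c x y u) i) := fun i hi a1 a2 => by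
    by_cases b0 : i = c
    · exact h.ext _ _ (fun j _ => by grind [nr2_tri, row, nr2_X]) h0
    by_cases b1 : i = c + 1
    · exact h.ext _ _ (fun j _ => by grind [nr2_tri, row, nr2_X]) h1
    by_cases b2 : i < m
    · have := e i (by omega) (by omega)
      exact h.ext _ _ (fun j _ => by grind [row, nr2_X]) (h.deg (x i) (m - 1) (by omega))
    · have := e (i - 1) (by omega) (by omega)
      exact h.ext _ _ (fun j _ => by grind [row, nr2_X]) (h.deg (x (i - 1)) m (by omega))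
  refine ⟨fun hx => h.ext _ _ (fun j _ => ry j) (h.arr _ (m + 1) (by omega) fun i hi a => ?_),
    fun hy => h.ext _ _ (fun j _ => rx j) (h.arr _ m (by omega) fun i hi a => ?_)⟩
  · by_cases b : i = m
    · rw [b]
      exact h.ext _ _ (fun j _ => (rx j).symm) hx
    · exact key i hi b a
  · by_cases b : i = m + 1
    · rw [b]
      exact h.ext _ _ (fun j _ => (ry j).symm) hy
    · exact key i hi a b

theorem nr2_left (h : NR o n R) (hu : Uniq n R) {k : ℕ} (hk : k + 2 < n) {x y : ℕ → P} (u : P)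
    (e : ∀ i, i ≠ k → i ≠ k + 1 → x i = y i) (h0 : x k = nr2_mul o R k u (y k))
    (h1 : x (k + 1) = nr2_mul o R k u (y (k + 1))) (hy : R y) : R x :=
  (nr2_shift h (p := k + 1) (Or.inl ⟨rfl, by omega, hk⟩) u e
    (h.ext _ _ (fun j _ => by grind [nr2_tri]) ((nr2_iff h hu hk).2 h0))
    (h.ext _ _ (fun j _ => by grind [nr2_tri]) ((nr2_iff h hu hk).2 h1))).2 hy

theorem nr2_right (h : NR o n R) (hu : Uniq n R) {k : ℕ} (hk : k + 2 < n) {x y : ℕ → P} (u : P)
    (e : ∀ i, i ≠ k + 1 → i ≠ k + 2 → x i = y i) (h0 : y (k + 1) = nr2_mul o R k (x (k + 1)) u)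
    (h1 : y (k + 2) = nr2_mul o R k (x (k + 2)) u) (hx : R x) : R y :=
  (nr2_shift h (p := k) (k := k + 1) (Or.inr ⟨rfl, by omega, hk⟩) u e
    ((nr2_iff h hu hk).2 h0) ((nr2_iff h hu hk).2 h1)).1 hx

theorem nr2_op (h : NR o n R) (hu : Uniq n R) {a : ℕ} (ha : a + 3 < n) (d u : P) :
    nr2_mul o R a d u = nr2_mul o R (a + 1) u d := by
  have := nr2_o_mul h hu (a := a) (by omega) u
  exact (nr2_iff h hu (by omega)).1 (nr2_right h hu (k := a) (by omega) u
    (fun i _ _ => by grind [nr2_tri]) (by grind [nr2_tri]) (by grind [nr2_tri])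
    (h.deg d (a + 2) ha))

theorem nr2_succ (h : NR o n R) (hu : Uniq n R) {a : ℕ} (ha : a + 3 < n) (b v : P) :
    nr2_mul o R a b v = nr2_mul o R (a + 1) b v := by
  obtain ⟨u, e1⟩ := nr2_inv h hu (a := a + 1) (by omega) v
  have e2 := nr2_o_mul h hu (a := a + 1) (by omega) u
  have e3 := nr2_o_mul h hu (a := a) (by omega) v
  have k : ∀ w, R (nr2_tri o a (a + 1) (a + 3) w (nr2_mul o R a w v) u) := fun w =>
    nr2_right h hu (k := a + 1) (by omega) u (fun i _ _ => by grind [nr2_tri])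
      (by grind [nr2_tri]) (by grind [nr2_tri])
      ((nr2_iff h hu (a := a) (by omega) (x := w) (z := v)).2 rfl)
  refine (nr2_iff h hu (by omega)).1 ((nr2_shift h (p := a) (k := a + 2) (c := a + 3)
    (Or.inr ⟨rfl, by omega, ha⟩) u (fun i _ _ => ?_) ?_ ?_).1 (h.deg b (a + 1) (by omega)))
  · grind [nr2_tri]
  · exact h.ext _ _ (fun j _ => by grind [nr2_tri]) (k b)
  · exact h.ext _ _ (fun j _ => by grind [nr2_tri]) (k o)

theorem nr2_all (h : NR o n R) (hu : Uniq n R) {a : ℕ} (ha : a + 2 < n) (b v : P) :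
    nr2_mul o R a b v = nr2_mul o R 0 b v := by
  induction a with
  | zero => rfl
  | succ a ih => rw [← nr2_succ h hu (by omega), ih (by omega)]

theorem NR.group3 (h : NR o 3 R) (hu : Uniq 3 R) :
    ∃ _ : Group P, o = 1 ∧ ∀ x, R x → x 1 = x 2 * x 0 := by
  have ha : 0 + 2 < 3 := by omega
  choose inv hinv using nr2_inv h hu ha
  let _ : Mul P := ⟨fun x y => nr2_mul o R 0 y x⟩
  let _ : One P := ⟨o⟩
  let _ : Inv P := ⟨inv⟩
  refine ⟨Group.ofLeftAxioms (fun a b c => (nr2_assoc h hu ha c b a).symm) (nr2_mul_o h hu ha)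
    hinv, rfl, fun x hx => ?_⟩
  exact (nr2_iff h hu ha).1 (h.ext _ _ (fun j _ => by grind [nr2_tri]) hx)

theorem nr2_sum [AddCommGroup P] (h : NR (0 : P) n R) (hu : Uniq n R) (hn : 2 ≤ n)
    (hs : ∀ k, k + 1 < n → ∀ u x, R x →
      R fun i => x i + ((if i = k then u else 0) + if i = k + 1 then u else 0))
    (x : ℕ → P) (hx : R x) : ∑ i ∈ Finset.range n, (-1 : ℤ) ^ i • x i = 0 := by
  have key : ∀ k < n, ∃ y, R y ∧ (∀ i < k, y i = 0) ∧
      ∑ i ∈ Finset.range n, (-1 : ℤ) ^ i • y i = ∑ i ∈ Finset.range n, (-1 : ℤ) ^ i • x i := by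
    intro k
    induction k with
    | zero => exact fun _ => ⟨x, hx, fun i hi => by omega, rfl⟩
    | succ k ih =>
      intro hk
      obtain ⟨y, a1, a2, a3⟩ := ih (by omega)
      refine ⟨_, hs k hk (-y k) y a1, fun i hi => ?_, ?_⟩
      · by_cases b : i = k
        · simp [b]
        · rw [a2 i (by omega), if_neg b, if_neg (by omega), add_zero, add_zero]
      · have b : k < n := by omega
        simp only [smul_add, Finset.sum_add_distrib, smul_ite, smul_zero, Finset.sum_ite_eq',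
          Finset.mem_range, hk, b, if_true, a3, pow_succ, mul_neg_one, neg_smul, add_neg_cancel,
          add_zero]
  obtain ⟨y, a1, a2, a3⟩ := key (n - 1) (by omega)
  have a4 := hu _ _ (n - 1) (by omega) a1 (h.deg 0 0 (by omega)) fun i _ _ => by
    rw [a2 i (by omega), ite_self]
  rw [← a3]
  refine Finset.sum_eq_zero fun i hi => ?_
  by_cases b : i = n - 1
  · rw [b, a4, ite_self, smul_zero]
  · rw [a2 i (by have := Finset.mem_range.1 hi; omega), smul_zero]

theorem NR.groupn (h : NR o n R) (hu : Uniq n R) (hn : 4 ≤ n) :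
    ∃ _ : AddCommGroup P, o = 0 ∧ ∀ x, R x → ∑ i ∈ Finset.range n, (-1 : ℤ) ^ i • x i = 0 := by
  have ha : 0 + 2 < n := by omega
  choose inv hinv using nr2_inv h hu ha
  let _ : Add P := ⟨nr2_mul o R 0⟩
  let _ : Zero P := ⟨o⟩
  let _ : Neg P := ⟨inv⟩
  let G : AddCommGroup P :=
    { AddGroup.ofRightAxioms (nr2_assoc h hu ha) (nr2_mul_o h hu ha) hinv with
      add_comm := fun a b => (nr2_op h hu (a := 0) (by omega) a b).trans
        (nr2_succ h hu (a := 0) (by omega) b a).symm }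
  refine ⟨G, rfl, nr2_sum h hu (by omega) fun k hk u x hx => ?_⟩
  have e : ∀ j, j + 2 < n → ∀ a b, nr2_mul o R j a b = a + b := fun j hj => nr2_all h hu hj
  by_cases b : k + 2 < n
  · refine nr2_left h hu b u (fun i a1 a2 => ?_) ?_ ?_ hx
    · rw [if_neg a1, if_neg a2, add_zero, add_zero]
    · rw [e k b, if_pos rfl, if_neg (by omega), add_zero, add_comm]
    · rw [e k b, if_pos rfl, if_neg (by omega), zero_add, add_comm]
  · obtain ⟨k, rfl⟩ : ∃ j, k = j + 1 := ⟨k - 1, by omega⟩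
    refine nr2_right h hu hk u (fun i a1 a2 => ?_) ?_ ?_ hx
    · rw [if_neg a1, if_neg a2, add_zero, add_zero]
    · rw [e k hk, if_pos rfl, if_neg (by omega), add_zero]
    · rw [e k hk, if_pos rfl, if_neg (by omega), zero_add]

theorem NR.of_triv (h : NR o n R) (hn : 2 ≤ n) {Q : Type} {π : P → Q} {R' : (ℕ → Q) → Prop}
    (h' : NR (π o) n R') (e : ∀ x, R x ↔ R' (π ∘ x)) (t : ∀ x, π x = π o) (x : ℕ → P) : R x :=
  (e x).2 (h'.ext _ _ (fun i _ => by simp [t (x i)]) (h'.deg (π o) 0 (by omega)))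

theorem NR.all3 (h : NR o 3 R)
    (H : ∀ (G : Type) [Group G] (f : P → G), (∀ x, R x → f (x 1) = f (x 2) * f (x 0)) →
      ∀ x, f x = 1) (x : ℕ → P) : R x := by
  obtain ⟨Q, π, R', h', hu, e⟩ := h.quot (by omega)
  obtain ⟨_, h1, hm⟩ := h'.group3 hu
  refine h.of_triv (by omega) h' e (fun y => ?_) x
  rw [h1]
  exact H Q π (fun x hx => hm _ ((e x).1 hx)) y

theorem NR.alln (h : NR o n R) (hn : 4 ≤ n)
    (H : ∀ (A : Type) [AddCommGroup A] (f : P → A), f o = 0 →
      (∀ x, R x → ∑ i ∈ Finset.range n, (-1 : ℤ) ^ i • f (x i) = 0) → ∀ x, f x = 0)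
    (x : ℕ → P) : R x := by
  obtain ⟨Q, π, R', h', hu, e⟩ := h.quot (by omega)
  obtain ⟨_, h1, hm⟩ := h'.groupn hu hn
  refine h.of_triv (by omega) h' e (fun y => ?_) x
  rw [h1]
  exact H Q π h1 (fun x hx => hm _ ((e x).1 hx)) y

end Pool.Agent.P.MP_878f14_gt.HT.Q
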