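import Pool.Agent.P.MP_878f14_gt.HT.Q.Prism
import Pool.Agent.P.MP_878f14_gt.HT.Q.NR2

/-! The vanishing form of the Hurewicz theorem. -/

namespace Pool.Agent.P.MP_878f14_gt.HT.Q.SK

variable {S : SK}

/-- the simplices with trivial boundary -/
def Sph (S : SK) (p : ℕ) : Type := {x : S.X (p + 1) // ∀ a ≤ p + 1, S.d a x = S.z p}

def Sph.o (S : SK) (p : ℕ) : S.Sph p := ⟨S.z _, fun a _ => S.dz p a⟩

/-- the tuples that bound -/
def Bd (S : SK) (p : ℕ) (x : ℕ → S.Sph p) : Prop :=
  ∃ w : S.X (p + 2), ∀ a ≤ p + 2, S.d a w = (x a).1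

theorem nr_sph {p : ℕ} (hK : S.Kan p) (hK' : S.Kan (p + 1)) (hD : S.Deg p) :
    NR (Sph.o S p) (p + 3) (S.Bd p) where
  ext := fun x y hxy ⟨w, hw⟩ => ⟨w, fun a ha => by rw [hw a ha, hxy a (by omega)]⟩
  deg := fun x q hq => by
    obtain ⟨w, hw⟩ := hD x.1 x.2 q (by omega)
    refine ⟨w, fun a ha => ?_⟩
    rw [hw a ha]
    beta_reduce
    split_ifs <;> rfl
  kan := fun x q hq => by
    obtain ⟨w, hw⟩ := hK q (by omega) (fun a => (x a).1) (fun a b hab hb _ _ => by
      rw [(x (b + 1)).2 a (by omega), (x a).2 b hb])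
    refine ⟨⟨S.d q w, fun a ha => ?_⟩, w, fun a ha => ?_⟩
    · by_cases h : a < q
      · obtain ⟨b, rfl⟩ : ∃ b, q = b + 1 := ⟨q - 1, by omega⟩
        rw [S.dd w (by omega : a ≤ b) (by omega), hw a (by omega) (by omega)]
        exact (x a).2 b (by omega)
      · rw [← S.dd w (by omega : q ≤ a) ha, hw (a + 1) (by omega) (by omega)]
        exact (x (a + 1)).2 q (by omega)
    · by_cases h : a = q
      · subst h
        rw [Function.update_self]
      · rw [Function.update_of_ne h, hw a ha h]
  arr := fun X r hr H => by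
    have H' : ∀ i, ∃ w : S.X (p + 2), i ≤ p + 3 → i ≠ r → ∀ a ≤ p + 2, S.d a w = (row X i a).1 := by
      intro i
      by_cases h : i ≤ p + 3 ∧ i ≠ r
      · obtain ⟨w, hw⟩ := H i h.1 h.2
        exact ⟨w, fun _ _ => hw⟩
      · exact ⟨S.z _, fun h1 h2 => absurd ⟨h1, h2⟩ h⟩
    choose w hw using H'
    obtain ⟨W, hW⟩ := hK' r hr w (fun a b hab hb ha hb' => by
      rw [hw (b + 1) (by omega) hb' a (by omega), hw a (by omega) ha b hb, row, row,
        if_pos (by omega), if_neg (by omega)])
    refine ⟨S.d r W, fun j hj => ?_⟩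
    by_cases h : j < r
    · obtain ⟨b, rfl⟩ : ∃ b, r = b + 1 := ⟨r - 1, by omega⟩
      rw [S.dd W (by omega : j ≤ b) (by omega), hW j (by omega) (by omega),
        hw j (by omega) (by omega) b (by omega), row, row, if_neg (by omega), if_pos h]
    · rw [← S.dd W (by omega : r ≤ j) hj, hW (j + 1) (by omega) (by omega),
        hw (j + 1) (by omega) (by omega) r (by omega), row, row, if_pos (by omega), if_neg h]

theorem KH_prism_mono {N : ℕ} {h : ∀ p, ℕ → S.X p → S.X (p + 1)} {δ : ∀ p, ℕ → S.X p → S.X p}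
    (hP : S.Prism (N + 1) h δ) : S.Prism N h δ where
  zero p hp := hP.zero p (by omega)
  lo p hp := hP.lo p (by omega)
  hi p hp := hP.hi p (by omega)
  lt p hp := hP.lt p (by omega)
  gt p hp := hP.gt p (by omega)
  diag p hp := hP.diag p (by omega)
  hz p hp := hP.hz p (by omega)

theorem KH_delta_z {N : ℕ} {h : ∀ p, ℕ → S.X p → S.X (p + 1)} {δ : ∀ p, ℕ → S.X p → S.X p}
    (hP : S.Prism N h δ) {p : ℕ} (hp : p ≤ N) {j : ℕ} (hj : j ≤ p + 1) :
    δ p j (S.z p) = S.z p := by
  cases j with
  | zero => exact hP.zero p hp _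
  | succ i => rw [← hP.hi p hp i (by omega), hP.hz p hp, S.dz]

theorem KH_two {A : Type} [AddCommGroup A] {n i : ℕ} (hi : i + 1 < n) (g : ℕ → A)
    (h0 : ∀ l < n, l ≠ i → l ≠ i + 1 → g l = 0)
    (h : ∑ l ∈ Finset.range n, (-1 : ℤ) ^ l • g l = 0) : g i = g (i + 1) := by
  rw [Finset.sum_eq_add_of_mem i (i + 1) (Finset.mem_range.2 (by omega))
    (Finset.mem_range.2 hi) (by omega) (fun l hl hne => by
      rw [h0 l (Finset.mem_range.1 hl) hne.1 hne.2, smul_zero]), pow_succ, mul_neg_one, neg_smul,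
    ← sub_eq_add_neg, ← smul_sub] at h
  rcases neg_one_pow_eq_or ℤ i with h1 | h1 <;> rw [h1] at h
  · exact sub_eq_zero.1 (by simpa using h)
  · exact sub_eq_zero.1 (by rwa [neg_smul, one_smul, neg_eq_zero] at h)

theorem fill_of (hK : ∀ p, S.Kan p) (hD : ∀ p, S.Deg p) (hE : S.Edge) (c : ℕ)
    (hC : ∀ p, 1 ≤ p → p < c → S.Coc p) : ∀ p < c, S.Fill p := by
  intro p
  induction p using Nat.strong_induction_on with
  | _ p ih =>
  intro hpc
  obtain ⟨h, δ, hP, hz⟩ := exists_prism hK p (p + 2) (fun q hq => ih q hq (by omega))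
  have hN := nr_sph (hK p) (hK (p + 1)) (hD p)
  let D : S.X (p + 1) → S.Sph p := fun x => ⟨δ (p + 1) (p + 2) x, fun l hl => by
    rw [hP.diag p (by omega) (p + 2) le_rfl l hl, if_pos (by omega)]
    exact hz p le_rfl (by omega) _⟩
  have hall : ∀ x, S.Bd p x := by
    rcases Nat.eq_zero_or_pos p with rfl | hp
    · refine hN.all3 fun G _ f hf x => ?_
      exact hE G (fun e => f ⟨e, fun a _ => S.uniq _⟩)
        (fun w => hf (fun a => ⟨S.d a w, fun b _ => S.uniq _⟩) ⟨w, fun a _ => rfl⟩) x.1
    · refine hN.alln (by omega) fun A _ f f0 hf x => ?_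
      have h1 : f (D x.1) = f (D (S.z _)) := by
        refine hC p hp hpc A (fun y => f (D y)) (fun w => hf (fun a => D (S.d a w))
          ⟨δ (p + 2) (p + 3) w, fun l hl => ?_⟩) _ _ (fun a ha => by rw [x.2 a ha, S.dz])
        rw [hP.diag (p + 1) le_rfl (p + 3) le_rfl l hl, if_pos (by omega)]
        rfl
      have h2 : D (S.z _) = Sph.o S p := Subtype.ext (KH_delta_z hP (by omega) le_rfl)
      have hs : ∀ i ≤ p + 2, ∀ l ≤ p + 1, S.d l (δ (p + 1) i x.1) = S.z p := by
        intro i hi l hl
        rw [hP.diag p (by omega) i hi l hl, x.2 l hl]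
        split_ifs with hli
        · exact KH_delta_z hP (by omega) (by omega)
        · exact KH_delta_z hP (by omega) (by omega)
      have h3 : ∀ i (hi : i ≤ p + 2), f ⟨δ (p + 1) i x.1, hs i hi⟩ = f x := by
        intro i
        induction i with
        | zero => exact fun _ => congrArg f (Subtype.ext (hP.zero (p + 1) (by omega) _))
        | succ i ih' =>
          intro hi
          rw [← ih' (by omega)]
          let t : ℕ → S.Sph p := fun l => if l = i then ⟨δ (p + 1) i x.1, hs i (by omega)⟩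
            else if l = i + 1 then ⟨δ (p + 1) (i + 1) x.1, hs _ hi⟩ else Sph.o S p
          have ht : S.Bd p t := by
            refine ⟨h (p + 1) i x.1, fun l hl => ?_⟩
            by_cases e1 : l = i
            · simp only [t, if_pos e1]
              rw [e1]
              exact hP.lo (p + 1) (by omega) i (by omega) _
            by_cases e2 : l = i + 1
            · simp only [t, if_neg e1, if_pos e2]
              rw [e2]
              exact hP.hi (p + 1) (by omega) i (by omega) _
            simp only [t, if_neg e1, if_neg e2]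
            by_cases e3 : l < i
            · rw [hP.lt p (by omega) i (by omega) l e3, x.2 l (by omega)]
              exact hP.hz p (by omega) _
            · rw [hP.gt p (by omega) i l (by omega) hl, x.2 (l - 1) (by omega)]
              exact hP.hz p (by omega) _
          have := KH_two (n := p + 3) (i := i) (by omega) (fun l => f (t l))
            (fun l _ e1 e2 => by simp only [t, if_neg e1, if_neg e2]; exact f0) (hf t ht)
          simp only [t, if_pos, if_neg (Nat.succ_ne_self i)] at this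
          exact this.symm
      rw [← h3 (p + 2) le_rfl]
      exact h1.trans (h2 ▸ f0)
  intro s hs
  obtain ⟨v, hv⟩ := hall fun a => D (s a)
  exact fill_down (p := p + 1) (KH_prism_mono hP) (hK (p + 1)) hs hv

end Pool.Agent.P.MP_878f14_gt.HT.Q.SK
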