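import Pool.Agent.P.MP_878f14_gt.HT.Q.Raw

/-! The collaring map of the simplices, and structures on simplices. -/

namespace Pool.Agent.P.MP_878f14_gt.HT.Q

open Filter Topology Function
open scoped ContDiff

noncomputable section

abbrev Sx (p : ℕ) : Type := stdSimplex ℝ (Fin (p + 1))

variable {n p q r : ℕ}

open Classical in
/-- a vector as a point of the simplex -/
def toS (v : Fin (p + 1) → ℝ) : Sx p :=
  if h : v ∈ stdSimplex ℝ (Fin (p + 1)) then ⟨v, h⟩ else stdSimplex.vertex 0

theorem toS_val {v : Fin (p + 1) → ℝ} (h : v ∈ stdSimplex ℝ (Fin (p + 1))) : (toS v).1 = v := by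
  rw [toS, dif_pos h]

theorem toS_coe (t : Sx p) : toS t.1 = t := Subtype.ext (toS_val t.2)

theorem continuousAt_toS {X : Type} [TopologicalSpace X] {v : X → Fin (p + 1) → ℝ} {x : X}
    (hv : ContinuousAt v x) (h : ∀ᶠ y in 𝓝 x, v y ∈ stdSimplex ℝ (Fin (p + 1))) :
    ContinuousAt (fun y => toS (v y)) x :=
  IsInducing.subtypeVal.continuousAt_iff.2 (hv.congr (h.mono fun _ hy => (toS_val hy).symm))

variable {I J : Type} [Fintype I] [Fintype J]

/-- vanishes exactly when `t i` is at most half the sum of the squares -/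
def lam (t : I → ℝ) (i : I) : ℝ := expNegInvGlue (t i - (∑ j, t j ^ 2) / 2)

/-- the collaring map -/
def kv (t : I → ℝ) (i : I) : ℝ := lam t i / ∑ j, lam t j

theorem kap_lam_nonneg (t : I → ℝ) (i : I) : 0 ≤ lam t i := expNegInvGlue.nonneg _

theorem kap_sum_pos {t : I → ℝ} (h : ∑ j, t j = 1) (h0 : ∀ j, 0 ≤ t j) : 0 < ∑ j, lam t j := by
  obtain ⟨i, -, hi⟩ := Finset.exists_max_image Finset.univ t
    (Finset.nonempty_of_sum_ne_zero (h.trans_ne one_ne_zero))
  have h1 : ∑ j, t j ^ 2 ≤ t i := by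
    rw [← one_mul (t i), ← h, Finset.sum_mul]
    exact Finset.sum_le_sum fun j hj => by
      rw [sq]
      exact mul_le_mul_of_nonneg_left (hi j hj) (h0 j)
  have h2 : 0 < t i := by
    by_contra h2
    have := Finset.sum_nonpos (s := Finset.univ) fun j hj => (hi j hj).trans (not_lt.1 h2)
    linarith
  exact Finset.sum_pos' (fun j _ => kap_lam_nonneg t j)
    ⟨i, Finset.mem_univ i, expNegInvGlue.pos_of_pos (by linarith)⟩

theorem kv_mem {t : I → ℝ} (h : ∑ j, t j = 1) (h0 : ∀ j, 0 ≤ t j) : kv t ∈ stdSimplex ℝ I := by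
  have h1 := kap_sum_pos h h0
  refine ⟨fun i => div_nonneg (kap_lam_nonneg t i) h1.le, ?_⟩
  simp only [kv]
  rw [← Finset.sum_div, div_self h1.ne']

theorem kap_contDiff_lam (i : I) : ContDiff ℝ ∞ fun t : I → ℝ => lam t i :=
  expNegInvGlue.contDiff.comp ((contDiff_apply ℝ ℝ i).sub
    ((ContDiff.sum fun j _ => (contDiff_apply ℝ ℝ j).pow 2).div_const 2))

theorem sm_kv {t : I → ℝ} (h : t ∈ stdSimplex ℝ I) : Sm (kv : (I → ℝ) → I → ℝ) t := by
  have h1 : ContDiff ℝ ∞ fun t : I → ℝ => ∑ j, lam t j := ContDiff.sum fun j _ => kap_contDiff_lam j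
  filter_upwards [h1.continuous.continuousAt.eventually_ne (kap_sum_pos h.2 h.1).ne'] with v hv
  exact contDiffAt_pi.2 fun i => (kap_contDiff_lam i).contDiffAt.div h1.contDiffAt hv

theorem kv_eq_zero {t : I → ℝ} {i : I} (h : t i ≤ (∑ j, t j ^ 2) / 2) : kv t i = 0 := by
  rw [kv, lam, expNegInvGlue.zero_of_nonpos (sub_nonpos.2 h), zero_div]

/-- extension by zero -/
def ext0 (f : I → J) (t : I → ℝ) : J → ℝ := FunOnFinite.map f t

theorem ext0_apply {f : I → J} (hf : Injective f) (t : I → ℝ) (i : I) : ext0 f t (f i) = t i := by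
  classical
  rw [ext0, FunOnFinite.map_apply_apply, Finset.sum_eq_single i
    (fun b hb hn => (hn (hf (Finset.mem_filter.1 hb).2)).elim) fun hn => (hn (by simp)).elim]

theorem ext0_of_not_mem {f : I → J} (t : I → ℝ) {j : J} (h : j ∉ Set.range f) :
    ext0 f t j = 0 := by
  classical
  rw [ext0, FunOnFinite.map_apply_apply]
  exact Finset.sum_eq_zero fun i hi => (h ⟨i, (Finset.mem_filter.1 hi).2⟩).elim

theorem contDiff_ext0 (f : I → J) : ContDiff ℝ ∞ (ext0 f) :=
  (LinearMap.toContinuousLinearMap (FunOnFinite.linearMap ℝ ℝ f)).contDiff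

theorem map_val (f : Fin (p + 1) → Fin (q + 1)) (t : Sx p) : (stdSimplex.map f t).1 = ext0 f t.1 :=
  rfl

theorem kv_ext0 {f : I → J} (hf : Injective f) (t : I → ℝ) : kv (ext0 f t) = ext0 f (kv t) := by
  have h1 : ∑ i, t i ^ 2 = ∑ j, ext0 f t j ^ 2 := Fintype.sum_of_injective f hf _ _
    (fun j hj => by rw [ext0_of_not_mem t hj, sq, mul_zero]) fun i => by rw [ext0_apply hf]
  have h2 : ∀ i, lam (ext0 f t) (f i) = lam t i := fun i => by rw [lam, lam, ext0_apply hf, h1]
  have h3 : ∀ j ∉ Set.range f, lam (ext0 f t) j = 0 := fun j hj => by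
    rw [lam, ext0_of_not_mem t hj]
    exact expNegInvGlue.zero_of_nonpos (sub_nonpos.2 (by positivity))
  have h4 : ∑ i, lam t i = ∑ j, lam (ext0 f t) j :=
    Fintype.sum_of_injective f hf _ _ h3 fun i => (h2 i).symm
  funext j
  by_cases hj : j ∈ Set.range f
  · obtain ⟨i, rfl⟩ := hj
    rw [ext0_apply hf, kv, kv, h2, h4]
  · rw [ext0_of_not_mem _ hj, kv, h3 j hj, zero_div]

/-- the collaring map of the simplex -/
def kS (t : Sx p) : Sx p := ⟨kv t.1, kv_mem t.2.2 t.2.1⟩

theorem continuous_kS : Continuous (kS : Sx p → Sx p) :=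
  Continuous.subtype_mk (continuous_iff_continuousAt.2 fun t : Sx p =>
    (sm_kv t.2).self_of_nhds.continuousAt.comp continuousAt_subtype_val) _

theorem kS_map {f : Fin (p + 1) → Fin (q + 1)} (hf : Injective f) (t : Sx p) :
    kS (stdSimplex.map f t) = stdSimplex.map f (kS t) := Subtype.ext (kv_ext0 hf t.1)

/-- structures on the simplex -/
def St (n p : ℕ) : Type := {F : Rw n (Sx p) // ∀ t, IsAt Subtype.val F t}

theorem val_inducing : IsInducing (Subtype.val : Sx p → Fin (p + 1) → ℝ) := IsInducing.subtypeVal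

/-- pull-back by a map of vertices -/
def St.pi (f : Fin (p + 1) → Fin (q + 1)) (σ : St n q) : St n p :=
  ⟨pb (stdSimplex.map f) σ.1, fun t => (σ.2 _).pb val_inducing continuous_subtype_val (ext0 f)
    (sm_of (contDiff_ext0 f) _) (.of_forall fun _ => rfl)⟩

/-- collaring -/
def St.kap (σ : St n p) : St n p :=
  ⟨pb kS σ.1, fun t => (σ.2 _).pb val_inducing continuous_subtype_val kv (sm_kv t.2)
    (.of_forall fun _ => rfl)⟩

/-- the trivial structure -/
def St.z (n p : ℕ) : St n p := ⟨hor, isAt_hor _⟩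

theorem St.pi_pi (f : Fin (p + 1) → Fin (q + 1)) (g : Fin (q + 1) → Fin (r + 1)) (σ : St n r) :
    (σ.pi g).pi f = σ.pi (g ∘ f) :=
  Subtype.ext (funext fun t => (pb_pb (stdSimplex.continuous_map f).continuousAt _ _).trans
    (congrArg (fun m => pb m σ.1 t) (funext fun s => stdSimplex.map_comp_apply f g s)))

theorem St.pi_id (σ : St n p) : σ.pi id = σ :=
  Subtype.ext (funext fun t => (congrArg (fun m => pb m σ.1 t)
    (funext fun s => stdSimplex.map_id_apply s)).trans (pb_id (σ.2 t).le_nb))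

theorem St.pi_kap {f : Fin (p + 1) → Fin (q + 1)} (hf : Injective f) (σ : St n q) :
    σ.kap.pi f = (σ.pi f).kap :=
  Subtype.ext (funext fun t => (pb_pb (stdSimplex.continuous_map f).continuousAt _ _).trans
    ((congrArg (fun m => pb m σ.1 t) (funext fun s => kS_map hf s)).trans
      (pb_pb continuous_kS.continuousAt (stdSimplex.map f) σ.1).symm))

theorem St.pi_z (f : Fin (p + 1) → Fin (q + 1)) : (St.z n q).pi f = St.z n p :=
  Subtype.ext (funext fun _ => pb_hor (stdSimplex.continuous_map f).continuousAt)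

theorem St.kap_z : (St.z n p).kap = St.z n p :=
  Subtype.ext (funext fun _ => pb_hor continuous_kS.continuousAt)

theorem St.uniq (σ : St n 0) : σ = St.z n 0 :=
  Subtype.ext (funext fun t => (pb_id (σ.2 t).le_nb).symm.trans ((σ.2 t).pb_const
    (.of_forall fun s => stdSimplex.ext (funext fun x =>
      (stdSimplex.eq_one_of_unique (X := Fin 1) s x).trans
        (stdSimplex.eq_one_of_unique (X := Fin 1) t x).symm))))

theorem St.iter_kap (m : ℕ) (σ : St n p) : (St.kap^[m] σ).1 = pb (kS^[m]) σ.1 := by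
  induction m with
  | zero => exact funext fun t => (pb_id (σ.2 t).le_nb).symm
  | succ m ih =>
    rw [iterate_succ_apply', iterate_succ]
    funext t
    rw [← pb_pb continuous_kS.continuousAt, ← ih]
    rfl

/-- a natural number as an index -/
def cl (p a : ℕ) : Fin (p + 2) := ⟨min a (p + 1), by omega⟩

theorem cl_val {a : ℕ} (h : a ≤ p + 1) : (cl p a).1 = a := min_eq_left h

theorem cl_coe (j : Fin (p + 2)) : cl p j.1 = j := Fin.ext (cl_val (by omega))

theorem sa_cl {a b : ℕ} (hab : a ≤ b) (hb : b ≤ p + 1) :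
    (cl (p + 1) (b + 1)).succAbove ∘ (cl p a).succAbove =
      (cl (p + 1) a).succAbove ∘ (cl p b).succAbove := by
  have h1 := cl_val (p := p + 1) (a := b + 1) (by omega)
  have h2 := cl_val (p := p) (a := a) (by omega)
  have h3 := cl_val (p := p + 1) (a := a) (by omega)
  have h4 := cl_val (p := p) hb
  have key : ∀ {k : ℕ} (c : Fin (k + 1)) (x : Fin k),
      (c.succAbove x).1 = if x.1 < c.1 then x.1 else x.1 + 1 := fun c x => by
    rw [Fin.succAbove]
    simp only [Fin.lt_def, Fin.val_castSucc]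
    split_ifs <;> rfl
  funext x
  refine Fin.ext ?_
  simp only [comp, key, h1, h2, h3, h4]
  split_ifs <;> omega

end

end Pool.Agent.P.MP_878f14_gt.HT.Q
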