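import Pool.Agent.P.MP_878f14_gt.HT.Q.SO5
import Pool.Agent.P.MP_878f14_gt.HT.Q.Ext2
import Pool.Agent.P.MP_878f14_gt.HT.Q.Inst

/-! The two literal statements, from the homological statement. -/

namespace Pool.Agent.P.MP_878f14_gt.HT.Q

open Filter Topology Function

theorem null_of_conn {n c : ℕ} (h : D.Conn n c) {V : Type} [NormedAddCommGroup V]
    [NormedSpace ℝ V] [FiniteDimensional ℝ V] {S : Set V} (hS : IsCompact S)
    (hd : dimH S < ((c + 1 : ℕ) : ENNReal)) {F : Fam n S} (hF : IsStr F) : NullHtp F := by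
  obtain ⟨G, hG⟩ := exists_ext hS (isStr_iff.1 hF)
  exact nullHtp_of_conc (conc_hor (wfill_st h) hS hd fun x hx => (hG ⟨x, hx⟩).1)
    fun t => (hG t).2

theorem susp_of_conn (h : D.Conn 5 7) : NullHtp (susp 5) := null_SO5 (wfill_st h)

end Pool.Agent.P.MP_878f14_gt.HT.Q
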