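import Mathlib

/-! The homotopy addition theorem as a statement about an `n`-ary relation. -/

namespace Pool.Agent.P.MP_878f14_gt.HT.Q

open Function

variable {P : Type}

/-- the `i`-th row of the symmetric array with entries `X a b`, `a < b`, the diagonal left out -/
def row (X : ℕ → ℕ → P) (i j : ℕ) : P := if j < i then X j i else X i (j + 1)

/-- only the first `n` entries of a tuple matter; degenerate tuples; horns; arrays -/
structure NR (o : P) (n : ℕ) (R : (ℕ → P) → Prop) : Prop where
  ext : ∀ x y, (∀ i < n, x i = y i) → R x → R y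
  deg : ∀ x p, p + 1 < n → R fun i => if i = p ∨ i = p + 1 then x else o
  kan : ∀ x p, p < n → ∃ y, R (update x p y)
  arr : ∀ (X : ℕ → ℕ → P) (r : ℕ), r ≤ n → (∀ i ≤ n, i ≠ r → R (row X i)) → R (row X r)

/-- every entry is determined by the others -/
def Uniq (n : ℕ) (R : (ℕ → P) → Prop) : Prop :=
  ∀ x y j, j < n → R x → R y → (∀ i < n, i ≠ j → x i = y i) → x j = y j

variable {o : P} {n : ℕ} {R : (ℕ → P) → Prop}

/-- the tuple with `x` at `p`, `y` at `p + 1` and `o` elsewhere -/
def NR_two (o : P) (p : ℕ) (x y : P) (i : ℕ) : P := if i = p then x else if i = p + 1 then y else o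

/-- the array whose rows `m`, `m + 1` are `x`, `y` -/
def NR_arr (o : P) (m : ℕ) (x y : ℕ → P) (a b : ℕ) : P :=
  if a = m then x (b - 1) else if a = m + 1 then y (b - 1)
  else if b = m then x a else if b = m + 1 then y a else o

theorem NR_refl (h : NR o n R) (a : P) (p : ℕ) (hp : p + 1 < n) : R (NR_two o p a a) := by
  refine h.ext _ _ (fun i _ => ?_) (h.deg a p hp)
  unfold NR_two
  by_cases h1 : i = p
  · simp [h1]
  · by_cases h2 : i = p + 1
    · simp [h2]
    · simp [h1, h2]

theorem NR_row_m (m : ℕ) (x y : ℕ → P) (j : ℕ) : row (NR_arr o m x y) m j = x j := by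
  unfold row NR_arr
  by_cases h1 : j < m
  · rw [if_pos h1, if_neg (by omega), if_neg (by omega), if_pos rfl]
  · rw [if_neg h1, if_pos rfl, Nat.add_sub_cancel]

theorem NR_row_succ (m : ℕ) (x y : ℕ → P) (hxy : x m = y m) (j : ℕ) :
    row (NR_arr o m x y) (m + 1) j = y j := by
  unfold row NR_arr
  by_cases h1 : j < m + 1
  · rw [if_pos h1]
    by_cases h2 : j = m
    · rw [if_pos h2, Nat.add_sub_cancel, h2, hxy]
    · rw [if_neg h2, if_neg (by omega), if_neg (by omega), if_pos rfl]
  · rw [if_neg h1, if_neg (by omega), if_pos rfl, Nat.add_sub_cancel]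

theorem NR_row_lt (m : ℕ) (x y : ℕ → P) (i : ℕ) (hi : i < m) (j : ℕ) :
    row (NR_arr o m x y) i j = NR_two o (m - 1) (x i) (y i) j := by
  unfold row NR_arr NR_two
  by_cases h1 : j < i
  · rw [if_pos h1, if_neg (by omega), if_neg (by omega), if_neg (by omega), if_neg (by omega),
      if_neg (by omega), if_neg (by omega)]
  · rw [if_neg h1, if_neg (by omega), if_neg (by omega)]
    by_cases h2 : j + 1 = m
    · rw [if_pos h2, if_pos (by omega)]
    · rw [if_neg h2, if_neg (show ¬ j = m - 1 by omega)]
      by_cases h3 : j + 1 = m + 1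
      · rw [if_pos h3, if_pos (by omega)]
      · rw [if_neg h3, if_neg (by omega)]

theorem NR_row_gt (m : ℕ) (x y : ℕ → P) (i : ℕ) (hi : m + 1 < i) (j : ℕ) :
    row (NR_arr o m x y) i j = NR_two o m (x (i - 1)) (y (i - 1)) j := by
  unfold row NR_arr NR_two
  by_cases h1 : j < i
  · rw [if_pos h1]
    by_cases h2 : j = m
    · rw [if_pos h2, if_pos h2]
    · rw [if_neg h2, if_neg h2]
      by_cases h3 : j = m + 1
      · rw [if_pos h3, if_pos h3]
      · rw [if_neg h3, if_neg h3, if_neg (by omega), if_neg (by omega)]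
  · rw [if_neg h1, if_neg (by omega), if_neg (by omega), if_neg (by omega), if_neg (by omega),
      if_neg (by omega), if_neg (by omega)]

/-- for tuples equal off `j`: two of the three statements give the third -/
theorem NR_key (h : NR o n R) (hn : 2 ≤ n) (x y : ℕ → P) (j : ℕ) (hj : j < n)
    (hxy : ∀ i, i ≠ j → x i = y i) :
    (R x → R y → R (NR_two o 0 (x j) (y j))) ∧ (R x → R (NR_two o 0 (x j) (y j)) → R y) ∧
      (R y → R (NR_two o 0 (x j) (y j)) → R x) := by
  obtain ⟨m, r, hm, hmj, hr, hr1, hr2, hrow, hoth⟩ : ∃ m r : ℕ, m < n ∧ m ≠ j ∧ r ≤ n ∧ r ≠ m ∧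
      r ≠ m + 1 ∧ (∀ k, row (NR_arr o m x y) r k = NR_two o 0 (x j) (y j) k) ∧
      ∀ i ≤ n, i ≠ r → i ≠ m → i ≠ m + 1 → R (row (NR_arr o m x y) i) := by
    rcases Nat.eq_zero_or_pos j with rfl | hpos
    · refine ⟨1, 0, by omega, by omega, by omega, by omega, by omega,
        fun k => NR_row_lt 1 x y 0 (by omega) k, fun i hi h1 h2 h3 => ?_⟩
      refine h.ext _ _ (fun k _ => (NR_row_gt 1 x y i (by omega) k).symm) ?_
      rw [← hxy (i - 1) (by omega)]
      exact NR_refl h _ 1 (by omega)
    · refine ⟨0, j + 1, by omega, by omega, by omega, by omega, by omega,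
        fun k => NR_row_gt 0 x y (j + 1) (by omega) k, fun i hi h1 h2 h3 => ?_⟩
      refine h.ext _ _ (fun k _ => (NR_row_gt 0 x y i (by omega) k).symm) ?_
      rw [← hxy (i - 1) (by omega)]
      exact NR_refl h _ 0 (by omega)
  have e1 : row (NR_arr o m x y) m = x := funext (NR_row_m m x y)
  have e2 : row (NR_arr o m x y) (m + 1) = y := funext (NR_row_succ m x y (hxy m hmj))
  have e3 : row (NR_arr o m x y) r = NR_two o 0 (x j) (y j) := funext hrow
  refine ⟨fun hx hy => ?_, fun hx hs => ?_, fun hy hs => ?_⟩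
  · rw [← e3]
    refine h.arr _ r hr fun i hi hir => ?_
    by_cases h1 : i = m
    · rw [h1, e1]; exact hx
    · by_cases h2 : i = m + 1
      · rw [h2, e2]; exact hy
      · exact hoth i hi hir h1 h2
  · rw [← e2]
    refine h.arr _ (m + 1) (by omega) fun i hi hir => ?_
    by_cases h1 : i = m
    · rw [h1, e1]; exact hx
    · by_cases h2 : i = r
      · rw [h2, e3]; exact hs
      · exact hoth i hi h2 h1 hir
  · rw [← e1]
    refine h.arr _ m (by omega) fun i hi hir => ?_
    by_cases h1 : i = m + 1
    · rw [h1, e2]; exact hy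
    · by_cases h2 : i = r
      · rw [h2, e3]; exact hs
      · exact hoth i hi h2 hir h1

theorem NR_two_off (a b c : P) (i : ℕ) (hi : i ≠ 1) : NR_two o 0 a b i = NR_two o 0 a c i := by
  unfold NR_two
  by_cases h1 : i = 0
  · rw [if_pos h1, if_pos h1]
  · rw [if_neg h1, if_neg h1, if_neg (by omega), if_neg (by omega)]

theorem NR_two_one (a b : P) : NR_two o 0 a b 1 = b := by
  unfold NR_two
  rw [if_neg (by omega), if_pos (by omega)]

/-- the equivalence relation on entries -/
def NR_setoid (h : NR o n R) (hn : 2 ≤ n) : Setoid P where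
  r a b := R (NR_two o 0 a b)
  iseqv := by
    refine ⟨fun a => NR_refl h a 0 (by omega), fun {a b} hab => ?_, fun {a b c} hab hbc => ?_⟩
    · refine (NR_key h hn (NR_two o 0 b a) (NR_two o 0 b b) 1 (by omega)
        (NR_two_off b a b)).2.2 (NR_refl h b 0 (by omega)) ?_
      rw [NR_two_one, NR_two_one]; exact hab
    · refine (NR_key h hn (NR_two o 0 a b) (NR_two o 0 a c) 1 (by omega)
        (NR_two_off a b c)).2.1 hab ?_
      rw [NR_two_one, NR_two_one]; exact hbc

theorem NR_entry (h : NR o n R) (hn : 2 ≤ n) (x y : ℕ → P)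
    (hxy : ∀ i < n, R (NR_two o 0 (x i) (y i))) (hx : R x) : R y := by
  have key : ∀ k ≤ n, R fun i => if i < k then y i else x i := by
    intro k
    induction k with
    | zero => intro _; simpa using hx
    | succ k ih =>
      intro hk
      refine (NR_key h hn (fun i => if i < k then y i else x i)
        (fun i => if i < k + 1 then y i else x i) k (by omega) fun i hi => ?_).2.1
        (ih (by omega)) ?_
      · by_cases h1 : i < k
        · simp only [if_pos h1, if_pos (show i < k + 1 by omega)]
        · simp only [if_neg h1, if_neg (show ¬ i < k + 1 by omega)]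
      · simp only [if_neg (lt_irrefl k), if_pos (Nat.lt_succ_self k)]
        exact hxy k (by omega)
  exact h.ext _ _ (fun i hi => if_pos hi) (key n le_rfl)

theorem NR.quot (h : NR o n R) (hn : 2 ≤ n) :
    ∃ (Q : Type) (π : P → Q) (R' : (ℕ → Q) → Prop), NR (π o) n R' ∧ Uniq n R' ∧
      ∀ x, R x ↔ R' (π ∘ x) := by
  have main : ∀ x : ℕ → P, R x ↔
      R (fun i => (Quotient.mk (NR_setoid h hn) (x i)).out) := fun x =>
    ⟨NR_entry h hn _ _ fun i _ => (NR_setoid h hn).symm (Quotient.mk_out (x i)),
      NR_entry h hn _ _ fun i _ => Quotient.mk_out (s := NR_setoid h hn) (x i)⟩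
  refine ⟨Quotient (NR_setoid h hn), Quotient.mk _, fun q => R fun i => (q i).out,
    ⟨fun x y hxy hx => h.ext _ _ (fun i hi => by simp only [hxy i hi]) hx, fun q p hp => ?_,
      fun q p hp => ?_, fun X r hr hX => ?_⟩, fun x y j hj hx hy hxy => ?_, main⟩
  · have := (main _).1 (h.deg q.out p hp)
    refine h.ext _ _ (fun i _ => ?_) this
    by_cases h1 : i = p ∨ i = p + 1
    · simp only [if_pos h1, Quotient.out_eq]
    · simp only [if_neg h1]
  · obtain ⟨y, hy⟩ := h.kan (fun i => (q i).out) p hp
    refine ⟨Quotient.mk _ y, h.ext _ _ (fun i _ => ?_) ((main _).1 hy)⟩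
    by_cases h1 : i = p
    · subst h1; simp only [update_self]
    · simp only [update_of_ne h1, Quotient.out_eq]
  · have e : ∀ i, (fun k => (row X i k).out) = row (fun a b => (X a b).out) i := fun i => by
      funext k
      unfold row
      split_ifs <;> rfl
    show R fun k => (row X r k).out
    rw [e]
    refine h.arr _ r hr fun i hi hir => ?_
    rw [← e]
    exact hX i hi hir
  · have hy' : R fun i => if i < n then (y i).out else (x i).out :=
      h.ext _ _ (fun i hi => (if_pos hi).symm) hy
    have := (NR_key h hn (fun i => (x i).out)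
      (fun i => if i < n then (y i).out else (x i).out) j hj fun i hi => ?_).1 hx hy'
    · simp only [if_pos hj] at this
      exact Quotient.out_equiv_out.1 this
    · by_cases h1 : i < n
      · simp only [if_pos h1, hxy i h1 hi]
      · simp only [if_neg h1]

end Pool.Agent.P.MP_878f14_gt.HT.Q
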