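import Pool.Agent.P.MP_878f14_gt.HT.Q.Glue
import Pool.Agent.P.MP_878f14_gt.HT.Q.Cone

/-! Cones over the simplices of a finite complex, natural for all increasing maps. -/

namespace Pool.Agent.P.MP_878f14_gt.HT.Q

open Filter Topology Function
open scoped ContDiff

noncomputable section

variable {n c L : ℕ}

/-- the cone over a map of vertices -/
def cn {i j : ℕ} (g : Fin (i + 1) → Fin (j + 1)) : Fin (i + 2) → Fin (j + 2) :=
  Fin.cons 0 fun a => (g a).succ

theorem nerve_cn_id {j : ℕ} : cn (id : Fin (j + 1) → Fin (j + 1)) = id := by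
  funext a
  refine Fin.cases ?_ (fun a => ?_) a <;> simp [cn]

theorem nerve_cn_comp {i j : ℕ} (l : Fin (j + 2)) (g : Fin (i + 1) → Fin (j + 1)) :
    cn (l.succAbove ∘ g) = l.succ.succAbove ∘ cn g := by
  funext a
  refine Fin.cases ?_ (fun a => ?_) a <;> simp [cn]

theorem nerve_factor {i j : ℕ} {g : Fin (i + 1) → Fin (j + 2)} (hg : StrictMono g)
    {l : Fin (j + 2)} (hl : ∀ a, g a ≠ l) :
    ∃ g' : Fin (i + 1) → Fin (j + 1), StrictMono g' ∧ g = l.succAbove ∘ g' := by
  choose g' hg' using fun a => Fin.exists_succAbove_eq (hl a)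
  refine ⟨g', fun a b hab => ?_, funext fun a => (hg' a).symm⟩
  rw [← Fin.succAbove_lt_succAbove_iff (p := l), hg', hg']
  exact hg hab

theorem nerve_surj {i j : ℕ} {g : Fin (i + 1) → Fin (j + 1)} (hg : StrictMono g)
    (hs : Surjective g) : i = j := by
  have := Fintype.card_of_bijective ⟨hg.injective, hs⟩
  simpa using this

/-- `P` is a family of sets of vertices closed under subsets; `σ` labels the increasing tuples -/
theorem exists_nerve_cone (hF : ∀ p < c, SK.WFill (KK n) p) (P : Set (Fin L) → Prop)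
    (hP : ∀ s t, s ⊆ t → P t → P s) (σ : ∀ j, (Fin (j + 1) → Fin L) → St n j)
    (hσ : ∀ i j (g : Fin (i + 1) → Fin (j + 1)) (f : Fin (j + 1) → Fin L), P (Set.range f) →
      (σ j f).pi g = σ i (f ∘ g)) :
    ∃ (m : ℕ) (γ : ∀ j, (Fin (j + 1) → Fin L) → St n (j + 1)),
      ∀ j ≤ c, ∀ f, StrictMono f → P (Set.range f) →
        (γ j f).pi Fin.succ = St.kap^[m] (σ j f) ∧
        ∀ i (g : Fin (i + 1) → Fin (j + 1)), StrictMono g → (γ j f).pi (cn g) = γ i (f ∘ g) := by
  classical
  let A : ℕ → Type := fun j => {f : Fin (j + 1) → Fin L // StrictMono f ∧ P (Set.range f)}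
  have hc : ∀ {i j : ℕ} {f : Fin (j + 1) → Fin L} {g : Fin (i + 1) → Fin (j + 1)},
      StrictMono f ∧ P (Set.range f) → StrictMono g →
        StrictMono (f ∘ g) ∧ P (Set.range (f ∘ g)) := fun hf hg =>
    ⟨hf.1.comp hg, hP _ _ (Set.range_comp_subset_range _ _) hf.2⟩
  let e : ∀ j, ℕ → A (j + 1) → A j := fun j a f =>
    ⟨f.1 ∘ (cl j a).succAbove, hc f.2 (Fin.strictMono_succAbove _)⟩
  obtain ⟨m, γ, h0, h1⟩ := SK.exists_cone (S := SS n) (KK n) c hF A e
    (fun j f a b hab hb => Subtype.ext (by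
      change (f.1 ∘ _) ∘ _ = (f.1 ∘ _) ∘ _
      rw [comp_assoc, comp_assoc, sa_cl hab hb]))
    (fun j f => σ j f.1) (fun j f a _ => hσ _ _ _ _ f.2.2)
  let γ' : ∀ j, (Fin (j + 1) → Fin L) → St n (j + 1) := fun j f =>
    if h : StrictMono f ∧ P (Set.range f) then γ j ⟨f, h⟩ else St.z n (j + 1)
  have hγ : ∀ j f (h : StrictMono f ∧ P (Set.range f)), γ' j f = γ j ⟨f, h⟩ :=
    fun j f h => dif_pos h
  have hsur : ∀ i j (f : Fin (j + 1) → Fin L) (g : Fin (i + 1) → Fin (j + 1)), StrictMono g →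
      Surjective g → (γ' j f).pi (cn g) = γ' i (f ∘ g) := by
    intro i j f g hg hs
    obtain rfl := nerve_surj hg hs
    obtain rfl : g = id := (hg.range_inj strictMono_id).1 (by
      rw [hs.range_eq, Set.range_id])
    rw [nerve_cn_id, St.pi_id, comp_id]
  refine ⟨m, γ', fun j hj f hf hp => ⟨?_, ?_⟩⟩
  · have := h0 j hj ⟨f, hf, hp⟩
    rw [hγ j f ⟨hf, hp⟩]
    have e0 : (cl j 0).succAbove = Fin.succ := by
      rw [show cl j 0 = 0 from Fin.ext (cl_val (by omega)), Fin.succAbove_zero]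
    rw [← e0]
    exact this
  · induction j with
    | zero =>
      intro i g hg
      exact hsur i 0 f g hg fun b => ⟨0, Subsingleton.elim (α := Fin 1) _ _⟩
    | succ j ih =>
      intro i g hg
      by_cases hs : Surjective g
      · exact hsur i _ f g hg hs
      · obtain ⟨l, hl⟩ : ∃ l, ∀ a, g a ≠ l := by
          simpa only [Surjective, not_forall, not_exists] using hs
        obtain ⟨g', hg', rfl⟩ := nerve_factor hg hl
        have hl' := hc ⟨hf, hp⟩ (Fin.strictMono_succAbove l)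
        have h2 : (γ' (j + 1) f).pi l.succ.succAbove = γ' j (f ∘ l.succAbove) := by
          have := h1 j hj ⟨f, hf, hp⟩ l.1 (by omega)
          rw [hγ _ f ⟨hf, hp⟩, hγ _ _ hl']
          have e1 : cl (j + 1) (l.1 + 1) = l.succ := Fin.ext (cl_val (by omega))
          have e2 : e j l.1 ⟨f, hf, hp⟩ = ⟨f ∘ l.succAbove, hl'⟩ := Subtype.ext (by
            change f ∘ (cl j l.1).succAbove = _
            rw [cl_coe])
          rw [← e1, ← e2]
          exact this
        rw [nerve_cn_comp, ← St.pi_pi, h2, ih (by omega) _ hl'.1 hl'.2 i g' hg', comp_assoc]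

end

end Pool.Agent.P.MP_878f14_gt.HT.Q
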