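import Pool.Agent.P.MP_878f14_gt.HT.Q.Piece
import Pool.Agent.P.MP_878f14_gt.HT.Q.Cover

/-! Every structure near a compact set of small dimension is concordant to the trivial one. -/

namespace Pool.Agent.P.MP_878f14_gt.HT.Q

open Filter Topology Function
open scoped ContDiff

noncomputable section

variable {n c : ℕ}

section aux

variable {I J : Type} [Fintype I] [Fintype J] {W : Type} [NormedAddCommGroup W] [NormedSpace ℝ W]

/-- the affine map with the given values at the vertices -/
def nullAff (w : I → W) (t : I → ℝ) : W := ∑ a, t a • w a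

theorem null_aff_smooth (w : I → W) : ContDiff ℝ ∞ (nullAff w) :=
  ContDiff.sum fun a _ => (contDiff_apply ℝ ℝ a).smul contDiff_const

theorem null_aff_ext0 (w : J → W) (g : I → J) (t : I → ℝ) :
    nullAff w (ext0 g t) = nullAff (w ∘ g) t := by
  classical
  simp only [nullAff, ext0, FunOnFinite.map_apply_apply, Finset.sum_smul, comp]
  rw [← Finset.sum_fiberwise Finset.univ g]
  exact Finset.sum_congr rfl fun j _ => Finset.sum_congr rfl fun i hi => by
    rw [(Finset.mem_filter.1 hi).2]

theorem null_aff_mem {w : I → W} {t : I → ℝ} {C : Set W} (hC : Convex ℝ C)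
    (ht : t ∈ stdSimplex ℝ I) (hw : ∀ a, t a ≠ 0 → w a ∈ C) : nullAff w t ∈ C := by
  classical
  have e : nullAff w t = ∑ a ∈ Finset.univ.filter fun a => t a ≠ 0, t a • w a :=
    (Finset.sum_filter_of_ne (p := fun a => t a ≠ 0) (f := fun a => t a • w a)
      fun a _ h h0 => h (by rw [h0, zero_smul])).symm
  rw [e]
  exact hC.sum_mem (fun a _ => ht.1 a) ((Finset.sum_filter_ne_zero _).trans ht.2)
    fun a ha => hw a (Finset.mem_filter.1 ha).2

theorem null_iter_mem (m : ℕ) {t : I → ℝ} (ht : t ∈ stdSimplex ℝ I) :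
    kv^[m] t ∈ stdSimplex ℝ I := by
  induction m with
  | zero => exact ht
  | succ m ih => rw [iterate_succ_apply']; exact kv_mem ih.2 ih.1

theorem null_iter_zero (m : ℕ) {t : I → ℝ} {i : I} (h : t i = 0) : kv^[m] t i = 0 := by
  induction m with
  | zero => exact h
  | succ m ih => rw [iterate_succ_apply']; exact kv_eq_zero (by rw [ih]; positivity)

theorem null_sm_comp {A B C : Type} [NormedAddCommGroup A] [NormedSpace ℝ A] [NormedAddCommGroup B]
    [NormedSpace ℝ B] [NormedAddCommGroup C] [NormedSpace ℝ C] {f : A → B} {g : B → C} {x : A}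
    (hg : Sm g (f x)) (hf : Sm f x) : Sm (g ∘ f) x := by
  filter_upwards [hf, (conc_sm_cont hf).eventually hg] with y h1 h2
  exact h2.comp y h1

theorem null_iter_sm (m : ℕ) {t : I → ℝ} (ht : t ∈ stdSimplex ℝ I) :
    Sm (kv^[m] : (I → ℝ) → I → ℝ) t := by
  induction m with
  | zero => exact sm_of contDiff_id t
  | succ m ih => rw [iterate_succ']; exact null_sm_comp (sm_kv (null_iter_mem m ht)) ih

theorem null_iter_ext0 (m : ℕ) {f : I → J} (hf : Injective f) (t : I → ℝ) :
    kv^[m] (ext0 f t) = ext0 f (kv^[m] t) := by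
  induction m with
  | zero => rfl
  | succ m ih => rw [iterate_succ_apply', iterate_succ_apply', ih, kv_ext0 hf]

theorem null_iter_val {p : ℕ} (m : ℕ) (t : Sx p) : (kS^[m] t).1 = kv^[m] t.1 := by
  induction m with
  | zero => rfl
  | succ m ih => rw [iterate_succ_apply', iterate_succ_apply', ← ih]; rfl

theorem null_ext0_comp {f : I → J} (hf : Injective f) {t : J → ℝ}
    (h : ∀ j ∉ Set.range f, t j = 0) : ext0 f (t ∘ f) = t := by
  funext j
  by_cases hj : j ∈ Set.range f
  · obtain ⟨i, rfl⟩ := hj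
    exact ext0_apply hf _ i
  · rw [ext0_of_not_mem _ hj, h j hj]

theorem null_comp_mem {f : I → J} (hf : Injective f) {t : J → ℝ} (ht : t ∈ stdSimplex ℝ J)
    (h : ∀ j ∉ Set.range f, t j = 0) : t ∘ f ∈ stdSimplex ℝ I :=
  ⟨fun _ => ht.1 _, (Fintype.sum_of_injective f hf _ _ h fun _ => rfl).trans ht.2⟩

open Classical in
/-- the labels of the simplices of the nerve -/
def nullSig {L : ℕ} (F : Rw n W) (v : Fin L → W) (j : ℕ) (f : Fin (j + 1) → Fin L) : St n j :=
  if h : ∀ y ∈ convexHull ℝ (v '' Set.range f), IsAt id F y then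
    ⟨pb (fun t : Sx j => nullAff (v ∘ f) t.1) F, fun t =>
      (h _ (null_aff_mem (convex_convexHull ℝ _) t.2 fun a _ =>
        subset_convexHull ℝ _ ⟨f a, ⟨a, rfl⟩, rfl⟩)).pb (ι := id) IsInducing.id
          continuous_subtype_val (nullAff (v ∘ f)) (sm_of (null_aff_smooth _) _)
          (.of_forall fun _ => rfl)⟩
  else St.z n j

theorem null_sig_val {L : ℕ} {F : Rw n W} {v : Fin L → W} {j : ℕ} {f : Fin (j + 1) → Fin L}
    (h : ∀ y ∈ convexHull ℝ (v '' Set.range f), IsAt id F y) :
    (nullSig F v j f).1 = pb (fun t : Sx j => nullAff (v ∘ f) t.1) F := by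
  rw [nullSig, dif_pos h]

theorem null_sig_pi {L : ℕ} {F : Rw n W} {v : Fin L → W} {i j : ℕ} (g : Fin (i + 1) → Fin (j + 1))
    {f : Fin (j + 1) → Fin L} (h : ∀ y ∈ convexHull ℝ (v '' Set.range f), IsAt id F y) :
    (nullSig F v j f).pi g = nullSig F v i (f ∘ g) := by
  refine Subtype.ext (funext fun t => ?_)
  rw [null_sig_val fun y hy => h y
    (convexHull_mono (Set.image_mono (Set.range_comp_subset_range g f)) hy)]
  change pb (stdSimplex.map g) (nullSig F v j f).1 t = _
  rw [null_sig_val h, pb_pb (stdSimplex.continuous_map g).continuousAt]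
  exact congrArg (fun m => pb m F t) (funext fun s => null_aff_ext0 (v ∘ f) g s.1)

end aux

theorem conc_hor_pi (hF : ∀ p < c, SK.WFill (KK n) p) {N : ℕ} {M : Set (Fin N → ℝ)}
    (hM : IsCompact M) (hd : dimH M < ((c + 1 : ℕ) : ENNReal)) {F : Rw n (Fin N → ℝ)}
    (h : ∀ x ∈ M, IsAt id F x) : Conc M hor F := by
  have hU : IsOpen {y | IsAt id F y} :=
    isOpen_iff_mem_nhds.2 fun y hy => IsAt.eventually continuous_id hy
  obtain ⟨r, hr, hrU⟩ := hM.exists_thickening_subset_open hU h
  have hδ : 0 < r / 2 := half_pos hr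
  obtain ⟨L, ρ, v, hρ, hs, hv, hc⟩ := exists_partition hM hd hδ
  have hth : Metric.thickening (r / 2) M ∈ 𝓝ˢ M :=
    Metric.isOpen_thickening.mem_nhdsSet.2 (Metric.self_subset_thickening hδ M)
  have hball : ∀ x ∈ Metric.thickening (r / 2) M, ∀ y ∈ Metric.ball x (r / 2), IsAt id F y := by
    intro x hx y hy
    obtain ⟨z, hz, hxz⟩ := Metric.mem_thickening_iff.1 hx
    refine hrU (Metric.mem_thickening_iff.2 ⟨z, hz, ?_⟩)
    have := dist_triangle y x z
    rw [Metric.mem_ball] at hy
    linarith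
  have hvb : ∀ x β, (x ∈ tsupport fun x => ρ x β) → v β ∈ Metric.ball x (r / 2) :=
    fun x β hx => Metric.mem_ball_comm.1 (hv β hx)
  let P : Set (Fin L) → Prop := fun T => ∀ y ∈ convexHull ℝ (v '' T), IsAt id F y
  have hP : ∀ᶠ x in 𝓝ˢ M, P {β | x ∈ tsupport fun x => ρ x β} := by
    filter_upwards [hth] with x hx y hy
    refine hball x hx y (convexHull_min ?_ (convex_ball x _) hy)
    rintro _ ⟨β, hβ, rfl⟩
    exact hvb x β hβ
  obtain ⟨m, γ, hγ⟩ := exists_nerve_cone hF P
    (fun s t hst ht y hy => ht y (convexHull_mono (Set.image_mono hst) hy)) (nullSig F v)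
    fun i j g f hf => null_sig_pi g hf
  let Θ : (Fin N → ℝ) → Fin N → ℝ := fun y => nullAff v (kv^[m] (ρ y))
  have h1 : Conc M hor (pb Θ F) := by
    refine conc_of_cone ρ hρ hs hc P hP γ (fun j hj f hf hf' => (hγ j hj f hf hf').2) _ ?_
    rw [eventually_nhdsSet_iff_forall] at hs hP ⊢
    intro x₀ hx₀
    filter_upwards [(hs x₀ hx₀).eventually_nhds, hP x₀ hx₀] with x hx hPx j hj f hf hrg
    have hPf : P (Set.range f) := hrg ▸ hPx
    have hz : ∀ᶠ y in 𝓝 x, ∀ β ∉ Set.range f, ρ y β = 0 := by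
      refine eventually_all.2 fun β => ?_
      by_cases hβ : β ∈ Set.range f
      · exact .of_forall fun _ h => absurd hβ h
      · rw [hrg] at hβ
        exact (notMem_tsupport_iff_eventuallyEq.1 hβ).mono fun _ hy _ => hy
    have hm : ∀ᶠ y in 𝓝 x, ρ y ∘ f ∈ stdSimplex ℝ (Fin (j + 1)) := by
      filter_upwards [hx, hz] with y h1 h2
      exact null_comp_mem hf.injective h1 h2
    have c1 : ContinuousAt (fun y => toS (ρ y ∘ f)) x :=
      continuousAt_toS (continuousAt_pi.2 fun a =>
        ((continuous_apply (f a)).comp hρ.continuous).continuousAt) hm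
    rw [(hγ j hj f hf hPf).1, St.iter_kap, null_sig_val hPf, pb_pb c1,
      pb_pb ((continuous_kS.iterate m).continuousAt.comp c1)]
    refine pb_congr_map ?_
    filter_upwards [hz, hm] with y h1 h2
    change nullAff v (kv^[m] (ρ y)) = nullAff (v ∘ f) (kS^[m] (toS (ρ y ∘ f))).1
    rw [null_iter_val, toS_val h2, ← null_aff_ext0, ← null_iter_ext0 m hf.injective,
      null_ext0_comp hf.injective h1]
  have h2 : Conc M (pb Θ F) (pb id F) := by
    refine conc_segment (fun x hx => ?_) (fun x _ => sm_of contDiff_id x) fun x hx y hy => ?_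
    · exact null_sm_comp (f := kv^[m] ∘ ρ) (g := nullAff v) (sm_of (null_aff_smooth v) _)
        (null_sm_comp (null_iter_sm m (hs.self_of_nhdsSet x hx)) (sm_of hρ x))
    · refine hball x (Metric.self_subset_thickening hδ M hx) y
        ((convex_ball x _).segment_subset ?_ (Metric.mem_ball_self hδ) hy)
      exact null_aff_mem (convex_ball x _) (null_iter_mem m (hs.self_of_nhdsSet x hx))
        fun β hβ => hvb x β (subset_tsupport _ fun h0 => hβ (null_iter_zero m h0))
  refine (h1.trans h2).congr (.of_forall fun _ => rfl) ?_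
  filter_upwards [hU.mem_nhdsSet.2 h] with x hx
  exact (pb_id (IsAt.le_nb hx)).symm

theorem conc_hor (hF : ∀ p < c, SK.WFill (KK n) p) {V : Type} [NormedAddCommGroup V]
    [NormedSpace ℝ V] [FiniteDimensional ℝ V] {M : Set V} (hM : IsCompact M)
    (hd : dimH M < ((c + 1 : ℕ) : ENNReal)) {F : Rw n V} (h : ∀ x ∈ M, IsAt id F x) :
    Conc M hor F := by
  let e : V ≃L[ℝ] (Fin (Module.finrank ℝ V) → ℝ) :=
    (Module.finBasis ℝ V).equivFun.toContinuousLinearEquiv
  have h1 : Conc (e '' M) hor (pb e.symm F) := by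
    refine conc_hor_pi hF (hM.image e.continuous)
      (lt_of_le_of_lt (e.lipschitz.dimH_image_le M) hd) ?_
    rintro _ ⟨x, hx, rfl⟩
    refine IsAt.pb (ι := id) (ι' := id) IsInducing.id continuous_id e.symm
      (sm_of e.symm.contDiff _) (.of_forall fun _ => rfl) ?_
    rw [e.symm_apply_apply]
    exact h x hx
  have hU : IsOpen {y | IsAt id F y} :=
    isOpen_iff_mem_nhds.2 fun y hy => IsAt.eventually continuous_id hy
  refine (h1.pb (M' := M) (m := e) (fun x _ => sm_of e.contDiff x) fun x hx => ⟨x, hx, rfl⟩).congr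
    (.of_forall fun x => (pb_hor e.continuous.continuousAt).symm) ?_
  filter_upwards [hU.mem_nhdsSet.2 h] with x hx
  rw [pb_pb e.continuous.continuousAt, e.symm_comp_self, pb_id (IsAt.le_nb hx)]

end

end Pool.Agent.P.MP_878f14_gt.HT.Q
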