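import Pool.Agent.P.MP_878f14_gt.HT.Q.Nerve
import Pool.Agent.P.MP_878f14_gt.HT.Q.Conc

/-! Pull-back of the cones by a partition of unity. -/

namespace Pool.Agent.P.MP_878f14_gt.HT.Q

open Filter Topology Function
open scoped ContDiff

noncomputable section

variable {n c L : ℕ} {V : Type} [NormedAddCommGroup V] [NormedSpace ℝ V]

/-- the time function -/
def pieceT (s : ℝ) : ℝ := Real.smoothTransition (3 * s - 1)

/-- the map to the cone -/
def pieceW (ρ : V → Fin L → ℝ) {j : ℕ} (f : Fin (j + 1) → Fin L) (p : V × ℝ) : Fin (j + 2) → ℝ :=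
  Fin.cons (1 - pieceT p.2) fun a => pieceT p.2 * ρ p.1 (f a)

theorem piece_smooth {ρ : V → Fin L → ℝ} (hρ : ContDiff ℝ ∞ ρ) {j : ℕ} (f : Fin (j + 1) → Fin L) :
    ContDiff ℝ ∞ (pieceW ρ f) := by
  have hT : ContDiff ℝ ∞ fun p : V × ℝ => pieceT p.2 :=
    Real.smoothTransition.contDiff.comp ((contDiff_const.mul contDiff_snd).sub contDiff_const)
  refine contDiff_pi.2 fun a => Fin.cases ?_ (fun b => ?_) a
  · exact contDiff_const.sub hT
  · exact hT.mul ((contDiff_pi.1 hρ (f b)).comp contDiff_fst)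

theorem piece_mem0 {v : Fin L → ℝ} (hv : v ∈ stdSimplex ℝ (Fin L)) {j : ℕ}
    {f : Fin (j + 1) → Fin L} (hf : Injective f) (h0 : ∀ β ∉ Set.range f, v β = 0) :
    v ∘ f ∈ stdSimplex ℝ (Fin (j + 1)) :=
  ⟨fun a => hv.1 (f a), (Fintype.sum_of_injective f hf _ _ h0 fun _ => rfl).trans hv.2⟩

omit [NormedAddCommGroup V] [NormedSpace ℝ V] in
theorem piece_mem {ρ : V → Fin L → ℝ} {j : ℕ} {f : Fin (j + 1) → Fin L} {p : V × ℝ}
    (h : ρ p.1 ∘ f ∈ stdSimplex ℝ (Fin (j + 1))) : pieceW ρ f p ∈ stdSimplex ℝ (Fin (j + 2)) := by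
  refine ⟨fun a => ?_, ?_⟩
  · refine Fin.cases ?_ (fun b => ?_) a
    · exact sub_nonneg.2 (Real.smoothTransition.le_one _)
    · exact mul_nonneg (Real.smoothTransition.nonneg _) (h.1 b)
  · have h1 : ∑ a, ρ p.1 (f a) = 1 := h.2
    rw [Fin.sum_univ_succ]
    simp only [pieceW, Fin.cons_zero, Fin.cons_succ]
    rw [← Finset.mul_sum, h1]
    ring

omit [NormedSpace ℝ V] in
theorem piece_zero {ρ : V → Fin L → ℝ} {T : Set (Fin L)} {x : V}
    (h : {β | x ∈ tsupport fun x => ρ x β} ⊆ T) : ∀ᶠ y in 𝓝 x, ∀ β ∉ T, ρ y β = 0 := by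
  refine eventually_all.2 fun β => ?_
  by_cases hβ : β ∈ T
  · exact .of_forall fun _ h' => absurd hβ h'
  · exact (notMem_tsupport_iff_eventuallyEq.1 fun h' => hβ (h h')).mono fun y hy _ => hy

theorem piece_cn_inj {i j : ℕ} {g : Fin (i + 1) → Fin (j + 1)} (hg : Injective g) :
    Injective (cn g) := by
  intro a b
  refine Fin.cases ?_ (fun a => ?_) a <;> refine Fin.cases ?_ (fun b => ?_) b <;>
    simp only [cn, Fin.cons_zero, Fin.cons_succ]
  · exact fun _ => trivial
  · exact fun h => absurd h.symm (Fin.succ_ne_zero _)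
  · exact fun h => absurd h (Fin.succ_ne_zero _)
  · exact fun h => congrArg _ (hg (Fin.succ_injective _ h))

omit [NormedAddCommGroup V] [NormedSpace ℝ V] in
theorem piece_ext {ρ : V → Fin L → ℝ} {i j : ℕ} {f : Fin (j + 1) → Fin L} (hf : Injective f)
    {g : Fin (i + 1) → Fin (j + 1)} (hg : Injective g) {p : V × ℝ}
    (h0 : ∀ β ∉ Set.range (f ∘ g), ρ p.1 β = 0) :
    ext0 (cn g) (pieceW ρ (f ∘ g) p) = pieceW ρ f p := by
  funext a
  refine Fin.cases ?_ (fun b => ?_) a
  · exact ext0_apply (piece_cn_inj hg) _ 0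
  · by_cases hb : b ∈ Set.range g
    · obtain ⟨d, rfl⟩ := hb
      exact ext0_apply (piece_cn_inj hg) _ d.succ
    · rw [ext0_of_not_mem]
      · simp only [pieceW, Fin.cons_succ]
        rw [h0 (f b) (fun ⟨d, hd⟩ => hb ⟨d, hf hd⟩), mul_zero]
      · rintro ⟨d, hd⟩
        revert hd
        refine Fin.cases ?_ (fun d => ?_) d <;> simp only [cn, Fin.cons_zero, Fin.cons_succ]
        · exact fun h => absurd h.symm (Fin.succ_ne_zero _)
        · exact fun h => hb ⟨d, Fin.succ_injective _ h⟩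

theorem piece_enum (T : Set (Fin L)) (hT : T.Nonempty) :
    ∃ e : Σ j : ℕ, Fin (j + 1) → Fin L, StrictMono e.2 ∧ Set.range e.2 = T := by
  classical
  have h1 : 0 < T.toFinset.card := Finset.card_pos.2 (Set.toFinset_nonempty.2 hT)
  have h2 : T.toFinset.card = T.toFinset.card - 1 + 1 := by omega
  exact ⟨⟨_, T.toFinset.orderEmbOfFin h2⟩, (T.toFinset.orderEmbOfFin h2).strictMono,
    (Finset.range_orderEmbOfFin _ h2).trans (Set.coe_toFinset T)⟩

omit [NormedSpace ℝ V] in
theorem piece_ne {ρ : V → Fin L → ℝ} {x : V} (h : ρ x ∈ stdSimplex ℝ (Fin L)) :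
    {β | x ∈ tsupport fun x => ρ x β}.Nonempty := by
  obtain ⟨β, -, hβ⟩ := Finset.exists_ne_zero_of_sum_ne_zero (h.2.trans_ne one_ne_zero)
  exact ⟨β, subset_tsupport _ hβ⟩

/-- gluing: the cones give a concordance from the trivial structure to any `G` that is locally the
pull-back of the bases of the cones -/
theorem conc_of_cone {M : Set V} (ρ : V → Fin L → ℝ) (hρ : ContDiff ℝ ∞ ρ)
    (hs : ∀ᶠ x in 𝓝ˢ M, ρ x ∈ stdSimplex ℝ (Fin L))
    (hc : ∀ x, ∀ T : Finset (Fin L), (∀ β ∈ T, x ∈ tsupport fun x => ρ x β) → T.card ≤ c + 1)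
    (P : Set (Fin L) → Prop) (hP : ∀ᶠ x in 𝓝ˢ M, P {β | x ∈ tsupport fun x => ρ x β})
    (γ : ∀ j, (Fin (j + 1) → Fin L) → St n (j + 1))
    (hγ : ∀ j ≤ c, ∀ f, StrictMono f → P (Set.range f) →
      ∀ i (g : Fin (i + 1) → Fin (j + 1)), StrictMono g → (γ j f).pi (cn g) = γ i (f ∘ g))
    (G : Rw n V)
    (hG : ∀ᶠ x in 𝓝ˢ M, ∀ j ≤ c, ∀ f : Fin (j + 1) → Fin L, StrictMono f →
      Set.range f = {β | x ∈ tsupport fun x => ρ x β} →
        G x = pb (fun y => toS (ρ y ∘ f)) ((γ j f).pi Fin.succ).1 x) :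
    Conc M hor G := by
  classical
  obtain ⟨e, he⟩ : ∃ e : (T : Set (Fin L)) → T.Nonempty → Σ j : ℕ, Fin (j + 1) → Fin L,
      ∀ T hT, StrictMono (e T hT).2 ∧ Set.range (e T hT).2 = T := by
    choose e he using piece_enum (L := L)
    exact ⟨e, he⟩
  let pc : (Σ j : ℕ, Fin (j + 1) → Fin L) → Rw n (V × ℝ) := fun a =>
    pb (fun p => toS (pieceW ρ a.2 p)) (γ a.1 a.2).1
  refine ⟨fun p => if h : {β | p.1 ∈ tsupport fun x => ρ x β}.Nonempty then pc (e _ h) p
    else hor p, ?_⟩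
  rw [eventually_nhdsSet_iff_forall] at hs hP hG ⊢
  intro x₀ hx₀
  filter_upwards [(hs x₀ hx₀).eventually_nhds.eventually_nhds, hP x₀ hx₀, hG x₀ hx₀]
    with x hx hxP hxG
  have hx1 := hx.self_of_nhds
  have hne := piece_ne hx1.self_of_nhds
  obtain ⟨hf, hr⟩ := he _ hne
  generalize hjf : e _ hne = a at hf hr
  obtain ⟨j, f⟩ := a
  simp only at hf hr
  have hj : j ≤ c := by
    have h1 := hc x (Finset.univ.image f) fun β hβ => by
      obtain ⟨a, -, rfl⟩ := Finset.mem_image.1 hβ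
      exact (hr.subset ⟨a, rfl⟩ :)
    rw [Finset.card_image_of_injective _ hf.injective, Finset.card_univ, Fintype.card_fin] at h1
    omega
  have hmem : ∀ {i : ℕ} {f' : Fin (i + 1) → Fin L} {y : V} (s : ℝ), Injective f' →
      (∀ᶠ z in 𝓝 y, ρ z ∈ stdSimplex ℝ (Fin L)) →
      {β | y ∈ tsupport fun x => ρ x β} ⊆ Set.range f' →
      ∀ᶠ p : V × ℝ in 𝓝 (y, s), ρ p.1 ∘ f' ∈ stdSimplex ℝ (Fin (i + 1)) ∧
        ∀ β ∉ Set.range f', ρ p.1 β = 0 := fun s h1 h2 h3 =>
    ((continuousAt_fst (p := (_, s))).eventually (h2.and (piece_zero h3))).mono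
      fun z hz => ⟨piece_mem0 hz.1 h1 hz.2, hz.2⟩
  have hm := fun s => hmem s hf.injective hx1 hr.symm.subset
  refine ⟨fun s => ?_, fun s hs0 => ?_, fun s hs1 => ?_⟩
  · have h1 : IsAt id (pc ⟨j, f⟩) (x, s) :=
      IsAt.pb (ι := Subtype.val) (ι' := id) val_inducing continuous_id (pieceW ρ f)
        (sm_of (piece_smooth hρ f) _) ((hm s).mono fun p hp => toS_val (piece_mem hp.1))
        ((γ j f).2 _)
    refine h1.congr ?_
    have h2 : ∀ᶠ y in 𝓝 x, {β | y ∈ tsupport fun x => ρ x β} ⊆ Set.range f := by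
      refine eventually_all.2 fun β => ?_
      by_cases hβ : β ∈ Set.range f
      · exact .of_forall fun _ _ => hβ
      · have h3 : x ∉ tsupport fun x => ρ x β := fun h => hβ (hr.symm.subset h)
        exact ((isClosed_tsupport _).isOpen_compl.eventually_mem h3).mono fun y hy h => absurd h hy
    filter_upwards [(continuousAt_fst (p := (x, s))).eventually (hx.and h2)] with p hp
    obtain ⟨y, r⟩ := p
    obtain ⟨hy1, hy2⟩ := hp
    have hne' := piece_ne hy1.self_of_nhds
    simp only [dif_pos hne']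
    obtain ⟨hf', hr'⟩ := he _ hne'
    generalize e _ hne' = a at hf' hr'
    obtain ⟨i, f'⟩ := a
    simp only at hf' hr'
    choose g hg using fun a => hy2 (hr'.subset ⟨a, rfl⟩)
    obtain rfl : f' = f ∘ g := funext fun a => (hg a).symm
    have hg' : StrictMono g := fun a b hab => hf.lt_iff_lt.1 (hf' hab)
    have hm' := hmem r hf'.injective hy1 hr'.symm.subset
    have hc1 : ContinuousAt (fun p => toS (pieceW ρ (f ∘ g) p)) (y, r) :=
      continuousAt_toS (piece_smooth hρ _).continuous.continuousAt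
        (hm'.mono fun p hp => piece_mem hp.1)
    simp only [pc]
    rw [← hγ j hj f hf (hr ▸ hxP) i g hg']
    refine (pb_pb hc1 _ _).trans (pb_congr_map (hm'.mono fun p hp => ?_))
    have h4 : (stdSimplex.map (cn g) (toS (pieceW ρ (f ∘ g) p))).1 = pieceW ρ f p := by
      rw [map_val, toS_val (piece_mem hp.1), piece_ext hf.injective hg'.injective hp.2]
    simp only [comp]
    rw [← h4, toS_coe]
  · simp only [dif_pos hne, hjf]
    rw [pb_hor continuousAt_fst]
    refine ((γ j f).2 (toS (Fin.cons 1 0))).pb_const ?_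
    filter_upwards [(continuousAt_snd (p := (x, s))).eventually
      (gt_mem_nhds (show s < 1 / 3 by linarith))] with p hp
    have h1 : pieceT p.2 = 0 := Real.smoothTransition.zero_of_nonpos (by linarith)
    congr 1
    funext a
    refine Fin.cases ?_ (fun b => ?_) a <;> simp [pieceW, h1]
  · simp only [dif_pos hne, hjf]
    have hc1 : ContinuousAt (fun p : V × ℝ => toS (ρ p.1 ∘ f)) (x, s) :=
      continuousAt_toS (continuous_pi fun a =>
        (continuous_apply (f a)).comp (hρ.continuous.comp continuous_fst)).continuousAt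
        ((hm s).mono fun p hp => hp.1)
    refine Eq.symm ((pb_congr (G := pb (fun y => toS (ρ y ∘ f)) ((γ j f).pi Fin.succ).1)
      (hxG j hj f hf hr)).trans ((pb_pb continuousAt_fst _ _).trans
        ((pb_pb hc1 _ _).trans (pb_congr_map ?_))))
    filter_upwards [hm s, (continuousAt_snd (p := (x, s))).eventually
      (lt_mem_nhds (show 2 / 3 < s by linarith))] with p hp hp'
    have h1 : pieceT p.2 = 1 := Real.smoothTransition.one_of_one_le (by linarith)
    have h4 : (stdSimplex.map Fin.succ (toS (ρ p.1 ∘ f))).1 = pieceW ρ f p := by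
      rw [map_val, toS_val hp.1]
      funext a
      refine Fin.cases ?_ (fun b => ?_) a
      · rw [ext0_of_not_mem _ (fun ⟨d, hd⟩ => Fin.succ_ne_zero d hd)]
        simp [pieceW, h1]
      · rw [ext0_apply (Fin.succ_injective _)]
        simp [pieceW, h1]
    simp only [comp]
    rw [← h4, toS_coe]

end

end Pool.Agent.P.MP_878f14_gt.HT.Q
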