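import Pool.Agent.P.MP_878f14_gt.HT.Q.Step

/-! The deformation that makes the low dimensional simplices trivial. -/

namespace Pool.Agent.P.MP_878f14_gt.HT.Q.SK

variable {S : SK}

/-- the prism over one simplex of the next dimension -/
theorem Prism_level {p k : ℕ} {h : ∀ p, ℕ → S.X p → S.X (p + 1)} {δ : ∀ p, ℕ → S.X p → S.X p}
    (hP : S.Prism p h δ) (hK : S.Kan p) (hF : ∀ p < k, S.Fill p)
    (hz : p ≤ k → ∀ x, δ p (p + 1) x = S.z p) (x : S.X (p + 1)) :
    ∃ (W : ℕ → S.X (p + 2)) (U : ℕ → S.X (p + 1)), U 0 = x ∧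
      (∀ i ≤ p + 1, S.d i (W i) = U i ∧ S.d (i + 1) (W i) = U (i + 1) ∧
        S.Side (h p) (fun l => S.d l x) i (W i)) ∧
      (∀ i ≤ p + 2, S.Diag (δ p) (fun l => S.d l x) i (U i)) ∧
      (x = S.z _ → ∀ i, W i = S.z _) ∧ (p + 1 ≤ k → U (p + 2) = S.z _) := by
  by_cases hx : x = S.z _
  · subst hx
    have e : ∀ j ≤ p + 1, δ p j (S.z p) = S.z p := fun j hj => by
      rcases hj.eq_or_lt with rfl | hj
      · rw [← hP.hi p le_rfl p le_rfl, hP.hz p le_rfl, S.dz]
      · rw [← hP.lo p le_rfl j (by omega), hP.hz p le_rfl, S.dz]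
    refine ⟨fun _ => S.z _, fun _ => S.z _, rfl, fun i _ => ⟨S.dz _ _, S.dz _ _, fun l _ => ?_⟩,
      fun i hi l hl => ?_, fun _ _ => rfl, fun _ => rfl⟩
    · simp only [S.dz, hP.hz p le_rfl, implies_true, and_self]
    · simp only [S.dz]
      split_ifs with c
      · exact (e _ (by omega)).symm
      · exact (e _ (by omega)).symm
  have st : ∀ (n : ℕ) (u : S.X (p + 1)), ∃ w : S.X (p + 2), n ≤ p + 1 →
      S.Diag (δ p) (fun l => S.d l x) n u → S.d n w = u ∧ S.Side (h p) (fun l => S.d l x) n w ∧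
        S.Diag (δ p) (fun l => S.d l x) (n + 1) (S.d (n + 1) w) ∧
        (n = p + 1 → p + 1 ≤ k → S.d (n + 1) w = S.z _) := fun n u => by
    by_cases c : n ≤ p + 1 ∧ S.Diag (δ p) (fun l => S.d l x) n u
    · by_cases c' : n = p + 1 ∧ p + 1 ≤ k
      · have hv : S.Diag (δ p) (fun l => S.d l x) (n + 1) (S.z (p + 1)) := fun l hl => by
          rw [if_pos (by omega), S.dz, Nat.add_sub_cancel, c'.1, hz (by omega)]
        obtain ⟨w, a, b, s⟩ := step_fill hP (hF p c'.2) (cq_d x) c.1 c.2 hv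
        exact ⟨w, fun _ _ => ⟨a, s, b ▸ hv, fun _ _ => b⟩⟩
      · obtain ⟨w, a, s, b⟩ := step_up hP hK (cq_d x) c.1 c.2
        exact ⟨w, fun _ _ => ⟨a, s, b, fun e1 e2 => (c' ⟨e1, e2⟩).elim⟩⟩
    · exact ⟨S.z _, fun e1 e2 => (c ⟨e1, e2⟩).elim⟩
  choose F hFn using st
  let U : ℕ → S.X (p + 1) := fun n => Nat.rec x (fun n u => S.d (n + 1) (F n u)) n
  have dg : ∀ i ≤ p + 2, S.Diag (δ p) (fun l => S.d l x) i (U i) := fun i => by
    induction i with
    | zero => exact fun _ l _ => by rw [if_neg (by omega), hP.zero p le_rfl]; rfl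
    | succ i ih => exact fun hi => (hFn i (U i) (by omega) (ih (by omega))).2.2.1
  refine ⟨fun n => F n (U n), U, rfl, fun i hi => ?_, dg, fun e => (hx e).elim, fun hk => ?_⟩
  · have := hFn i (U i) hi (dg i (by omega))
    exact ⟨this.1, rfl, this.2.1⟩
  · exact (hFn (p + 1) (U (p + 1)) le_rfl (dg _ (by omega))).2.2.2 rfl hk

theorem exists_prism (hK : ∀ p, S.Kan p) (k N : ℕ) (hF : ∀ p < k, S.Fill p) :
    ∃ (h : ∀ p, ℕ → S.X p → S.X (p + 1)) (δ : ∀ p, ℕ → S.X p → S.X p),
      S.Prism N h δ ∧ ∀ p ≤ k, p ≤ N → ∀ x, δ p (p + 1) x = S.z p := by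
  induction N with
  | zero =>
    refine ⟨fun p _ _ => S.z (p + 1), fun p _ _ => S.z p, ⟨fun p hp x => ?_,
      fun _ _ _ _ _ => S.dz _ _, fun _ _ _ _ _ => S.dz _ _, fun _ hp => by omega,
      fun _ hp => by omega, fun _ hp => by omega, fun _ _ _ => rfl⟩, fun _ _ _ _ => rfl⟩
    obtain rfl : p = 0 := by omega
    exact (S.uniq x).symm
  | succ N ih =>
    obtain ⟨h, δ, hP, hz⟩ := ih
    choose W U u0 hW hU wz uz using Prism_level hP (hK N) hF fun hk => hz N hk le_rfl
    have eh : ∀ p ≤ N, Function.update h (N + 1) (fun i x => W x i) p = h p := fun p hp =>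
      Function.update_of_ne (by omega) _ _
    have eδ : ∀ p ≤ N, Function.update δ (N + 1) (fun i x => U x i) p = δ p := fun p hp =>
      Function.update_of_ne (by omega) _ _
    refine ⟨Function.update h (N + 1) fun i x => W x i, Function.update δ (N + 1) fun i x => U x i,
      ⟨fun p hp x => ?_, fun p hp i hi x => ?_, fun p hp i hi x => ?_, fun p hp i hi l hl x => ?_,
        fun p hp i l hi hl x => ?_, fun p hp i hi l hl x => ?_, fun p hp i => ?_⟩,
      fun p hk hp x => ?_⟩
    · rcases hp.eq_or_lt with rfl | hp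
      · rw [Function.update_self, u0]
      · rw [eδ p (by omega), hP.zero p (by omega)]
    · rcases hp.eq_or_lt with rfl | hp
      · rw [Function.update_self, Function.update_self, (hW x i hi).1]
      · rw [eh p (by omega), eδ p (by omega), hP.lo p (by omega) i hi]
    · rcases hp.eq_or_lt with rfl | hp
      · rw [Function.update_self, Function.update_self, (hW x i hi).2.1]
      · rw [eh p (by omega), eδ p (by omega), hP.hi p (by omega) i hi]
    · rw [eh p (by omega)]
      rcases (Nat.le_of_succ_le_succ hp).eq_or_lt with rfl | hp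
      · rw [Function.update_self]
        exact ((hW x i hi).2.2 l (by omega)).1 hl
      · rw [eh (p + 1) hp, hP.lt p hp i hi l hl]
    · rw [eh p (by omega)]
      rcases (Nat.le_of_succ_le_succ hp).eq_or_lt with rfl | hp
      · rw [Function.update_self]
        exact ((hW x i (by omega)).2.2 l hl).2 hi
      · rw [eh (p + 1) hp, hP.gt p hp i l hi hl]
    · rw [eδ p (by omega)]
      rcases (Nat.le_of_succ_le_succ hp).eq_or_lt with rfl | hp
      · rw [Function.update_self]
        exact hU x i hi l hl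
      · rw [eδ (p + 1) hp, hP.diag p hp i hi l hl]
    · rcases hp.eq_or_lt with rfl | hp
      · rw [Function.update_self, wz _ rfl]
      · rw [eh p (by omega), hP.hz p (by omega)]
    · rcases hp.eq_or_lt with rfl | hp
      · rw [Function.update_self, uz x hk]
      · rw [eδ p (by omega), hz p hk (by omega)]

/-- a boundary whose deformation can be filled can be filled -/
theorem fill_down {p : ℕ} {h : ∀ p, ℕ → S.X p → S.X (p + 1)} {δ : ∀ p, ℕ → S.X p → S.X p}
    (hP : S.Prism p h δ) (hK : S.Kan p) {s : ℕ → S.X p} (hs : S.Cq p s) {v : S.X (p + 1)}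
    (hv : ∀ l ≤ p + 1, S.d l v = δ p (p + 1) (s l)) :
    ∃ u : S.X (p + 1), ∀ l ≤ p + 1, S.d l u = s l := by
  have key : ∀ i ≤ p + 2, ∃ u, S.Diag (δ p) s i u := fun i hi => by
    induction hi using Nat.decreasingInduction with
    | self => exact ⟨v, fun l hl => by rw [if_pos (by omega), hv l hl]; rfl⟩
    | of_succ i hi ih =>
      obtain ⟨u, hu⟩ := ih
      obtain ⟨w, -, -, b⟩ := step_down hP hK hs (by omega) hu
      exact ⟨_, b⟩
  obtain ⟨u, hu⟩ := key 0 (by omega)
  exact ⟨u, fun l hl => by rw [hu l hl, if_neg (by omega), hP.zero p le_rfl]⟩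

end Pool.Agent.P.MP_878f14_gt.HT.Q.SK
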