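import Pool.Agent.P.MP_878f14_gt.HT.Q.Raw
import Pool.Agent.P.MP_878f14_gt.HT.Q.Defs

/-! Quaternions acting on the last four coordinates of `ℝ ^ 5`. -/

namespace Pool.Agent.P.MP_878f14_gt.HT.Q

open Filter Topology Function Matrix
open scoped ContDiff

noncomputable section

abbrev H4 : Type := Fin 4 → ℝ

abbrev M5 : Type := Fin 5 → Fin 5 → ℝ

abbrev Mx : Type := Matrix (Fin 5) (Fin 5) ℝ

/-- a matrix as a function -/
def mm (A : Mx) : M5 := fun i j => A i j

@[simp] theorem of_mm (A : Mx) : Matrix.of (mm A) = A := rfl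

@[simp] theorem mm_of (g : M5) : mm (Matrix.of g) = g := rfl

/-- left multiplication -/
def L0 (a : H4) : Mx :=
  !![0, 0, 0, 0, 0; 0, a 0, -a 1, -a 2, -a 3; 0, a 1, a 0, -a 3, a 2; 0, a 2, a 3, a 0, -a 1;
    0, a 3, -a 2, a 1, a 0]

def E0 : Mx := !![1, 0, 0, 0, 0; 0, 0, 0, 0, 0; 0, 0, 0, 0, 0; 0, 0, 0, 0, 0; 0, 0, 0, 0, 0]

def Lm (a : H4) : Mx := E0 + L0 a

/-- product -/
def qm (a b : H4) : H4 :=
  ![a 0 * b 0 - a 1 * b 1 - a 2 * b 2 - a 3 * b 3, a 0 * b 1 + a 1 * b 0 + a 2 * b 3 - a 3 * b 2,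
    a 0 * b 2 - a 1 * b 3 + a 2 * b 0 + a 3 * b 1, a 0 * b 3 + a 1 * b 2 - a 2 * b 1 + a 3 * b 0]

/-- conjugate -/
def qc (a : H4) : H4 := ![a 0, -a 1, -a 2, -a 3]

def q1 : H4 := ![1, 0, 0, 0]

/-- square of the norm -/
def ns (a : H4) : ℝ := a 0 ^ 2 + a 1 ^ 2 + a 2 ^ 2 + a 3 ^ 2

variable (a b c : H4)

theorem L0_mul : L0 a * L0 b = L0 (qm a b) := by
  ext i j
  fin_cases i <;> fin_cases j <;>
    simp [L0, qm, Matrix.mul_apply, Fin.sum_univ_succ] <;> ring

theorem E0_L0 : E0 * L0 a = 0 := by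
  ext i j
  fin_cases i <;> fin_cases j <;> simp [L0, E0, Matrix.mul_apply, Fin.sum_univ_succ]

theorem L0_E0 : L0 a * E0 = 0 := by
  ext i j
  fin_cases i <;> fin_cases j <;> simp [L0, E0, Matrix.mul_apply, Fin.sum_univ_succ]

theorem E0_E0 : E0 * E0 = E0 := by
  ext i j
  fin_cases i <;> fin_cases j <;> simp [E0, Matrix.mul_apply, Fin.sum_univ_succ]

theorem Lm_mul : Lm a * Lm b = Lm (qm a b) := by
  simp only [Lm, add_mul, mul_add, E0_E0, E0_L0, L0_E0, L0_mul, add_zero, zero_add]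

theorem Lm_q1 : Lm q1 = 1 := by
  ext i j
  fin_cases i <;> fin_cases j <;> simp [Lm, L0, E0, q1]

theorem L0_smul (r : ℝ) : L0 (r • a) = r • L0 a := by
  ext i j
  fin_cases i <;> fin_cases j <;> simp [L0]

theorem Lm_transpose : (Lm a)ᵀ = Lm (qc a) := by
  ext i j
  fin_cases i <;> fin_cases j <;> simp [Lm, L0, E0, qc]

theorem det_Lm_ne {a : H4} (h : a ≠ 0) : (Lm a).det ≠ 0 := by
  have hn : a 0 ^ 2 + a 1 ^ 2 + a 2 ^ 2 + a 3 ^ 2 ≠ 0 := by
    intro hz
    apply h
    have h0 : a 0 = 0 := by nlinarith [sq_nonneg (a 0), sq_nonneg (a 1), sq_nonneg (a 2), sq_nonneg (a 3)]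
    have h1 : a 1 = 0 := by nlinarith [sq_nonneg (a 0), sq_nonneg (a 1), sq_nonneg (a 2), sq_nonneg (a 3)]
    have h2 : a 2 = 0 := by nlinarith [sq_nonneg (a 0), sq_nonneg (a 1), sq_nonneg (a 2), sq_nonneg (a 3)]
    have h3 : a 3 = 0 := by nlinarith [sq_nonneg (a 0), sq_nonneg (a 1), sq_nonneg (a 2), sq_nonneg (a 3)]
    ext i
    fin_cases i <;> simp [h0, h1, h2, h3]
  have e : qm a ((a 0 ^ 2 + a 1 ^ 2 + a 2 ^ 2 + a 3 ^ 2)⁻¹ • qc a) = q1 := by
    ext i
    fin_cases i <;> simp [qm, qc, q1] <;> field_simp <;> ring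
  have h1 : Lm a * Lm ((a 0 ^ 2 + a 1 ^ 2 + a 2 ^ 2 + a 3 ^ 2)⁻¹ • qc a) = 1 := by
    rw [Lm_mul, e, Lm_q1]
  intro hd
  have h2 := congrArg Matrix.det h1
  rw [Matrix.det_mul, hd, zero_mul, Matrix.det_one] at h2
  exact zero_ne_one h2

theorem qm_assoc : qm (qm a b) c = qm a (qm b c) := by
  ext i
  fin_cases i <;> simp [qm] <;> ring

theorem qm_qc : qm a (qc a) = ns a • q1 := by
  ext i
  fin_cases i <;> simp [qm, qc, ns, q1] <;> ring

theorem qc_qm : qm (qc a) a = ns a • q1 := by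
  ext i
  fin_cases i <;> simp [qm, qc, ns, q1] <;> ring

theorem qc_mul : qc (qm a b) = qm (qc b) (qc a) := by
  ext i
  fin_cases i <;> simp [qm, qc] <;> ring

theorem qc_qc : qc (qc a) = a := by
  ext i
  fin_cases i <;> simp [qc]

theorem qm_q1 : qm a q1 = a := by
  ext i
  fin_cases i <;> simp [qm, q1]

theorem q1_qm : qm q1 a = a := by
  ext i
  fin_cases i <;> simp [qm, q1]

theorem qm_smul (r : ℝ) : qm a (r • b) = r • qm a b := by
  ext i
  fin_cases i <;> simp [qm] <;> ring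

theorem smul_qm (r : ℝ) : qm (r • a) b = r • qm a b := by
  ext i
  fin_cases i <;> simp [qm] <;> ring

theorem ns_qm : ns (qm a b) = ns a * ns b := by
  simp [ns, qm]
  ring

theorem ns_qc : ns (qc a) = ns a := by
  simp [ns, qc]

theorem ns_smul (r : ℝ) : ns (r • a) = r ^ 2 * ns a := by
  simp [ns]
  ring

theorem ns_nonneg : 0 ≤ ns a := by
  unfold ns
  positivity

theorem ns_eq_zero {a : H4} : ns a = 0 ↔ a = 0 := by
  constructor
  · intro h
    unfold ns at h
    have h0 : a 0 = 0 := by nlinarith [sq_nonneg (a 0), sq_nonneg (a 1), sq_nonneg (a 2), sq_nonneg (a 3)]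
    have h1 : a 1 = 0 := by nlinarith [sq_nonneg (a 0), sq_nonneg (a 1), sq_nonneg (a 2), sq_nonneg (a 3)]
    have h2 : a 2 = 0 := by nlinarith [sq_nonneg (a 0), sq_nonneg (a 1), sq_nonneg (a 2), sq_nonneg (a 3)]
    have h3 : a 3 = 0 := by nlinarith [sq_nonneg (a 0), sq_nonneg (a 1), sq_nonneg (a 2), sq_nonneg (a 3)]
    ext i
    fin_cases i <;> simp [h0, h1, h2, h3]
  · rintro rfl
    simp [ns]

theorem contDiff_ns : ContDiff ℝ ∞ ns := by
  unfold ns
  fun_prop

theorem contDiff_qc : ContDiff ℝ ∞ qc := by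
  refine contDiff_pi.2 fun i => ?_
  fin_cases i <;> simp [qc] <;> fun_prop

theorem contDiff_qm : ContDiff ℝ ∞ fun z : H4 × H4 => qm z.1 z.2 := by
  refine contDiff_pi.2 fun i => ?_
  fin_cases i <;> simp [qm] <;> fun_prop

theorem contDiff_L0 : ContDiff ℝ ∞ fun a => mm (L0 a) := by
  refine contDiff_pi.2 fun i => contDiff_pi.2 fun j => ?_
  fin_cases i <;> fin_cases j <;> simp [mm, L0] <;> fun_prop

theorem contDiff_Lm : ContDiff ℝ ∞ fun a => mm (Lm a) := by
  refine contDiff_pi.2 fun i => contDiff_pi.2 fun j => ?_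
  fin_cases i <;> fin_cases j <;> simp [mm, Lm, L0, E0] <;> fun_prop

theorem contDiff_mul : ContDiff ℝ ∞ fun z : M5 × M5 => mm (Matrix.of z.1 * Matrix.of z.2) := by
  refine contDiff_pi.2 fun i => contDiff_pi.2 fun j => ?_
  simp only [mm, Matrix.mul_apply, Matrix.of_apply]
  fun_prop

/-- the inverse matrix -/
def minv (g : M5) : M5 := mm (Matrix.of g)⁻¹

theorem Quat_det (A : M5 → Mx) (hA : ∀ i j, ContDiff ℝ ∞ fun x => A x i j) :
    ContDiff ℝ ∞ fun x => (A x).det := by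
  simp only [Matrix.det_apply']
  exact ContDiff.sum fun σ _ => contDiff_const.mul (contDiff_prod fun i _ => hA _ _)

theorem sm_minv {g : M5} (h : (Matrix.of g).det ≠ 0) : Sm minv g := by
  have hd : ContDiff ℝ ∞ fun x : M5 => (Matrix.of x).det :=
    Quat_det _ fun i j => by simp only [Matrix.of_apply]; fun_prop
  have ha : ∀ i j, ContDiff ℝ ∞ fun x : M5 => (Matrix.of x).adjugate i j := by
    intro i j
    simp only [Matrix.adjugate_apply]
    refine Quat_det _ fun k l => ?_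
    by_cases hk : k = j
    · simp only [Matrix.updateRow_apply, hk, if_true]
      exact contDiff_const
    · simp only [Matrix.updateRow_apply, hk, if_false, Matrix.of_apply]
      fun_prop
  have hev : ∀ᶠ x in 𝓝 g, (Matrix.of x).det ≠ 0 := hd.continuous.continuousAt.eventually_ne h
  filter_upwards [hev] with x hx
  refine contDiffAt_pi.2 fun i => contDiffAt_pi.2 fun j => ?_
  have e : (fun y : M5 => minv y i j) =
      fun y : M5 => ((Matrix.of y).det)⁻¹ * (Matrix.of y).adjugate i j := by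
    funext y
    simp only [minv, mm, Matrix.inv_def, Ring.inverse_eq_inv', Matrix.smul_apply, smul_eq_mul]
  rw [e]
  exact (hd.contDiffAt.inv hx).mul (ha i j).contDiffAt

/-- the conjugate of the quaternion part of a column -/
def zc (i : Fin 5) (g : M5) : H4 := qc fun a => g a.succ i

theorem contDiff_zc (i : Fin 5) : ContDiff ℝ ∞ (zc i) := by
  have h : ContDiff ℝ ∞ fun g : M5 => (fun a : Fin 4 => g a.succ i : H4) :=
    contDiff_pi.2 fun a => by fun_prop
  exact contDiff_qc.comp h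

theorem zc_Lm (i : Fin 5) (h : H4) (g : M5) :
    zc i (mm (Lm h * Matrix.of g)) = qm (zc i g) (qc h) := by
  ext a
  fin_cases a <;>
    simp [zc, mm, Lm, L0, E0, qm, qc, Matrix.mul_apply, Fin.sum_univ_succ] <;> ring

/-- the space of invariants -/
abbrev B5 : Type := M5 × M5 × H4 × ℝ

def pp (z : H4 × H4) (g : M5) : B5 :=
  (mm (Lm z.1 * Matrix.of g), mm (Lm z.2 * Matrix.of g), qm z.2 (qc z.1), (ns z.1 - ns z.2) / 2)

theorem contDiff_pp : ContDiff ℝ ∞ fun y : (H4 × H4) × M5 => pp y.1 y.2 := by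
  have h1 : ContDiff ℝ ∞ fun y : (H4 × H4) × M5 => y.1.1 := contDiff_fst.fst
  have h2 : ContDiff ℝ ∞ fun y : (H4 × H4) × M5 => y.1.2 := contDiff_fst.snd
  have m1 := contDiff_mul.comp ((contDiff_Lm.comp h1).prodMk contDiff_snd)
  have m2 := contDiff_mul.comp ((contDiff_Lm.comp h2).prodMk contDiff_snd)
  have m3 := contDiff_qm.comp (h2.prodMk (contDiff_qc.comp h1))
  have m4 := ((contDiff_ns.comp h1).sub (contDiff_ns.comp h2)).div_const 2
  exact m1.prodMk (m2.prodMk (m3.prodMk m4))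

def ff (g : M5) : H4 × H4 := (zc 0 g, zc 1 g)

def pg (g : M5) : B5 := pp (ff g) g

theorem contDiff_ff : ContDiff ℝ ∞ ff := (contDiff_zc 0).prodMk (contDiff_zc 1)

theorem contDiff_pg : ContDiff ℝ ∞ pg := by
  have h := contDiff_pp.comp (contDiff_ff.prodMk (contDiff_id (E := M5)))
  exact h

theorem pg_Lm {h : H4} (hh : ns h = 1) (g : M5) : pg (mm (Lm h * Matrix.of g)) = pg g := by
  have e1 : qm (qc h) h = q1 := by rw [qc_qm, hh, one_smul]
  have k : ∀ z : H4, Lm (qm z (qc h)) * (Lm h * Matrix.of g) = Lm z * Matrix.of g := by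
    intro z
    rw [← Matrix.mul_assoc, Lm_mul, qm_assoc, e1, qm_q1]
  have k2 : ∀ z w : H4, qm (qm z (qc h)) (qc (qm w (qc h))) = qm z (qc w) := by
    intro z w
    rw [qc_mul, qc_qc, qm_assoc, ← qm_assoc (qc h), e1, q1_qm]
  simp only [pg, pp, ff, zc_Lm, of_mm, k, k2, ns_qm, ns_qc, hh, mul_one]

theorem ff_ne {g : M5} (hg : g ∈ SO 5) : ff g ≠ 0 := by
  intro hf
  have ho : (Matrix.of g)ᵀ * Matrix.of g = 1 :=
    (Matrix.mem_orthogonalGroup_iff' _ _).1 (Matrix.mem_specialOrthogonalGroup_iff.1 hg).1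
  have z : ∀ i : Fin 5, zc i g = 0 → ∀ a : Fin 4, g a.succ i = 0 := by
    intro i hi a
    have h2 := congrArg qc hi
    rw [zc, qc_qc] at h2
    have h3 := congrFun h2 a
    rw [h3]
    fin_cases a <;> simp [qc]
  have z0 := z 0 (congrArg Prod.fst hf)
  have z1 := z 1 (congrArg Prod.snd hf)
  have a00 := congrFun (congrFun ho 0) 0
  have a01 := congrFun (congrFun ho 0) 1
  have a11 := congrFun (congrFun ho 1) 1
  rw [Matrix.mul_apply, Fin.sum_univ_succ] at a00 a01 a11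
  simp only [Matrix.transpose_apply, Matrix.of_apply, z0, z1, mul_zero, Finset.sum_const_zero,
    add_zero, Matrix.one_apply_eq] at a00 a01 a11
  rw [Matrix.one_apply_ne (by decide)] at a01
  have : (g 0 0 * g 0 0) * (g 0 1 * g 0 1) = (g 0 0 * g 0 1) * (g 0 0 * g 0 1) := by ring
  rw [a00, a11, a01] at this
  norm_num at this

theorem det_SO {q : ℕ} {g : Fin q → Fin q → ℝ} (hg : g ∈ SO q) : (Matrix.of g).det = 1 :=
  (Matrix.mem_specialOrthogonalGroup_iff.1 hg).2

theorem isCompact_SO (q : ℕ) : IsCompact (SO q) := by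
  have hof : Continuous fun g : Fin q → Fin q → ℝ => (Matrix.of g : Matrix (Fin q) (Fin q) ℝ) :=
    continuous_matrix fun i j => by simp only [Matrix.of_apply]; fun_prop
  have hcl : IsClosed (SO q) := by
    have e : SO q = {g | (Matrix.of g)ᵀ * Matrix.of g = 1} ∩ {g | (Matrix.of g).det = 1} := by
      ext g
      simp only [SO, Set.mem_ofPred_eq, Set.mem_inter_iff, Matrix.mem_specialOrthogonalGroup_iff,
        Matrix.mem_orthogonalGroup_iff']
    rw [e]
    exact (isClosed_eq (hof.matrix_transpose.matrix_mul hof) continuous_const).inter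
      (isClosed_eq hof.matrix_det continuous_const)
  have hK : IsCompact (Set.pi Set.univ fun _ : Fin q => Set.pi Set.univ fun _ : Fin q =>
      Set.Icc (-1 : ℝ) 1) := isCompact_univ_pi fun _ => isCompact_univ_pi fun _ => isCompact_Icc
  refine hK.of_isClosed_subset hcl fun g hg i _ j _ => ?_
  have ho : (Matrix.of g)ᵀ * Matrix.of g = 1 :=
    (Matrix.mem_orthogonalGroup_iff' _ _).1 (Matrix.mem_specialOrthogonalGroup_iff.1 hg).1
  have a := congrFun (congrFun ho j) j
  rw [Matrix.mul_apply, Matrix.one_apply_eq] at a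
  simp only [Matrix.transpose_apply, Matrix.of_apply] at a
  have b : g i j * g i j ≤ 1 := by
    rw [← a]
    exact Finset.single_le_sum (f := fun k => g k j * g k j) (fun k _ => mul_self_nonneg _)
      (Finset.mem_univ i)
  constructor <;> nlinarith

end

end Pool.Agent.P.MP_878f14_gt.HT.Q
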