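import Mathlib

/-! Germs of relations along the zero section of a trivial bundle, written as filters, with total
pull-back operations. -/

namespace Pool.Agent.P.MP_878f14_gt.HT.Q

open Filter Topology Function
open scoped ContDiff

noncomputable section

abbrev E (n : ℕ) : Type := Fin n → ℝ

/-- a filter on pairs of points of the bundle for every point of the base -/
abbrev Rw (n : ℕ) (X : Type) : Type := X → Filter ((X × E n) × (X × E n))

variable {n : ℕ} {X X' X'' : Type} [TopologicalSpace X] [TopologicalSpace X'] [TopologicalSpace X'']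

def nb (n : ℕ) (t : X) : Filter ((X × E n) × (X × E n)) := 𝓝 ((t, 0), (t, 0))

/-- the germs of a relation -/
def rel (R : Set ((X × E n) × (X × E n))) : Rw n X := fun t => nb n t ⊓ 𝓟 R

/-- the germs of the fibres of a map -/
def kr (ψ : X × E n → E n) : Rw n X := rel {ab | ψ ab.1 = ψ ab.2}

/-- the horizontal foliation -/
def hor : Rw n X := kr Prod.snd

/-- a bundle map -/
def bun (m : X' → X) (A : X' × E n → E n) (y : X' × E n) : X × E n := (m y.1, A y)

/-- pull-back by a bundle map -/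
def pl (m : X' → X) (A : X' × E n → E n) (F : Rw n X) : Rw n X' := fun t =>
  nb n t ⊓ comap (Prod.map (bun m A) (bun m A)) (F (m t))

/-- pull-back by a map of the base -/
def pb (m : X' → X) (F : Rw n X) : Rw n X' := pl m Prod.snd F

/-- the bundle map is continuous at `(t, 0)` and sends it to the zero section -/
def Tn (m : X' → X) (A : X' × E n → E n) (t : X') : Prop :=
  Tendsto (bun m A) (𝓝 (t, 0)) (𝓝 (m t, 0))

variable {m m₁ : X' → X} {A A₁ : X' × E n → E n} {t : X'} {F G : Rw n X}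

theorem tn_of (hm : ContinuousAt m t) (hA : ContinuousAt A (t, 0)) (h0 : A (t, 0) = 0) :
    Tn m A t := by
  have h1 : Tendsto (fun y : X' × E n => m y.1) (𝓝 (t, 0)) (𝓝 (m t)) :=
    hm.tendsto.comp (continuous_fst.tendsto (t, (0 : E n)))
  have h2 : Tendsto A (𝓝 (t, 0)) (𝓝 0) := by
    have h3 := hA.tendsto
    rwa [h0] at h3
  exact h1.prodMk_nhds h2

theorem tn_snd (hm : ContinuousAt m t) : Tn m (Prod.snd : X' × E n → E n) t :=
  tn_of hm continuousAt_snd rfl

theorem rel_eq_iff {R R' : Set ((X × E n) × (X × E n))} {x : X} :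
    rel R x = rel R' x ↔ ∀ᶠ ab in nb n x, (ab ∈ R ↔ ab ∈ R') :=
  (nhdsWithin_eq_iff_eventuallyEq (s := R) (t := R') (x := ((x, 0), (x, 0)))).trans
    eventuallyEq_set

theorem raw_zero (x : X) : Tendsto (fun s : X => (s, (0 : E n))) (𝓝 x) (𝓝 (x, 0)) :=
  (Continuous.prodMk_left (0 : E n)).tendsto x

theorem raw_fst (x : X) : Tendsto Prod.fst (nb n x) (𝓝 (x, (0 : E n))) :=
  continuous_fst.tendsto ((x, (0 : E n)), (x, (0 : E n)))

theorem raw_snd (x : X) : Tendsto Prod.snd (nb n x) (𝓝 (x, (0 : E n))) :=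
  continuous_snd.tendsto ((x, (0 : E n)), (x, (0 : E n)))

theorem raw_inf_comap {α β : Type} {l : Filter α} {f g : α → β} (h : f =ᶠ[l] g) (G : Filter β) :
    l ⊓ comap f G = l ⊓ comap g G :=
  le_antisymm
    (le_inf inf_le_left ((tendsto_comap.mono_left inf_le_right).congr'
      (h.filter_mono inf_le_left)).le_comap)
    (le_inf inf_le_left ((tendsto_comap.mono_left inf_le_right).congr'
      (h.symm.filter_mono inf_le_left)).le_comap)

theorem rel_eventually {R R' : Set ((X × E n) × (X × E n))} {x : X} (h : rel R x = rel R' x) :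
    ∀ᶠ x' in 𝓝 x, rel R x' = rel R' x' := by
  have h1 := (rel_eq_iff.1 h).eventually_nhds
  filter_upwards [((raw_zero x).prodMk_nhds (raw_zero x)).eventually h1] with x' hx'
  exact rel_eq_iff.2 hx'

theorem kr_congr {ψ ψ' : X × E n → E n} {x : X} (h : ψ =ᶠ[𝓝 (x, 0)] ψ') : kr ψ x = kr ψ' x := by
  refine rel_eq_iff.2 ?_
  filter_upwards [(raw_fst x).eventually h, (raw_snd x).eventually h] with ab h1 h2
  rw [h1, h2]

theorem raw_le (h : Tn m A t) :
    nb n t ≤ comap (Prod.map (bun m A) (bun m A)) (nb n (m t)) :=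
  Tendsto.le_comap ((h.comp (raw_fst t)).prodMk_nhds (h.comp (raw_snd t)))

theorem pl_rel (h : Tn m A t) (R : Set ((X × E n) × (X × E n))) :
    pl m A (rel R) t = rel (Prod.map (bun m A) (bun m A) ⁻¹' R) t := by
  simp only [pl, rel]
  rw [comap_inf, comap_principal, ← inf_assoc, inf_eq_left.2 (raw_le h)]

theorem pl_kr (h : Tn m A t) (ψ : X × E n → E n) : pl m A (kr ψ) t = kr (ψ ∘ bun m A) t :=
  pl_rel h _

theorem pl_hor (h : Tn m A t) : pl m A hor t = kr A t := pl_kr h _

theorem pb_hor (hm : ContinuousAt m t) : pb m (hor : Rw n X) t = hor t := pl_hor (tn_snd hm)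

theorem pb_kr (hm : ContinuousAt m t) (ψ : X × E n → E n) :
    pb m (kr ψ) t = kr (fun y => ψ (m y.1, y.2)) t := pl_kr (tn_snd hm) ψ

omit [TopologicalSpace X] in
theorem pl_congr (h : F (m t) = G (m t)) : pl m A F t = pl m A G t := by simp only [pl, h]

omit [TopologicalSpace X] in
theorem pb_congr (h : F (m t) = G (m t)) : pb m F t = pb m G t := pl_congr h

omit [TopologicalSpace X] in
theorem pl_congr_map (hm : m =ᶠ[𝓝 t] m₁) (hA : A =ᶠ[𝓝 (t, 0)] A₁) : pl m A F t = pl m₁ A₁ F t := by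
  have hb : bun m A =ᶠ[𝓝 (t, 0)] bun m₁ A₁ := by
    filter_upwards [(continuous_fst.tendsto (t, (0 : E n))).eventually hm, hA] with y h1 h2
    simp only [bun, h1, h2]
  simp only [pl]
  rw [hm.eq_of_nhds]
  refine raw_inf_comap ?_ _
  filter_upwards [(raw_fst t).eventually hb, (raw_snd t).eventually hb] with ab h1 h2
  exact Prod.ext h1 h2

omit [TopologicalSpace X] in
theorem pb_congr_map (hm : m =ᶠ[𝓝 t] m₁) : pb m F t = pb m₁ F t := pl_congr_map hm .rfl

omit [TopologicalSpace X''] in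
theorem pl_pl (h : Tn m A t) (m' : X → X'') (A' : X × E n → E n) (H : Rw n X'') :
    pl m A (pl m' A' H) t = pl (m' ∘ m) (A' ∘ bun m A) H t := by
  simp only [pl]
  rw [comap_inf, ← inf_assoc, inf_eq_left.2 (raw_le h), comap_comap]
  rfl

omit [TopologicalSpace X''] in
theorem pb_pb (hm : ContinuousAt m t) (m' : X → X'') (H : Rw n X'') :
    pb m (pb m' H) t = pb (m' ∘ m) H t := pl_pl (tn_snd hm) m' _ H

theorem pb_id {x : X} (h : F x ≤ nb n x) : pb id F x = F x := by
  change nb n x ⊓ comap id (F x) = F x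
  rw [comap_id, inf_eq_right.2 h]

variable {V V' : Type} [NormedAddCommGroup V] [NormedSpace ℝ V] [NormedAddCommGroup V']
  [NormedSpace ℝ V']

/-- `F` is a structure near `t₀`; the base is seen in `V` through `ι` -/
def IsAt (ι : X → V) (F : Rw n X) (t₀ : X) : Prop :=
  ∃ φ : V × E n → E n, (∀ᶠ y in 𝓝 (ι t₀, (0 : E n)), ContDiffAt ℝ ∞ φ y) ∧
    Bijective (fderiv ℝ (fun x => φ (ι t₀, x)) 0) ∧
      ∀ᶠ t in 𝓝 t₀, F t = kr (fun y => φ (ι y.1, y.2)) t

/-- smooth near a point -/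
def Sm {W W' : Type} [NormedAddCommGroup W] [NormedSpace ℝ W] [NormedAddCommGroup W']
    [NormedSpace ℝ W'] (f : W → W') (w : W) : Prop := ∀ᶠ v in 𝓝 w, ContDiffAt ℝ ∞ f v

theorem sm_of {f : V → V'} (h : ContDiff ℝ ∞ f) (w : V) : Sm f w :=
  .of_forall fun _ => h.contDiffAt

variable {ι : X → V} {ι' : X' → V'} {x : X}

theorem IsAt.le_nb (h : IsAt ι F x) : F x ≤ nb n x := by
  obtain ⟨φ, -, -, h3⟩ := h
  rw [h3.self_of_nhds]
  exact inf_le_left

theorem IsAt.congr (h : IsAt ι F x) (e : ∀ᶠ x' in 𝓝 x, G x' = F x') : IsAt ι G x := by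
  obtain ⟨φ, h1, h2, h3⟩ := h
  refine ⟨φ, h1, h2, ?_⟩
  filter_upwards [e, h3] with x' a b
  rw [a, b]

theorem raw_fibre {φ : V × E n → E n} {v : V} (h : ContDiffAt ℝ ∞ φ (v, 0)) :
    fderiv ℝ (fun x => φ (v, x)) 0 =
      (fderiv ℝ φ (v, 0)).comp (ContinuousLinearMap.inr ℝ V (E n)) :=
  ((h.differentiableAt (by simp)).hasFDerivAt.comp (0 : E n)
    (hasFDerivAt_prodMk_right v (0 : E n))).fderiv

theorem raw_bij {φ : V × E n → E n} {v : V} (h : ∀ᶠ y in 𝓝 (v, (0 : E n)), ContDiffAt ℝ ∞ φ y)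
    (hb : Bijective (fderiv ℝ (fun x => φ (v, x)) 0)) :
    ∀ᶠ w in 𝓝 v, Bijective (fderiv ℝ (fun x => φ (w, x)) 0) := by
  have h0 := h.self_of_nhds
  have hc : ContinuousAt (fun w : V =>
      (fderiv ℝ φ (w, 0)).comp (ContinuousLinearMap.inr ℝ V (E n))) v := by
    have h1 : ContinuousAt (fderiv ℝ φ) (v, 0) :=
      (h0.fderiv_right (m := 0) (by simp)).continuousAt
    exact (ContinuousAt.comp (f := fun w : V => (w, (0 : E n))) h1
      (Continuous.prodMk_left (0 : E n)).continuousAt).clm_comp continuousAt_const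
  rw [raw_fibre h0, ← ContinuousLinearMap.isUnit_iff_bijective] at hb
  filter_upwards [hc.eventually (Units.isOpen.mem_nhds hb), (raw_zero v).eventually h] with w h1 h2
  rw [raw_fibre h2, ← ContinuousLinearMap.isUnit_iff_bijective]
  exact h1

theorem IsAt.eventually (hι : Continuous ι) (h : IsAt ι F x) : ∀ᶠ x' in 𝓝 x, IsAt ι F x' := by
  obtain ⟨φ, h1, h2, h3⟩ := h
  filter_upwards [(hι.tendsto x).eventually ((raw_zero (ι x)).eventually h1.eventually_nhds),
    (hι.tendsto x).eventually (raw_bij h1 h2), h3.eventually_nhds] with x' a b c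
  exact ⟨φ, a, b, c⟩

theorem IsAt.eventually_eq (h : IsAt ι F x) (h' : IsAt ι G x) (e : F x = G x) :
    ∀ᶠ x' in 𝓝 x, F x' = G x' := by
  obtain ⟨φ, -, -, h3⟩ := h
  obtain ⟨φ', -, -, h3'⟩ := h'
  rw [h3.self_of_nhds, h3'.self_of_nhds] at e
  filter_upwards [h3, h3', rel_eventually e] with x' a b c
  rw [a, b]
  exact c

theorem isAt_hor (ι : X → V) (x : X) : IsAt ι (hor : Rw n X) x := by
  refine ⟨Prod.snd, .of_forall fun _ => contDiffAt_snd, ?_, .of_forall fun _ => rfl⟩
  have : fderiv ℝ (fun y : E n => (ι x, y).2) 0 = ContinuousLinearMap.id ℝ (E n) := fderiv_fun_id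
  rw [this]
  exact bijective_id

/-- the general pull-back lemma -/
theorem IsAt.pl (hι : IsInducing ι) (hι' : Continuous ι') (M : V' → V) (B : V' × E n → E n)
    (hM : Sm M (ι' t)) (hB : Sm B (ι' t, 0)) (hm : ∀ᶠ s in 𝓝 t, ι (m s) = M (ι' s))
    (hA : ∀ᶠ y in 𝓝 (t, (0 : E n)), A y = B (ι' y.1, y.2)) (h0 : ∀ᶠ s in 𝓝 t, A (s, 0) = 0)
    (hb : Bijective (fderiv ℝ (fun x => B (ι' t, x)) 0)) (h : IsAt ι F (m t)) :
    IsAt ι' (pl m A F) t := by
  obtain ⟨φ, h1, h2, h3⟩ := h
  have eM : M (ι' t) = ι (m t) := hm.self_of_nhds.symm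
  have eB : B (ι' t, 0) = 0 := hA.self_of_nhds.symm.trans h0.self_of_nhds
  have hMc : ∀ᶠ s in 𝓝 t, ContinuousAt m s := by
    filter_upwards [hm.eventually_nhds, (hι'.tendsto t).eventually hM] with s a b
    refine hι.continuousAt_iff.2 ?_
    exact (ContinuousAt.comp (f := ι') b.continuousAt hι'.continuousAt).congr
      (EventuallyEq.symm a)
  have hpc : Continuous fun y : X' × E n => (ι' y.1, y.2) := by fun_prop
  have hAc : ∀ᶠ s in 𝓝 t, ContinuousAt A (s, 0) := by
    filter_upwards [(raw_zero t).eventually hA.eventually_nhds,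
      (hι'.tendsto t).eventually ((raw_zero (ι' t)).eventually hB)] with s a b
    exact (ContinuousAt.comp (f := fun y : X' × E n => (ι' y.1, y.2)) (x := (s, 0))
      b.continuousAt hpc.continuousAt).congr (EventuallyEq.symm a)
  have hT : Tendsto (fun y : V' × E n => (M y.1, B y)) (𝓝 (ι' t, 0)) (𝓝 (ι (m t), 0)) := by
    have := tn_of (m := M) (A := B) (t := ι' t) hM.self_of_nhds.continuousAt
      hB.self_of_nhds.continuousAt eB
    rw [← eM]
    exact this
  refine ⟨fun y => φ (M y.1, B y), ?_, ?_, ?_⟩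
  · filter_upwards [hT.eventually h1, (continuous_fst.tendsto (ι' t, (0 : E n))).eventually hM, hB]
      with y a b c
    exact a.comp y ((b.comp y contDiffAt_fst).prodMk c)
  · have d1 : DifferentiableAt ℝ (fun x => B (ι' t, x)) 0 :=
      (hB.self_of_nhds.differentiableAt (by simp)).comp (0 : E n)
        (hasFDerivAt_prodMk_right (ι' t) (0 : E n)).differentiableAt
    have d2 : DifferentiableAt ℝ (fun x => φ (ι (m t), x)) (B (ι' t, 0)) := by
      rw [eB]
      exact (h1.self_of_nhds.differentiableAt (by simp)).comp (0 : E n)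
        (hasFDerivAt_prodMk_right (ι (m t)) (0 : E n)).differentiableAt
    have e := fderiv_comp (0 : E n) (g := fun x => φ (ι (m t), x)) (f := fun x => B (ι' t, x)) d2 d1
    simp only [eM]
    refine (congrArg (fun D : E n →L[ℝ] E n => Bijective D) e).mpr ?_
    rw [eB]
    exact h2.comp hb
  · filter_upwards [hMc, hAc, h0, hMc.self_of_nhds.tendsto.eventually h3, hm.eventually_nhds,
      (raw_zero t).eventually hA.eventually_nhds] with s a b c d e f
    rw [pl_congr d, pl_kr (tn_of a b c)]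
    refine kr_congr ?_
    filter_upwards [(continuous_fst.tendsto (s, (0 : E n))).eventually e, f] with y p q
    simp only [comp, bun, p, q]

theorem IsAt.pb (hι : IsInducing ι) (hι' : Continuous ι') (M : V' → V) (hM : Sm M (ι' t))
    (hm : ∀ᶠ s in 𝓝 t, ι (m s) = M (ι' s)) (h : IsAt ι F (m t)) : IsAt ι' (pb m F) t := by
  refine IsAt.pl hι hι' M Prod.snd hM (sm_of contDiff_snd _) hm (.of_forall fun _ => rfl)
    (.of_forall fun _ => rfl) ?_ h
  have : fderiv ℝ (fun y : E n => (ι' t, y).2) 0 = ContinuousLinearMap.id ℝ (E n) := fderiv_fun_id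
  rw [this]
  exact bijective_id

/-- the fibrewise linear map given by a family of matrices -/
def lin (L : X → Fin n → Fin n → ℝ) (y : X × E n) : E n := (Matrix.of (L y.1)).mulVec y.2

theorem tn_lin {L : X' → Fin n → Fin n → ℝ} (hm : ContinuousAt m t) (hL : ContinuousAt L t) :
    Tn m (lin L) t := by
  refine tn_of hm ?_ (Matrix.mulVec_zero _)
  have h1 : ContinuousAt (fun y : X' × E n => L y.1) (t, 0) :=
    ContinuousAt.comp (f := Prod.fst) hL continuousAt_fst
  refine continuousAt_pi.2 fun i => ?_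
  change ContinuousAt (fun y : X' × E n => ∑ j, L y.1 i j * y.2 j) (t, 0)
  refine tendsto_finsetSum _ fun j _ => ContinuousAt.mul ?_ ?_
  · exact continuousAt_pi.1 (continuousAt_pi.1 h1 i) j
  · exact continuousAt_pi.1 continuousAt_snd j

theorem raw_sm_lin {L : V → Fin n → Fin n → ℝ} {v : V} (hL : Sm L v) : Sm (lin L) (v, 0) := by
  filter_upwards [(continuous_fst.tendsto (v, (0 : E n))).eventually hL] with y hy
  have h1 : ContDiffAt ℝ ∞ (fun y : V × E n => L y.1) y := hy.comp y contDiffAt_fst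
  refine contDiffAt_pi.2 fun i => ?_
  change ContDiffAt ℝ ∞ (fun y : V × E n => ∑ j, L y.1 i j * y.2 j) y
  refine ContDiffAt.sum fun j _ => ContDiffAt.mul ?_ ?_
  · exact contDiffAt_pi.1 (contDiffAt_pi.1 h1 i) j
  · exact contDiffAt_pi.1 contDiffAt_snd j

omit [NormedAddCommGroup V] [NormedSpace ℝ V] in
theorem raw_bij_lin {L : V → Fin n → Fin n → ℝ} {v : V} (hd : (Matrix.of (L v)).det ≠ 0) :
    Bijective (fderiv ℝ (fun x => lin L (v, x)) 0) := by
  have e : fderiv ℝ (fun x => lin L (v, x)) 0 =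
      LinearMap.toContinuousLinearMap (Matrix.of (L v)).mulVecLin :=
    (LinearMap.toContinuousLinearMap (Matrix.of (L v)).mulVecLin).fderiv
  rw [e]
  have hu : IsUnit (Matrix.of (L v)) := (Matrix.isUnit_iff_isUnit_det _).2 (isUnit_iff_ne_zero.2 hd)
  exact ⟨Matrix.mulVec_injective_iff_isUnit.2 hu, Matrix.mulVec_surjective_iff_isUnit.2 hu⟩

theorem IsAt.pl_lin {F : Rw n V} {m : V' → V} {L : V' → Fin n → Fin n → ℝ} {v : V'} (hm : Sm m v)
    (hL : Sm L v) (hd : (Matrix.of (L v)).det ≠ 0) (h : IsAt id F (m v)) :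
    IsAt id (Q.pl m (lin L) F) v :=
  IsAt.pl IsInducing.id continuous_id m (lin L) hm (raw_sm_lin hL) (.of_forall fun _ => rfl)
    (.of_forall fun _ => rfl) (.of_forall fun _ => Matrix.mulVec_zero _) (raw_bij_lin hd) h

theorem isAt_kr_lin {L : V → Fin n → Fin n → ℝ} {v : V} (hL : Sm L v)
    (hd : (Matrix.of (L v)).det ≠ 0) : IsAt id (kr (lin L)) v :=
  ⟨lin L, raw_sm_lin hL, raw_bij_lin hd, .of_forall fun _ => rfl⟩

theorem raw_inj {f : E n → E n} (hf : ContDiffAt ℝ ∞ f 0) (hb : Bijective (fderiv ℝ f 0)) :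
    ∃ g : E n → E n, ∀ᶠ y in 𝓝 (0 : E n), g (f y) = y := by
  obtain ⟨u, hu⟩ := ContinuousLinearMap.isUnit_iff_bijective.2 hb
  have hs : HasStrictFDerivAt f
      ((ContinuousLinearEquiv.ofUnit u : E n ≃L[ℝ] E n) : E n →L[ℝ] E n) 0 := by
    have : ((ContinuousLinearEquiv.ofUnit u : E n ≃L[ℝ] E n) : E n →L[ℝ] E n) = fderiv ℝ f 0 := by
      rw [← hu]; rfl
    rw [this]
    exact hf.hasStrictFDerivAt (by simp)
  exact ⟨_, hs.eventually_left_inverse⟩

/-- the pull-back by a locally constant map is horizontal -/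
theorem IsAt.pb_const (h : IsAt ι F x) (hm : ∀ᶠ s in 𝓝 t, m s = x) : Q.pb m F t = hor t := by
  obtain ⟨φ, h1, h2, h3⟩ := h
  have hf : ContDiffAt ℝ ∞ (fun y : E n => φ (ι x, y)) 0 :=
    h1.self_of_nhds.comp (0 : E n) (contDiffAt_const.prodMk contDiffAt_id)
  obtain ⟨g, hg⟩ := raw_inj hf h2
  rw [pb_congr_map (m₁ := fun _ => x) hm, pb_congr (m := fun _ : X' => x) h3.self_of_nhds,
    pb_kr continuousAt_const]
  refine rel_eq_iff.2 ?_
  have hs := (continuous_snd.tendsto (t, (0 : E n))).eventually hg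
  filter_upwards [(raw_fst t).eventually hs, (raw_snd t).eventually hs] with ab a b
  refine ⟨fun e => ?_, fun e => ?_⟩
  · have e' : φ (ι x, ab.1.2) = φ (ι x, ab.2.2) := e
    change ab.1.2 = ab.2.2
    rw [← a, ← b, e']
  · have e' : ab.1.2 = ab.2.2 := e
    change φ (ι x, ab.1.2) = φ (ι x, ab.2.2)
    rw [e']

end

end Pool.Agent.P.MP_878f14_gt.HT.Q
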