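import Pool.Agent.P.MP_878f14_gt.HT.Q.Delta
import Pool.Agent.P.MP_878f14_gt.HT.Q.House
import Pool.Agent.P.MP_878f14_gt.HT.Q.Null
import Pool.Agent.P.MP_878f14_gt.HT.Q.Germ

/-! The suspension of the action of the rotation group in dimension five. -/

namespace Pool.Agent.P.MP_878f14_gt.HT.Q

open Filter Topology Function Matrix
open scoped ContDiff

noncomputable section

theorem so5_compact : IsCompact {u : H4 | 1 ≤ ns u ∧ ns u ≤ 4} := by
  have hns : Continuous ns := contDiff_ns.continuous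
  refine Metric.isCompact_of_isClosed_isBounded
    ((isClosed_le continuous_const hns).inter (isClosed_le hns continuous_const)) ?_
  refine (Metric.isBounded_closedBall (x := (0 : H4)) (r := 2)).subset fun u hu => ?_
  have h4 : ns u ≤ 4 := hu.2
  rw [mem_closedBall_zero_iff, pi_norm_le_iff_of_nonneg (by norm_num)]
  intro i
  rw [Real.norm_eq_abs]
  refine abs_le_of_sq_le_sq' ?_ (by norm_num) |> abs_le.2
  simp only [ns] at h4
  fin_cases i <;> simp <;>
    nlinarith [sq_nonneg (u 0), sq_nonneg (u 1), sq_nonneg (u 2), sq_nonneg (u 3)]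

theorem so5_dimH : dimH {u : H4 | 1 ≤ ns u ∧ ns u ≤ 4} < ((7 + 1 : ℕ) : ENNReal) := by
  refine lt_of_le_of_lt (dimH_mono (Set.subset_univ _)) ?_
  rw [Real.dimH_univ_pi_fin]
  exact_mod_cast (by norm_num : (4 : ℕ) < 7 + 1)

theorem so5_det {g : M5} (hg : g ∈ SO 5) : (Matrix.of g).det ≠ 0 := by
  rw [det_SO hg]
  exact one_ne_zero

theorem conc_SO5 (hF : ∀ p < 7, SK.WFill (KK 5) p) : Conc (SO 5) hor (kr (lin minv)) := by
  obtain ⟨B, hB, hB'⟩ := exists_B (conc_hor hF so5_compact so5_dimH fun u hu =>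
    delta_isAt_gH (delta_ne_of_ns (lt_of_lt_of_le one_pos hu.1)))
  have hU : ∀ᶠ g in 𝓝ˢ (SO 5), ff g ≠ 0 ∧ (Matrix.of g).det ≠ 0 :=
    delta_isOpen.mem_nhdsSet.2 fun g hg => ⟨ff_ne hg, so5_det hg⟩
  have hff : Continuous ff := contDiff_ff.continuous
  have hpg : Continuous pg := contDiff_pg.continuous
  have h1 : Conc (ff '' SO 5) hor (pb (fun z : H4 × H4 => pp z (mm 1)) (del B)) := by
    refine conc_hor hF ((isCompact_SO 5).image hff) dimH_ff ?_
    rintro _ ⟨g, hg, rfl⟩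
    exact IsAt.pb (ι := id) (ι' := id) IsInducing.id continuous_id _
      (sm_of delta_contDiff_m1 _) (.of_forall fun _ => rfl)
      (isAt_del hB hB' (ff_ne hg) (by simp))
  have h2 : Conc (SO 5) hor (pb (fun g => pp (ff g) (mm 1)) (del B)) := by
    refine (h1.pb (M' := SO 5) (m := ff) (fun x _ => sm_of contDiff_ff x)
      fun x hx => ⟨x, hx, rfl⟩).congr (.of_forall fun g => ?_) (.of_forall fun g => ?_)
    · exact (pb_hor hff.continuousAt).symm
    · exact (pb_pb hff.continuousAt (fun z : H4 × H4 => pp z (mm 1)) (del B)).symm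
  have h3 : Conc (pg '' SO 5) hor (del B) := by
    refine conc_hor hF ((isCompact_SO 5).image hpg) dimH_pg ?_
    rintro _ ⟨g, hg, rfl⟩
    exact isAt_del hB hB' (ff_ne hg) (so5_det hg)
  have h4 : Conc (SO 5) (kr (lin minv)) (pb (fun g => pp (ff g) (mm 1)) (del B)) := by
    refine (h3.pl_lin (M' := SO 5) (m := pg) (L := minv) (fun x _ => sm_of contDiff_pg x)
      (fun x hx => sm_minv (so5_det hx)) (fun x hx => ?_)
      fun x hx => ⟨x, hx, rfl⟩).congr ?_ ?_
    · rw [minv, of_mm, Matrix.det_nonsing_inv, det_SO hx]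
      simp
    · filter_upwards [hU] with g hg
      exact (pl_hor (tn_lin hpg.continuousAt (delta_sm_cont (sm_minv hg.2)))).symm
    · filter_upwards [hU] with g hg
      exact (del_equiv hg.1 hg.2).symm
  exact h2.trans h4.symm

theorem so5_rel {A C : Mx} (hA : A.det ≠ 0) (hC : C.det ≠ 0) (x y : E 5) :
    (∃ v, x = A.mulVec v ∧ y = C.mulVec v) ↔ A⁻¹.mulVec x = C⁻¹.mulVec y := by
  have hA' := isUnit_iff_ne_zero.2 hA
  have hC' := isUnit_iff_ne_zero.2 hC
  constructor
  · rintro ⟨v, rfl, rfl⟩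
    rw [Matrix.mulVec_mulVec, Matrix.mulVec_mulVec, Matrix.nonsing_inv_mul _ hA',
      Matrix.nonsing_inv_mul _ hC']
  · intro h
    refine ⟨A⁻¹.mulVec x, ?_, ?_⟩
    · rw [Matrix.mulVec_mulVec, Matrix.mul_nonsing_inv _ hA', Matrix.one_mulVec]
    · rw [h, Matrix.mulVec_mulVec, Matrix.mul_nonsing_inv _ hC', Matrix.one_mulVec]

theorem toR_susp (t : SO 5) : toR (susp 5) t = pb Subtype.val (kr (lin minv)) t := by
  rw [pb_kr continuous_subtype_val.continuousAt]
  have e : toR (susp 5) t = rel {ab : (SO 5 × E 5) × (SO 5 × E 5) | ∃ v,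
      ab.1.2 = (Matrix.of ab.1.1.1).mulVec v ∧ ab.2.2 = (Matrix.of ab.2.1.1).mulVec v} t := rfl
  rw [e, kr]
  refine rel_eq_iff.2 (.of_forall fun ab => ?_)
  exact so5_rel (so5_det ab.1.1.2) (so5_det ab.2.1.2) _ _

theorem null_SO5 (hF : ∀ p < 7, SK.WFill (KK 5) p) : NullHtp (susp 5) :=
  nullHtp_of_conc (conc_SO5 hF) toR_susp

end

end Pool.Agent.P.MP_878f14_gt.HT.Q
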