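import Pool.Agent.P.MP_878f14_gt.HT.Q.Kan

/-! One step of the construction of a prism. -/

namespace Pool.Agent.P.MP_878f14_gt.HT.Q.SK

variable {S : SK} {p i : ℕ} {h : ∀ p, ℕ → S.X p → S.X (p + 1)} {δ : ∀ p, ℕ → S.X p → S.X p}
  {s : ℕ → S.X p}

/-- the boundary of the `i`-th prism simplex -/
def stepFam (H : ℕ → S.X p → S.X (p + 1)) (s : ℕ → S.X p) (i : ℕ) (u v : S.X (p + 1))
    (l : ℕ) : S.X (p + 1) :=
  if l < i then H (i - 1) (s l) else if l = i then u else if l = i + 1 then v else H i (s (l - 1))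

section Fam

variable {H : ℕ → S.X p → S.X (p + 1)} {u v : S.X (p + 1)} {l : ℕ}

theorem step_lt (hl : l < i) : stepFam H s i u v l = H (i - 1) (s l) := if_pos hl

theorem step_eq : stepFam H s i u v i = u := by simp [stepFam]

theorem step_succ : stepFam H s i u v (i + 1) = v := by simp [stepFam]

theorem step_gt (hl : i + 1 < l) : stepFam H s i u v l = H i (s (l - 1)) := by
  rw [stepFam, if_neg (by omega), if_neg (by omega), if_neg (by omega)]

theorem step_side {w : S.X (p + 2)}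
    (hw : ∀ a ≤ p + 2, a ≠ i → a ≠ i + 1 → S.d a w = stepFam H s i u v a) : S.Side H s i w :=
  fun l hl => ⟨fun h1 => by rw [hw l hl (by omega) (by omega), step_lt h1],
    fun h1 => by rw [hw l hl (by omega) (by omega), step_gt h1]⟩

end Fam

theorem step_hi (hP : S.Prism p h δ) (h0 : 0 < i) (hi : i ≤ p + 1) (x : S.X p) :
    S.d i (h p (i - 1) x) = δ p i x := by
  obtain ⟨j, rfl⟩ : ∃ j, i = j + 1 := ⟨i - 1, by omega⟩
  exact hP.hi p le_rfl j (by omega) x

theorem step_cp (hP : S.Prism p h δ) (hs : S.Cq p s) (hi : i ≤ p + 1) {u v : S.X (p + 1)}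
    (A : ℕ → Prop) (hu : A i → S.Diag (δ p) s i u) (hv : A (i + 1) → S.Diag (δ p) s (i + 1) v) :
    S.Cp A (stepFam (h p) s i u v) := by
  intro a b hab hb ha hb'
  rcases lt_trichotomy (b + 1) i with h1 | h1 | h1
  · obtain ⟨q, rfl⟩ : ∃ q, p = q + 1 := ⟨p - 1, by omega⟩
    rw [step_lt h1, step_lt (by omega), hP.lt q le_rfl _ (by omega) a (by omega),
      hP.lt q le_rfl _ (by omega) b (by omega), hs a b hab (by omega) trivial trivial]
  · subst h1
    rw [step_eq, step_lt (by omega), hu hb' a (by omega), if_pos (by omega)]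
    exact (hP.lo p le_rfl b (by omega) _).symm
  rcases (Nat.lt_succ_iff.1 h1).eq_or_lt with h2 | h2
  · subst h2
    rw [step_succ, hv hb' a (by omega), if_pos (by omega), Nat.add_sub_cancel]
    rcases hab.eq_or_lt with rfl | h3
    · rw [step_eq, hu ha a (by omega), if_neg (lt_irrefl _)]
    · rw [step_lt h3, step_hi hP (by omega) hi]
  rw [step_gt (by omega), Nat.add_sub_cancel]
  rcases lt_trichotomy a i with h3 | rfl | h3
  · obtain ⟨q, rfl⟩ : ∃ q, p = q + 1 := ⟨p - 1, by omega⟩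
    obtain ⟨c, rfl⟩ : ∃ c, b = c + 1 := ⟨b - 1, by omega⟩
    rw [step_lt h3, hP.lt q le_rfl i (by omega) a h3,
      hP.gt q le_rfl (i - 1) (c + 1) (by omega) (by omega), Nat.add_sub_cancel,
      hs a c (by omega) (by omega) trivial trivial]
  · rw [step_eq, hu ha b hb, if_neg (by omega), hP.lo p le_rfl a (by omega)]
  rcases (Nat.succ_le_of_lt h3).eq_or_lt with rfl | h4
  · rw [step_succ, hv ha b hb, if_neg (by omega), hP.hi p le_rfl i (by omega)]
  · obtain ⟨q, rfl⟩ : ∃ q, p = q + 1 := ⟨p - 1, by omega⟩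
    obtain ⟨c, rfl⟩ : ∃ c, b = c + 1 := ⟨b - 1, by omega⟩
    rw [step_gt h4, hP.gt q le_rfl i a h4 (by omega),
      hP.gt q le_rfl i (c + 1) (by omega) (by omega), Nat.add_sub_cancel,
      hs (a - 1) c (by omega) (by omega) trivial trivial]

theorem step_up (hP : S.Prism p h δ) (hK : S.Kan p) (hs : S.Cq p s) (hi : i ≤ p + 1)
    {u : S.X (p + 1)} (hu : S.Diag (δ p) s i u) :
    ∃ w : S.X (p + 2), S.d i w = u ∧ S.Side (h p) s i w ∧
      S.Diag (δ p) s (i + 1) (S.d (i + 1) w) := by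
  obtain ⟨w, hw⟩ := hK (i + 1) (by omega) (stepFam (h p) s i u u)
    (step_cp hP hs hi _ (fun _ => hu) fun h1 => absurd rfl h1)
  refine ⟨w, by rw [hw i (by omega) (by omega), step_eq],
    step_side fun a ha _ h2 => hw a ha h2, fun l hl => ?_⟩
  split_ifs with h1
  · rw [S.dd w (Nat.lt_succ_iff.1 h1) hi, hw l (by omega) (by omega), Nat.add_sub_cancel]
    rcases (Nat.lt_succ_iff.1 h1).eq_or_lt with rfl | h3
    · rw [step_eq, hu l hl, if_neg (lt_irrefl _)]
    · rw [step_lt h3, step_hi hP (by omega) hi]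
  · rw [← S.dd w (not_lt.1 h1) hl, hw (l + 1) (by omega) (by omega), step_gt (by omega),
      Nat.add_sub_cancel, hP.hi p le_rfl i (by omega)]

theorem step_down (hP : S.Prism p h δ) (hK : S.Kan p) (hs : S.Cq p s) (hi : i ≤ p + 1)
    {v : S.X (p + 1)} (hv : S.Diag (δ p) s (i + 1) v) :
    ∃ w : S.X (p + 2), S.d (i + 1) w = v ∧ S.Side (h p) s i w ∧
      S.Diag (δ p) s i (S.d i w) := by
  obtain ⟨w, hw⟩ := hK i (by omega) (stepFam (h p) s i v v)
    (step_cp hP hs hi _ (fun h1 => absurd rfl h1) fun _ => hv)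
  refine ⟨w, by rw [hw (i + 1) (by omega) (by omega), step_succ],
    step_side fun a ha h1 _ => hw a ha h1, fun l hl => ?_⟩
  split_ifs with h1
  · obtain ⟨j, rfl⟩ : ∃ j, i = j + 1 := ⟨i - 1, by omega⟩
    rw [S.dd w (Nat.lt_succ_iff.1 h1) (by omega), hw l (by omega) (by omega), step_lt h1,
      Nat.add_sub_cancel, hP.lo p le_rfl j (by omega)]
  · rw [← S.dd w (not_lt.1 h1) hl, hw (l + 1) (by omega) (by omega)]
    rcases (not_lt.1 h1).eq_or_lt with rfl | h3
    · rw [step_succ, hv i hl, if_pos (by omega), Nat.add_sub_cancel]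
    · rw [step_gt (by omega), Nat.add_sub_cancel, hP.lo p le_rfl i (by omega)]

theorem step_fill (hP : S.Prism p h δ) (hF : S.Fill p) (hs : S.Cq p s) (hi : i ≤ p + 1)
    {u v : S.X (p + 1)} (hu : S.Diag (δ p) s i u) (hv : S.Diag (δ p) s (i + 1) v) :
    ∃ w : S.X (p + 2), S.d i w = u ∧ S.d (i + 1) w = v ∧ S.Side (h p) s i w := by
  obtain ⟨w, hw⟩ := hF (stepFam (h p) s i u v) (step_cp hP hs hi _ (fun _ => hu) fun _ => hv)
  exact ⟨w, by rw [hw i (by omega), step_eq], by rw [hw (i + 1) (by omega), step_succ],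
    step_side fun a ha _ _ => hw a ha⟩

end Pool.Agent.P.MP_878f14_gt.HT.Q.SK
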