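import Pool.Agent.P.MP_878f14_gt.HT.Q.Quat

/-! The structure with the Hopf bundle as normal bundle, in invariant coordinates. -/

namespace Pool.Agent.P.MP_878f14_gt.HT.Q

open Filter Topology Function Matrix
open scoped ContDiff

noncomputable section

def rho (b : B5) : ℝ := √(ns b.2.2.1 + b.2.2.2 ^ 2)

def a1 (b : B5) : ℝ := rho b + b.2.2.2

def a2 (b : B5) : ℝ := rho b - b.2.2.2

def uu (b : B5) : H4 := (a1 b)⁻¹ • b.2.2.1

def L1 (b : B5) : M5 := mm (E0 * Matrix.of b.1 +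
  (2 * rho b)⁻¹ • (a1 b • (L0 q1 * Matrix.of b.1) + L0 (qc b.2.2.1) * Matrix.of b.2.1))

def L2 (b : B5) : M5 := mm (E0 * Matrix.of b.1 +
  (2 * rho b)⁻¹ • (L0 b.2.2.1 * Matrix.of b.1 + a2 b • (L0 q1 * Matrix.of b.2.1)))

variable {z : H4 × H4} {g : M5} {b : B5}

theorem two_abs_le (b : B5) : |b.2.2.2| ≤ rho b :=
  Real.abs_le_sqrt (le_add_of_nonneg_left (ns_nonneg _))

theorem two_sq (b : B5) : rho b ^ 2 = ns b.2.2.1 + b.2.2.2 ^ 2 :=
  Real.sq_sqrt (add_nonneg (ns_nonneg _) (sq_nonneg _))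

theorem a1_nonneg (b : B5) : 0 ≤ a1 b := by
  have := (abs_le.1 (two_abs_le b)).1
  unfold a1; linarith

theorem a2_nonneg (b : B5) : 0 ≤ a2 b := by
  have := (abs_le.1 (two_abs_le b)).2
  unfold a2; linarith

theorem a1_mul_a2 (b : B5) : a1 b * a2 b = ns b.2.2.1 := by
  unfold a1 a2; linear_combination two_sq b

theorem two_rho (z : H4 × H4) (g : M5) : rho (pp z g) = (ns z.1 + ns z.2) / 2 := by
  unfold rho pp
  rw [Real.sqrt_eq_iff_mul_self_eq (add_nonneg (ns_nonneg _) (sq_nonneg _))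
    (by linarith [ns_nonneg z.1, ns_nonneg z.2]), ns_qm, ns_qc]
  ring

theorem a1_pp (z : H4 × H4) (g : M5) : a1 (pp z g) = ns z.1 := by
  rw [a1, two_rho]; unfold pp; ring

theorem a2_pp (z : H4 × H4) (g : M5) : a2 (pp z g) = ns z.2 := by
  rw [a2, two_rho]; unfold pp; ring

theorem rho_pp_pos (hz : z ≠ 0) (g : M5) : 0 < rho (pp z g) := by
  rw [two_rho]
  have h1 := ns_nonneg z.1
  have h2 := ns_nonneg z.2
  refine lt_of_le_of_ne (by linarith) fun h => hz (Prod.ext ?_ ?_)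
  · exact ns_eq_zero.1 (by linarith)
  · exact ns_eq_zero.1 (by linarith)

theorem two_E0 (a : H4) (A : Mx) : E0 * (Lm a * A) = E0 * A := by
  rw [← Matrix.mul_assoc, Lm, Matrix.mul_add, E0_E0, E0_L0, add_zero]

theorem two_L0 (a c : H4) (A : Mx) : L0 a * (Lm c * A) = L0 (qm a c) * A := by
  rw [← Matrix.mul_assoc, Lm, Matrix.mul_add, L0_E0, L0_mul, zero_add]

theorem L1_pp (hz : z ≠ 0) (g : M5) : L1 (pp z g) = mm (Lm z.1 * Matrix.of g) := by
  have h := (rho_pp_pos hz g).ne'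
  have h2 : 2 * rho (pp z g) = ns z.1 + ns z.2 := by rw [two_rho]; ring
  rw [L1, a1_pp]
  congr 1
  change E0 * (Lm z.1 * Matrix.of g) + _ • (_ • (L0 q1 * (Lm z.1 * Matrix.of g)) +
    L0 (qc (qm z.2 (qc z.1))) * (Lm z.2 * Matrix.of g)) = _
  rw [two_E0, two_L0, two_L0, q1_qm, qc_mul, qc_qc, qm_assoc, qc_qm, qm_smul, qm_q1, L0_smul,
    Matrix.smul_mul, ← add_smul, ← h2, smul_smul, inv_mul_cancel₀ (mul_ne_zero two_ne_zero h),
    one_smul, Lm, Matrix.add_mul]

theorem L2_pp (hz : z ≠ 0) (g : M5) : L2 (pp z g) = mm (Lm z.2 * Matrix.of g) := by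
  have h := (rho_pp_pos hz g).ne'
  have h2 : 2 * rho (pp z g) = ns z.1 + ns z.2 := by rw [two_rho]; ring
  rw [L2, a2_pp]
  congr 1
  change E0 * (Lm z.1 * Matrix.of g) + _ • (L0 (qm z.2 (qc z.1)) * (Lm z.1 * Matrix.of g) +
    _ • (L0 q1 * (Lm z.2 * Matrix.of g))) = _
  rw [two_E0, two_L0, two_L0, q1_qm, qm_assoc, qc_qm, qm_smul, qm_q1, L0_smul,
    Matrix.smul_mul, ← add_smul, ← h2, smul_smul, inv_mul_cancel₀ (mul_ne_zero two_ne_zero h),
    one_smul, Lm, Matrix.add_mul]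

theorem uu_pp (z : H4 × H4) (g g' : M5) : uu (pp z g) = uu (pp z g') := rfl

theorem ns_uu (h : a1 b ≠ 0) : ns (uu b) = a2 b / a1 b := by
  rw [uu, ns_smul, ← a1_mul_a2]
  field_simp

theorem Lm_L1 (h : a1 b ≠ 0) : Lm (uu b) * Matrix.of (L1 b) = Matrix.of (L2 b) := by
  have h1 : a1 b • L0 (uu b) = L0 b.2.2.1 := by
    rw [← L0_smul, uu, smul_smul, mul_inv_cancel₀ h, one_smul]
  have h2 : L0 (qm (uu b) (qc b.2.2.1)) = a2 b • L0 q1 := by
    rw [uu, smul_qm, qm_qc, smul_smul, ← a1_mul_a2, inv_mul_cancel_left₀ h, L0_smul]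
  rw [L1, L2, of_mm, of_mm, Lm, ← h1]
  simp only [Matrix.add_mul, Matrix.mul_add, Matrix.mul_smul, Matrix.smul_mul, ← Matrix.mul_assoc,
    E0_E0, E0_L0, L0_E0, L0_mul, qm_q1, h2, Matrix.zero_mul, smul_zero, add_zero, zero_add]

theorem two_continuous_rho : Continuous rho :=
  ((contDiff_ns.continuous.comp continuous_snd.snd.fst).add (continuous_snd.snd.snd.pow 2)).sqrt

theorem continuous_a1 : Continuous a1 := two_continuous_rho.add continuous_snd.snd.snd

theorem continuous_a2 : Continuous a2 := two_continuous_rho.sub continuous_snd.snd.snd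

theorem two_cd_rho (h : 0 < rho b) : ContDiffAt ℝ ∞ rho b :=
  (((contDiff_ns.comp contDiff_snd.snd.fst).add (contDiff_snd.snd.snd.pow 2)).contDiffAt).sqrt
    (Real.sqrt_pos.1 h).ne'

theorem two_cd_mul {f f' : B5 → M5} (h : ContDiff ℝ ∞ f) (h' : ContDiff ℝ ∞ f') :
    ContDiffAt ℝ ∞ (fun b => mm (Matrix.of (f b) * Matrix.of (f' b))) b :=
  (contDiff_mul.comp (h.prodMk h')).contDiffAt

theorem sm_uu (h : 0 < a1 b) : Sm uu b := by
  filter_upwards [continuous_a1.continuousAt.eventually (lt_mem_nhds h)] with v hv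
  have h1 : 0 < rho v := by
    have := a2_nonneg v
    unfold a1 at hv; unfold a2 at this; linarith
  exact (((two_cd_rho h1).add contDiffAt_snd.snd.snd).inv hv.ne').smul contDiffAt_snd.snd.fst

theorem sm_L1 (h : 0 < rho b) : Sm L1 b := by
  filter_upwards [two_continuous_rho.continuousAt.eventually (lt_mem_nhds h)] with v hv
  exact (two_cd_mul (f := fun _ => mm E0) contDiff_const contDiff_fst).add
    (((contDiffAt_const.mul (two_cd_rho hv)).inv (mul_ne_zero two_ne_zero hv.ne')).smul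
      ((((two_cd_rho hv).add contDiffAt_snd.snd.snd).smul
        (two_cd_mul (f := fun _ => mm (L0 q1)) contDiff_const contDiff_fst)).add
      (two_cd_mul (contDiff_L0.comp (contDiff_qc.comp contDiff_snd.snd.fst)) contDiff_snd.fst)))

theorem sm_L2 (h : 0 < rho b) : Sm L2 b := by
  filter_upwards [two_continuous_rho.continuousAt.eventually (lt_mem_nhds h)] with v hv
  exact (two_cd_mul (f := fun _ => mm E0) contDiff_const contDiff_fst).add
    (((contDiffAt_const.mul (two_cd_rho hv)).inv (mul_ne_zero two_ne_zero hv.ne')).smul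
      ((two_cd_mul (contDiff_L0.comp contDiff_snd.snd.fst) contDiff_fst).add
      (((two_cd_rho hv).sub contDiffAt_snd.snd.snd).smul
        (two_cd_mul (f := fun _ => mm (L0 q1)) contDiff_const contDiff_snd.fst))))

end

end Pool.Agent.P.MP_878f14_gt.HT.Q
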